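import Mathlib

/-!
# Finite Ramsey theorem for `r`-element subsets
-/

set_option autoImplicit false

namespace Pool.Agent.Lib.MP_c27c22_co

/-- End-homogeneous sequences. -/
private theorem ramsey_end_homogeneous (r : ℕ) {κ : Type}
    (ih : ∀ m : ℕ, ∃ M : ℕ, ∀ X : Finset ℕ, M ≤ X.card → ∀ f : Finset ℕ → κ,
      ∃ Y, Y ⊆ X ∧ Y.card = m ∧ ∃ c, ∀ Z, Z ⊆ Y → Z.card = r → f Z = c) (t : ℕ) :
    ∀ m : ℕ, ∃ M : ℕ, ∀ X : Finset ℕ, M ≤ X.card → ∀ f : Finset ℕ → κ,
      ∃ (S T : Finset ℕ) (c : ℕ → κ), S ⊆ X ∧ T ⊆ X ∧ S.card = t ∧ m ≤ T.card ∧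
        (∀ x ∈ S, ∀ y ∈ T, x < y) ∧
        ∀ x ∈ S, ∀ Z, Z ⊆ S ∪ T → (∀ y ∈ Z, x < y) → Z.card = r → f (insert x Z) = c x := by
  induction t with
  | zero =>
    intro m
    refine ⟨m, fun X hX f => ⟨∅, X, fun _ => f ∅, by simp, subset_rfl, rfl, hX, ?_, ?_⟩⟩
    · intro x hx; simp at hx
    · intro x hx; simp at hx
  | succ t iht =>
    intro m
    obtain ⟨M₁, hM₁⟩ := ih m
    obtain ⟨M₂, hM₂⟩ := iht (M₁ + 1)
    refine ⟨M₂, fun X hX f => ?_⟩
    obtain ⟨S, T, c, hSX, hTX, hSc, hTc, hlt, hhom⟩ := hM₂ X hX f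
    have hTne : T.Nonempty := Finset.card_pos.mp (by omega)
    set x₀ := T.min' hTne with hx₀
    have hx₀T : x₀ ∈ T := Finset.min'_mem T hTne
    have hT' : M₁ ≤ (T.erase x₀).card := by
      rw [Finset.card_erase_of_mem hx₀T]; omega
    obtain ⟨Y, hYT, hYc, c₀, hY⟩ := hM₁ (T.erase x₀) hT' (fun Z => f (insert x₀ Z))
    have hYT' : Y ⊆ T := hYT.trans (Finset.erase_subset _ _)
    have hx₀Y : ∀ y ∈ Y, x₀ < y := by
      intro y hy
      have h1 := Finset.mem_erase.mp (hYT hy)
      exact lt_of_le_of_ne (Finset.min'_le T y h1.2) (Ne.symm h1.1)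
    have hx₀S : x₀ ∉ S := fun h => lt_irrefl _ (hlt x₀ h x₀ hx₀T)
    refine ⟨insert x₀ S, Y, fun x => if x = x₀ then c₀ else c x, ?_, hYT'.trans hTX, ?_,
      hYc.ge, ?_, ?_⟩
    · intro x hx
      rcases Finset.mem_insert.mp hx with rfl | hx
      · exact hTX hx₀T
      · exact hSX hx
    · rw [Finset.card_insert_of_notMem hx₀S, hSc]
    · intro x hx y hy
      rcases Finset.mem_insert.mp hx with rfl | hx
      · exact hx₀Y y hy
      · exact hlt x hx y (hYT' hy)
    · intro x hx Z hZ hZx hZc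
      by_cases hxx : x = x₀
      · subst hxx
        show f (insert x₀ Z) = if x₀ = x₀ then c₀ else c x₀
        rw [if_pos rfl]
        apply hY Z _ hZc
        intro z hz
        rcases Finset.mem_union.mp (hZ hz) with h | h
        · exfalso
          have h1 := hZx z hz
          rcases Finset.mem_insert.mp h with h2 | h2
          · omega
          · have h3 := hlt z h2 _ hx₀T
            omega
        · exact h
      · have hxS : x ∈ S := by
          rcases Finset.mem_insert.mp hx with h | h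
          · exact absurd h hxx
          · exact h
        show f (insert x Z) = if x = x₀ then c₀ else c x
        rw [if_neg hxx]
        apply hhom x hxS Z _ hZx hZc
        intro z hz
        rcases Finset.mem_union.mp (hZ hz) with h | h
        · rcases Finset.mem_insert.mp h with h2 | h2
          · rw [h2]; exact Finset.mem_union_right _ hx₀T
          · exact Finset.mem_union_left _ h2
        · exact Finset.mem_union_right _ (hYT' h)

/-- Finite Ramsey theorem: for all `r`, `m` and every finite set of colours there is `M` such that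
for each set `X` of at least `M` natural numbers and each colouring of finite sets, some
`m`-element subset `Y` of `X` has all its `r`-element subsets of the same colour. -/
theorem ramsey_finset (r m : ℕ) {κ : Type} [Finite κ] :
    ∃ M : ℕ, ∀ X : Finset ℕ, M ≤ X.card → ∀ f : Finset ℕ → κ,
      ∃ Y, Y ⊆ X ∧ Y.card = m ∧ ∃ c, ∀ Z, Z ⊆ Y → Z.card = r → f Z = c := by
  classical
  have : Fintype κ := Fintype.ofFinite κ
  induction r generalizing m with
  | zero =>
    refine ⟨m, fun X hX f => ?_⟩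
    obtain ⟨Y, hYX, hY⟩ := Finset.exists_subset_card_eq hX
    refine ⟨Y, hYX, hY, f ∅, fun Z _ hZ => ?_⟩
    rw [Finset.card_eq_zero.mp hZ]
  | succ r ih =>
    obtain ⟨M, hM⟩ := ramsey_end_homogeneous r (κ := κ) (fun m => ih m)
      (Fintype.card κ * m) 0
    refine ⟨M, fun X hX f => ?_⟩
    obtain ⟨S, T, c, hSX, hTX, hSc, -, hlt, hhom⟩ := hM X hX f
    have hne : (Finset.univ : Finset κ).Nonempty := ⟨f ∅, Finset.mem_univ _⟩
    obtain ⟨c₀, -, hc₀⟩ := Finset.exists_le_card_fiber_of_mul_le_card_of_maps_to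
      (s := S) (t := (Finset.univ : Finset κ)) (f := c) (n := m)
      (fun a _ => Finset.mem_univ _) hne (by rw [Finset.card_univ, hSc])
    obtain ⟨Y, hYS, hY⟩ := Finset.exists_subset_card_eq hc₀
    have hYS' : Y ⊆ S := hYS.trans (Finset.filter_subset _ _)
    refine ⟨Y, hYS'.trans hSX, hY, c₀, fun Z hZY hZ => ?_⟩
    have hZne : Z.Nonempty := Finset.card_pos.mp (by omega)
    set x := Z.min' hZne with hx
    have hxZ : x ∈ Z := Finset.min'_mem Z hZne
    have h1 : c x = c₀ := (Finset.mem_filter.mp (hYS (hZY hxZ))).2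
    rw [← h1, ← Finset.insert_erase hxZ]
    apply hhom x (hYS' (hZY hxZ)) (Z.erase x)
    · intro z hz
      exact Finset.mem_union_left _ (hYS' (hZY (Finset.mem_of_mem_erase hz)))
    · intro z hz
      have h2 := Finset.mem_erase.mp hz
      exact lt_of_le_of_ne (Finset.min'_le Z z h2.2) (Ne.symm h2.1)
    · rw [Finset.card_erase_of_mem hxZ, hZ]; rfl

end Pool.Agent.Lib.MP_c27c22_co
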