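import Pool.Agent.Lib.MP_c27c22_co.GP

/-!
# The certificate checker

A *variable* is a list of naturals: a word of length 5 (the sign of a pattern) or a list
`Q ++ α ++ [i, j]` of length 12 (the comparison of two Grassmann–Plücker monomials).
A *clause* is a list of literals together with a certificate.  A certificate consists of a word
`W` of length 8 and a list of inequalities between monomials whose product is absurd.
-/

set_option autoImplicit false

namespace Pool.Agent.Lib.MP_c27c22_co

/-- truth value of a variable -/
def val (χ : List ℕ → Prop) (κ : List ℕ → List ℕ → ℕ → ℕ → Prop) (key : List ℕ) : Prop :=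
  if key.length = 5 then χ key
  else κ (key.take 7) ((key.drop 7).take 3) (key.getD 10 0) (key.getD 11 0)

/-- lookup -/
def look (key : List ℕ) : List (List ℕ × Bool) → Option Bool
  | [] => none
  | (k, b) :: l => if k = key then some b else look key l

/-- pattern of the positions `P ⊆ {0,…,6}` in the word `W` without position `o` -/
def pat (W : List ℕ) (o : ℕ) (P : List ℕ) : List ℕ := P.map fun d ↦ W.getD (skip o d) 0

/-- parity of the number of negative patterns, with cancellation of equal unknown patterns -/
def par (items : List (List ℕ × Bool)) : ℕ → List (List ℕ) → Option Bool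
  | _, [] => some false
  | 0, _ :: _ => none
  | n + 1, π :: rest =>
    match look π items with
    | some b => (par items n rest).map fun c ↦ xor (!b) c
    | none => if π ∈ rest then par items n (rest.erase π) else none

/-- an inequality: kind (`true` = strict, from signs), omitted position, `α`, small, big -/
structure Ent where
  s : Bool
  o : ℕ
  a : ℕ
  lo : ℕ
  hi : ℕ

/-- decode an inequality from a number -/
def dec (e : ℕ) : Ent :=
  ⟨e % 2 == 1, e / 2 % 8, e / 16 % 35, e / 560 % 3, e / 1680 % 3⟩

/-- the `α` of an inequality -/
def Ent.α (e : Ent) : List ℕ := alphas.getD e.a [0, 1, 2]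

/-- check an inequality -/
def Ent.ok (items : List (List ℕ × Bool)) (W : List ℕ) (e : Ent) : Bool :=
  e.lo != e.hi &&
  if e.s then
    match par items 4 [pat W e.o (tl e.α e.lo), pat W e.o (tr e.α e.lo),
      pat W e.o (tl e.α (3 - e.lo - e.hi)), pat W e.o (tr e.α (3 - e.lo - e.hi))] with
    | none => false
    | some c => c == !(e.hi == 1)
  else
    (look (W.eraseIdx e.o ++ e.α ++ [e.lo, e.hi]) items == some true) ||
    (look (W.eraseIdx e.o ++ e.α ++ [e.hi, e.lo]) items == some false)

/-- the two small brackets -/
def Ent.small (e : Ent) : List (List ℕ) :=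
  [(tl e.α e.lo).map (skip e.o), (tr e.α e.lo).map (skip e.o)]

/-- the two big brackets -/
def Ent.big (e : Ent) : List (List ℕ) :=
  [(tl e.α e.hi).map (skip e.o), (tr e.α e.hi).map (skip e.o)]

/-- check a certificate -/
def lpOK (items : List (List ℕ × Bool)) (W : List ℕ) (es : List ℕ) : Bool :=
  let E := es.map dec
  W.length == 8 && W.all (fun i ↦ Nat.blt i 3) && E.all (Ent.ok items W) && E.any Ent.s &&
    (E.flatMap Ent.small).isPerm (E.flatMap Ent.big)

/-- certificates -/
inductive Cert where
  | fix : Cert
  | red : ℕ → ℕ → Cert
  | lp : List ℕ → List ℕ → Cert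

/-- check a clause: `keys` lists the variables, the literals are pairs (index, value) -/
def clauseOK (keys : List (List ℕ)) (c : List (ℕ × Bool) × Cert) : Bool :=
  let items := c.1.map fun l ↦ (keys.getD l.1 [], !l.2)
  match c.2 with
  | .fix => look [0, 1, 2, 0, 1] items == some false
  | .red q j => 
    let w := redWords.getD q [0,1,0,2,1,0]
    Nat.blt j 5 && 
    match look (w.eraseIdx j) items, look (w.eraseIdx (j + 1)) items with
    | some b, some b' => b == b'
    | _, _ => false
  | .lp W es => lpOK items W es

/-- refutation trees -/
inductive Tr where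
  | confl : ℕ → Tr
  | unit : ℕ → ℕ → Bool → Tr → Tr
  | split : ℕ → Tr → Tr → Tr

/-- the literal is false under the partial assignment (`T` true variables, `F` false variables) -/
def litF (T F : ℕ) (l : ℕ × Bool) : Bool := if l.2 then F.testBit l.1 else T.testBit l.1

/-- set a variable -/
def setT (v : ℕ) (b : Bool) (T : ℕ) : ℕ := if b then T ||| (1 <<< v) else T
/-- set a variable -/
def setF (v : ℕ) (b : Bool) (F : ℕ) : ℕ := if b then F else F ||| (1 <<< v)

/-- check a refutation tree -/
def walk (cls : List (List (ℕ × Bool) × Cert)) : Tr → ℕ → ℕ → Bool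
  | .confl c, T, F =>
    match cls[c]? with
    | none => false
    | some c => c.1.all (litF T F)
  | .unit c v b t, T, F =>
    match cls[c]? with
    | none => false
    | some c => (c.1.all fun l ↦ (l.1 == v && l.2 == b) || litF T F l) &&
      walk cls t (setT v b T) (setF v b F)
  | .split v t t', T, F =>
    walk cls t (setT v true T) (setF v true F) && walk cls t' (setT v false T) (setF v false F)

end Pool.Agent.Lib.MP_c27c22_co
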