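import Pool.Agent.Lib.MP_c27c22_co.Defs

/-!
# The `(k+1)`-crossings of the `(2k+4)`-gon
-/

set_option autoImplicit false

namespace Pool.Agent.Lib.MP_c27c22_co

theorem hit_zero (k b u v : ℕ) : hit k 0 b u v ↔
    (u ≤ b ∨ b + k + 2 < u) ∧ (v ≤ b ∨ b + k + 2 < v) := by
  simp [hit]

theorem hit_one (k b u v : ℕ) : hit k 1 b u v ↔
    (u < b ∧ b < v ∧ v < b + k + 2) ∨ (b < u ∧ u < b + k + 2 ∧ b + k + 2 < v) := by
  simp [hit]

theorem hit_two (k b u v : ℕ) : hit k 2 b u v ↔ b + 1 ≤ u ∧ v ≤ b + k + 2 := by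
  simp [hit]

theorem e1_zero (b : ℕ) : e1 0 b = b + 1 := rfl
theorem e1_one (b : ℕ) : e1 1 b = b := rfl
theorem e1_two (b : ℕ) : e1 2 b = b := rfl
theorem e2_zero (k b : ℕ) : e2 k 0 b = b + k + 2 := rfl
theorem e2_one (k b : ℕ) : e2 k 1 b = b + k + 2 := rfl
theorem e2_two (k b : ℕ) : e2 k 2 b = b + k + 3 := rfl

/-- endpoints of crossing edges -/
theorem Cross.ne {n : ℕ} {e f : Fin n × Fin n} (h : Cross e f) :
    e.1 ≠ f.1 ∧ e.1 ≠ f.2 ∧ e.2 ≠ f.1 ∧ e.2 ≠ f.2 := by
  simp only [Cross, Fin.lt_def] at h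
  refine ⟨?_, ?_, ?_, ?_⟩ <;> · intro h'; rw [Fin.ext_iff] at h'; omega

/-- exactly one end of a crossing edge lies inside -/
theorem Cross.inside {n : ℕ} {e f : Fin n × Fin n} (h : Cross e f) :
    ((e.1 < f.1 ∧ f.1 < e.2) ∧ ¬ (e.1 < f.2 ∧ f.2 < e.2)) ∨
      (¬ (e.1 < f.1 ∧ f.1 < e.2) ∧ (e.1 < f.2 ∧ f.2 < e.2)) := by
  simp only [Cross, Fin.lt_def] at h ⊢
  omega

/-- the vertices of the edges of `T` -/
def verts {n : ℕ} (T : Finset (Fin n × Fin n)) : Finset (Fin n) :=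
  T.image Prod.fst ∪ T.image Prod.snd

theorem mem_verts {n : ℕ} {T : Finset (Fin n × Fin n)} {x : Fin n} :
    x ∈ verts T ↔ ∃ e ∈ T, e.1 = x ∨ e.2 = x := by
  simp only [verts, Finset.mem_union, Finset.mem_image]
  constructor
  · rintro (⟨e, he, rfl⟩ | ⟨e, he, rfl⟩)
    · exact ⟨e, he, Or.inl rfl⟩
    · exact ⟨e, he, Or.inr rfl⟩
  · rintro ⟨e, he, h | h⟩
    · exact Or.inl ⟨e, he, h⟩
    · exact Or.inr ⟨e, he, h⟩

theorem card_verts {n : ℕ} (T : Finset (Fin n × Fin n)) (hl : ∀ e ∈ T, e.1 < e.2)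
    (hx : ∀ e ∈ T, ∀ f ∈ T, e ≠ f → Cross e f) : (verts T).card = 2 * T.card := by
  rw [verts, Finset.card_union_of_disjoint, Finset.card_image_of_injOn,
    Finset.card_image_of_injOn]
  · omega
  · intro e he f hf hef
    by_contra hne
    exact (hx e he f hf hne).ne.2.2.2 hef
  · intro e he f hf hef
    by_contra hne
    exact (hx e he f hf hne).ne.1 hef
  · rw [Finset.disjoint_left]
    intro x hx1 hx2
    obtain ⟨e, he, rfl⟩ := Finset.mem_image.mp hx1
    obtain ⟨f, hf, hef⟩ := Finset.mem_image.mp hx2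
    by_cases hne : e = f
    · subst hne
      have := hl e he
      rw [hef] at this
      exact lt_irrefl _ this
    · exact (hx e he f hf hne).ne.2.1 hef.symm

/-- the number of vertices of `T` inside an edge of `T` -/
theorem card_inside {n : ℕ} (T : Finset (Fin n × Fin n))
    (hx : ∀ e ∈ T, ∀ f ∈ T, e ≠ f → Cross e f) (e : Fin n × Fin n) (he : e ∈ T) :
    ((verts T).filter fun x ↦ e.1 < x ∧ x < e.2).card = T.card - 1 := by
  rw [← Finset.card_erase_of_mem he]
  symm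
  refine Finset.card_bij (fun f _ ↦ if e.1 < f.1 ∧ f.1 < e.2 then f.1 else f.2) ?_ ?_ ?_
  · intro f hf
    obtain ⟨hfe, hf⟩ := Finset.mem_erase.mp hf
    have hc := hx e he f hf (Ne.symm hfe)
    rw [Finset.mem_filter]
    split_ifs with h
    · exact ⟨mem_verts.mpr ⟨f, hf, Or.inl rfl⟩, h⟩
    · refine ⟨mem_verts.mpr ⟨f, hf, Or.inr rfl⟩, ?_⟩
      rcases hc.inside with h1 | h1
      · exact absurd h1.1 h
      · exact h1.2
  · intro f hf g hg hfg
    obtain ⟨hfe, hf⟩ := Finset.mem_erase.mp hf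
    obtain ⟨hge, hg⟩ := Finset.mem_erase.mp hg
    by_contra hne
    have hc := (hx f hf g hg hne).ne
    split_ifs at hfg
    · exact hc.1 hfg
    · exact hc.2.1 hfg
    · exact hc.2.2.1 hfg
    · exact hc.2.2.2 hfg
  · intro x hx'
    obtain ⟨h1, h2⟩ := Finset.mem_filter.mp hx'
    obtain ⟨f, hf, hfx⟩ := mem_verts.mp h1
    have hfe : f ≠ e := by
      rintro rfl
      rcases hfx with rfl | rfl
      · exact lt_irrefl _ h2.1
      · exact lt_irrefl _ h2.2
    refine ⟨f, Finset.mem_erase.mpr ⟨hfe, hf⟩, ?_⟩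
    rcases hfx with rfl | rfl
    · rw [if_pos h2]
    · rcases (hx e he f hf (Ne.symm hfe)).inside with h3 | h3
      · exact absurd h2 h3.2
      · rw [if_neg h3.1]

/-- The position equation of an edge. -/
theorem length_eq {n : ℕ} (T : Finset (Fin n × Fin n))
    (hx : ∀ e ∈ T, ∀ f ∈ T, e ≠ f → Cross e f) {u v : Fin n} (huv : u < v)
    (hV : (verts T)ᶜ = {u, v}) (e : Fin n × Fin n) (he : e ∈ T) :
    (e.2 : ℕ) - e.1 - 1 = T.card - 1 + (if e.1 < u ∧ u < e.2 then 1 else 0) +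
      (if e.1 < v ∧ v < e.2 then 1 else 0) := by
  have h1 : ((Finset.univ : Finset (Fin n)).filter fun x ↦ e.1 < x ∧ x < e.2).card =
      (e.2 : ℕ) - e.1 - 1 := by
    have : ((Finset.univ : Finset (Fin n)).filter fun x ↦ e.1 < x ∧ x < e.2) =
        Finset.Ioo e.1 e.2 := by
      ext x
      simp
    rw [this, Fin.card_Ioo]
  have h2 : (Finset.univ : Finset (Fin n)) = verts T ∪ {u, v} := by
    rw [← hV, Finset.union_compl]
  have h3 : Disjoint ((verts T).filter fun x ↦ e.1 < x ∧ x < e.2)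
      (({u, v} : Finset (Fin n)).filter fun x ↦ e.1 < x ∧ x < e.2) := by
    refine Finset.disjoint_filter_filter ?_
    rw [← hV]
    exact disjoint_compl_right
  have h4 : (({u, v} : Finset (Fin n)).filter fun x ↦ e.1 < x ∧ x < e.2).card =
      (if e.1 < u ∧ u < e.2 then 1 else 0) + (if e.1 < v ∧ v < e.2 then 1 else 0) := by
    rw [Finset.card_filter, Finset.sum_pair huv.ne]
  rw [← h1, h2, Finset.filter_union, Finset.card_union_of_disjoint h3, card_inside T hx e he, h4,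
    add_assoc]

/-- A set `T` of `k+1` pairwise crossing edges of the `(2k+4)`-gon omits exactly two vertices
`u < v`, and it contains every edge that is hit by `u, v`. -/
theorem clique_omits (k : ℕ) (T : Finset (Fin (2 * k + 4) × Fin (2 * k + 4)))
    (hT : ∀ e ∈ T, Rel (2 * k + 4) k e) (hc : T.card = k + 1)
    (hx : ∀ e ∈ T, ∀ f ∈ T, e ≠ f → Cross e f) :
    ∃ u v, u < v ∧ v < 2 * k + 4 ∧ ∀ b i, b ≤ k → i < 3 → hit k i b u v →
      ∃ e ∈ T, (e.1 : ℕ) = e1 i b ∧ (e.2 : ℕ) = e2 k i b := by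
  have hl : ∀ e ∈ T, e.1 < e.2 := fun e he ↦ (hT e he).1
  have hcv := card_verts T hl hx
  have hcc : ((verts T)ᶜ).card = 2 := by
    rw [Finset.card_compl, Fintype.card_fin, hcv, hc]
    omega
  obtain ⟨u', v', huv', hV'⟩ := Finset.card_eq_two.mp hcc
  obtain ⟨u, v, huv, hV⟩ : ∃ u v : Fin (2 * k + 4), u < v ∧ (verts T)ᶜ = {u, v} := by
    rcases lt_or_gt_of_ne huv' with h | h
    · exact ⟨u', v', h, hV'⟩
    · exact ⟨v', u', h, by rw [hV', Finset.pair_comm]⟩
  have hmem : ∀ x : Fin (2 * k + 4), x ≠ u → x ≠ v → ∃ e ∈ T, e.1 = x ∨ e.2 = x := by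
    intro x h1 h2
    rw [← mem_verts]
    by_contra h3
    have h4 : x ∈ (verts T)ᶜ := Finset.mem_compl.mpr h3
    rw [hV, Finset.mem_insert, Finset.mem_singleton] at h4
    exact h4.elim h1 h2
  have hnot : ∀ e ∈ T, e.1 ≠ u ∧ e.1 ≠ v ∧ e.2 ≠ u ∧ e.2 ≠ v := by
    intro e he
    have h1 : u ∉ verts T := by
      rw [← Finset.mem_compl, hV]; simp
    have h2 : v ∉ verts T := by
      rw [← Finset.mem_compl, hV]; simp
    refine ⟨?_, ?_, ?_, ?_⟩ <;> intro h
    · exact h1 (mem_verts.mpr ⟨e, he, Or.inl h⟩)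
    · exact h2 (mem_verts.mpr ⟨e, he, Or.inl h⟩)
    · exact h1 (mem_verts.mpr ⟨e, he, Or.inr h⟩)
    · exact h2 (mem_verts.mpr ⟨e, he, Or.inr h⟩)
  refine ⟨u, v, huv, v.2, ?_⟩
  intro b i hb hi hh
  have huv2 : (u : ℕ) < v := huv
  have hv2 := v.2
  have hx1 : e1 i b < 2 * k + 4 := by
    simp only [e1]; split_ifs <;> omega
  have hxuv : e1 i b ≠ u ∧ e1 i b ≠ v := by
    interval_cases i
    · rw [hit_zero] at hh; rw [e1_zero]; omega
    · rw [hit_one] at hh; rw [e1_one]; omega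
    · rw [hit_two] at hh; rw [e1_two]; omega
  obtain ⟨hxu, hxv⟩ := hxuv
  obtain ⟨e, he, hex⟩ := hmem ⟨e1 i b, hx1⟩ (by rw [Ne, Fin.ext_iff]; exact hxu)
    (by rw [Ne, Fin.ext_iff]; exact hxv)
  have hlen := length_eq T hx huv hV e he
  have hl' : (e.1 : ℕ) < e.2 := hl e he
  have hn := hnot e he
  simp only [Ne, Fin.ext_iff] at hn
  simp only [Fin.lt_def, hc, Nat.add_sub_cancel] at hlen
  refine ⟨e, he, ?_⟩
  have hex' : (e.1 : ℕ) = e1 i b ∨ (e.2 : ℕ) = e1 i b := by
    rcases hex with h | h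
    · exact Or.inl (by rw [h])
    · exact Or.inr (by rw [h])
  clear hex
  interval_cases i
  · rw [hit_zero] at hh
    rw [e1_zero] at hex' ⊢
    rw [e2_zero]
    split_ifs at hlen <;> omega
  · rw [hit_one] at hh
    rw [e1_one] at hex' ⊢
    rw [e2_one]
    split_ifs at hlen <;> omega
  · rw [hit_two] at hh
    rw [e1_two] at hex' ⊢
    rw [e2_two]
    split_ifs at hlen <;> omega

/-- the `j`-th vertex different from `u < v` -/
def wv (u v j : ℕ) : ℕ := if j < u then j else if j + 1 < v then j + 1 else j + 2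

set_option linter.unusedVariables false in
/-- For `u < v < 2k+4` there is a set of `k+1` pairwise crossing relevant edges whose letters are
all hit by `u, v` (the set of edges joining opposite vertices after removing `u` and `v`). -/
theorem clique_exists (k u v : ℕ) (huv : u < v) (hv : v < 2 * k + 4) :
    ∃ T : Finset (Fin (2 * k + 4) × Fin (2 * k + 4)), T.card = k + 1 ∧
      (∀ e ∈ T, Rel (2 * k + 4) k e) ∧ (∀ e ∈ T, ∀ f ∈ T, e ≠ f → Cross e f) ∧
      ∀ e ∈ T, ∀ b i, b ≤ k → i < 3 → (e.1 : ℕ) = e1 i b → (e.2 : ℕ) = e2 k i b →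
        hit k i b u v := by
  have hw : ∀ j, j ≤ 2 * k + 1 → wv u v j < 2 * k + 4 := by
    intro j hj
    simp only [wv]
    split_ifs <;> omega
  have hmono : ∀ i j, i < j → wv u v i < wv u v j := by
    intro i j hij
    simp only [wv]
    split_ifs <;> omega
  let g : Fin (k + 1) → Fin (2 * k + 4) × Fin (2 * k + 4) := fun j ↦
    (⟨wv u v j, hw j (by omega)⟩, ⟨wv u v (j + k + 1), hw _ (by omega)⟩)
  have hinj : Function.Injective g := by
    intro i j hij
    have h1 : wv u v i = wv u v j := by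
      have := congrArg (fun p ↦ (p.1 : ℕ)) hij
      exact this
    rcases lt_trichotomy (i : ℕ) j with h | h | h
    · exact absurd h1 (hmono _ _ h).ne
    · exact Fin.ext h
    · exact absurd h1 (hmono _ _ h).ne'
  have hcross : ∀ i j : Fin (k + 1), i < j → Cross (g i) (g j) := by
    intro i j hij
    left
    simp only [Fin.lt_def]
    have hij' : (i : ℕ) < j := hij
    have hj := j.2
    exact ⟨hmono _ _ hij', hmono _ _ (by omega), hmono _ _ (by omega)⟩
  refine ⟨Finset.univ.image g, ?_, ?_, ?_, ?_⟩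
  · rw [Finset.card_image_of_injective _ hinj, Finset.card_univ, Fintype.card_fin]
  · intro e he
    obtain ⟨j, -, rfl⟩ := Finset.mem_image.mp he
    simp only [Rel, Fin.lt_def, g, wv]
    split_ifs <;> omega
  · intro e he f hf hef
    obtain ⟨i, -, rfl⟩ := Finset.mem_image.mp he
    obtain ⟨j, -, rfl⟩ := Finset.mem_image.mp hf
    rcases lt_trichotomy i j with h | h | h
    · exact hcross i j h
    · exact absurd (by rw [h]) hef
    · rcases hcross j i h with h1 | h1
      · exact Or.inr h1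
      · exact Or.inl h1
  · intro e he b i hb hi h1 h2
    obtain ⟨j, -, rfl⟩ := Finset.mem_image.mp he
    have hj := j.2
    simp only [g, wv] at h1 h2
    interval_cases i
    · rw [hit_zero]
      rw [e1_zero] at h1
      rw [e2_zero] at h2
      split_ifs at h1 h2 <;> omega
    · rw [hit_one]
      rw [e1_one] at h1
      rw [e2_one] at h2
      split_ifs at h1 h2 <;> omega
    · rw [hit_two]
      rw [e1_two] at h1
      rw [e2_two] at h2
      split_ifs at h1 h2 <;> omega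

end Pool.Agent.Lib.MP_c27c22_co
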