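import Mathlib

/-!
# Perturbing finitely many vectors of `ℝ^5` into general position
-/

set_option autoImplicit false

namespace Pool.Agent.Lib.MP_c27c22_co

open Filter Topology Polynomial

private theorem pert_cont {ι : Type} (x w : ι → Fin 5 → ℝ) (s : Fin 5 → ι) :
    Continuous fun t : ℝ ↦ Matrix.det (Matrix.of fun r ↦ (fun j ↦ x (s r) j + t * w (s r) j)) := by
  apply Continuous.matrix_det
  apply continuous_matrix
  intro i j
  simp only [Matrix.of_apply]
  fun_prop

private theorem pert_cont' {ι : Type} (x w : ι → Fin 5 → ℝ) (s : Fin 5 → ι) :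
    Continuous fun t : ℝ ↦ Matrix.det (Matrix.of fun r ↦ (fun j ↦ t * x (s r) j + w (s r) j)) := by
  apply Continuous.matrix_det
  apply continuous_matrix
  intro i j
  simp only [Matrix.of_apply]
  fun_prop

private theorem pert_eval {ι : Type} (x w : ι → Fin 5 → ℝ) (s : Fin 5 → ι) (P : ℝ[X])
    (hPdef : P = Matrix.det (Matrix.of fun r j ↦ (C (x (s r) j) + X * C (w (s r) j) : ℝ[X])))
    (t : ℝ) : P.eval t =
      Matrix.det (Matrix.of fun r ↦ (fun j ↦ x (s r) j + t * w (s r) j)) := by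
  have h := RingHom.map_det (Polynomial.evalRingHom t)
    (Matrix.of fun r j ↦ (C (x (s r) j) + X * C (w (s r) j) : ℝ[X]))
  rw [← hPdef, Polynomial.coe_evalRingHom] at h
  rw [h]
  congr 1
  ext i j
  simp only [RingHom.mapMatrix_apply, Matrix.map_apply, Matrix.of_apply,
    Polynomial.coe_evalRingHom, eval_add, eval_C, eval_mul, eval_X]

private theorem pert_rev {ι : Type} (x w : ι → Fin 5 → ℝ) (s : Fin 5 → ι) (u : ℝ) (hu : u ≠ 0) :
    Matrix.det (Matrix.of fun r ↦ (fun j ↦ u * x (s r) j + w (s r) j)) =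
      u ^ 5 * Matrix.det (Matrix.of fun r ↦ (fun j ↦ x (s r) j + u⁻¹ * w (s r) j)) := by
  have h1 : (Matrix.of fun r ↦ (fun j ↦ u * x (s r) j + w (s r) j)) =
      u • (Matrix.of fun r ↦ (fun j ↦ x (s r) j + u⁻¹ * w (s r) j) :
        Matrix (Fin 5) (Fin 5) ℝ) := by
    ext i j
    simp only [Matrix.of_apply, Matrix.smul_apply, smul_eq_mul]
    field_simp
  rw [h1, Matrix.det_smul, Fintype.card_fin]

/-- if `det W ≠ 0` then `det (X + t W) ≠ 0` for all small `t ≠ 0` -/
private theorem pert_ev {ι : Type} (x w : ι → Fin 5 → ℝ) (s : Fin 5 → ι)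
    (hw : Matrix.det (Matrix.of fun r ↦ w (s r)) ≠ 0) :
    ∀ᶠ t : ℝ in 𝓝[>] 0,
      Matrix.det (Matrix.of fun r ↦ (fun j ↦ x (s r) j + t * w (s r) j)) ≠ 0 := by
  obtain ⟨P, hPdef⟩ := exists_eq (a' :=
      Matrix.det (Matrix.of fun r j ↦ (C (x (s r) j) + X * C (w (s r) j) : ℝ[X])))
  have hP := pert_eval x w s P hPdef
  have hP0 : P ≠ 0 := by
    intro h0
    have hc := pert_cont' x w s
    have hlim := (hc.tendsto 0).mono_left (nhdsWithin_le_nhds (s := ({0}ᶜ : Set ℝ)))
    have hlim0 : Tendsto (fun u : ℝ ↦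
        Matrix.det (Matrix.of fun r ↦ (fun j ↦ u * x (s r) j + w (s r) j))) (𝓝[≠] 0)
        (𝓝 0) := by
      apply tendsto_const_nhds.congr'
      filter_upwards [self_mem_nhdsWithin] with u hu
      have h1 := pert_rev x w s u hu
      have h2 := hP u⁻¹
      rw [h0, Polynomial.eval_zero] at h2
      rw [← h2, mul_zero] at h1
      exact h1.symm
    have h2 := tendsto_nhds_unique hlim hlim0
    apply hw
    have h3 : (Matrix.of fun r ↦ w (s r)) =
        (Matrix.of fun r ↦ (fun j ↦ (0 : ℝ) * x (s r) j + w (s r) j)) := by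
      ext i j
      simp only [Matrix.of_apply, zero_mul, zero_add]
    rw [h3]
    convert h2 using 1
  have hfin : {t : ℝ | P.IsRoot t}.Finite := Polynomial.finite_setOfPred_isRoot hP0
  have hcl : IsClosed ({t : ℝ | P.IsRoot t} \ {0}) := (hfin.subset Set.sdiff_subset).isClosed
  have hmem : ({t : ℝ | P.IsRoot t} \ {0})ᶜ ∈ 𝓝 (0 : ℝ) :=
    hcl.isOpen_compl.mem_nhds (by simp)
  have hmem' : ({t : ℝ | P.IsRoot t} \ {0})ᶜ ∈ 𝓝[>] (0 : ℝ) := nhdsWithin_le_nhds hmem
  filter_upwards [hmem', self_mem_nhdsWithin] with t ht ht0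
  rw [← hP]
  intro h
  exact ht ⟨h, ne_of_gt ht0⟩

/-- Finitely many vectors of `ℝ^5` can be moved so that all determinants of five distinct ones are
nonzero and the determinants that were positive stay positive, those that were negative stay
negative. -/
theorem perturb {ι : Type} [Fintype ι] (x : ι → Fin 5 → ℝ) :
    ∃ y : ι → Fin 5 → ℝ,
      (∀ s : Fin 5 → ι, Function.Injective s →
        Matrix.det (Matrix.of fun r ↦ y (s r)) ≠ 0) ∧
      (∀ s : Fin 5 → ι, 0 < Matrix.det (Matrix.of fun r ↦ x (s r)) →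
        0 < Matrix.det (Matrix.of fun r ↦ y (s r))) ∧
      (∀ s : Fin 5 → ι, Matrix.det (Matrix.of fun r ↦ x (s r)) < 0 →
        Matrix.det (Matrix.of fun r ↦ y (s r)) < 0) := by
  classical
  let a : ι → ℝ := fun i ↦ ((Fintype.equivFin ι i : Fin (Fintype.card ι)) : ℕ)
  have ha : Function.Injective a := by
    intro i j hij
    have h1 : ((Fintype.equivFin ι i : Fin (Fintype.card ι)) : ℕ) =
        ((Fintype.equivFin ι j : Fin (Fintype.card ι)) : ℕ) := by
      have : (((Fintype.equivFin ι i : Fin (Fintype.card ι)) : ℕ) : ℝ) =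
        (((Fintype.equivFin ι j : Fin (Fintype.card ι)) : ℕ) : ℝ) := hij
      exact_mod_cast this
    exact (Fintype.equivFin ι).injective (Fin.ext h1)
  let w : ι → Fin 5 → ℝ := fun i j ↦ a i ^ (j : ℕ)
  have hw : ∀ s : Fin 5 → ι, Function.Injective s →
      Matrix.det (Matrix.of fun r ↦ w (s r)) ≠ 0 := by
    intro s hs
    have h1 : (Matrix.of fun r ↦ w (s r)) = Matrix.vandermonde (fun r ↦ a (s r)) := by
      ext i j
      simp [w, Matrix.vandermonde_apply]
    rw [h1]
    exact Matrix.det_vandermonde_ne_zero_iff.mpr (ha.comp hs)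
  have e1 : ∀ᶠ t : ℝ in 𝓝[>] 0, ∀ s : Fin 5 → ι, Function.Injective s →
      Matrix.det (Matrix.of fun r ↦ (fun j ↦ x (s r) j + t * w (s r) j)) ≠ 0 := by
    rw [Filter.eventually_all]
    intro s
    by_cases hs : Function.Injective s
    · filter_upwards [pert_ev x w s (hw s hs)] with t ht _
      exact ht
    · exact Filter.Eventually.of_forall fun t h ↦ absurd h hs
  have hzero : ∀ s : Fin 5 → ι,
      Matrix.det (Matrix.of fun r ↦ (fun j ↦ x (s r) j + (0 : ℝ) * w (s r) j)) =
        Matrix.det (Matrix.of fun r ↦ x (s r)) := by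
    intro s
    congr 1
    ext i j
    simp
  have e2 : ∀ᶠ t : ℝ in 𝓝[>] 0, ∀ s : Fin 5 → ι,
      0 < Matrix.det (Matrix.of fun r ↦ x (s r)) →
      0 < Matrix.det (Matrix.of fun r ↦ (fun j ↦ x (s r) j + t * w (s r) j)) := by
    rw [Filter.eventually_all]
    intro s
    by_cases hs : 0 < Matrix.det (Matrix.of fun r ↦ x (s r))
    · have hc := (pert_cont x w s).tendsto 0
      rw [hzero] at hc
      have := (hc.mono_left (nhdsWithin_le_nhds (s := Set.Ioi (0 : ℝ)))).eventually_const_lt hs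
      filter_upwards [this] with t ht _
      exact ht
    · exact Filter.Eventually.of_forall fun t h ↦ absurd h hs
  have e3 : ∀ᶠ t : ℝ in 𝓝[>] 0, ∀ s : Fin 5 → ι,
      Matrix.det (Matrix.of fun r ↦ x (s r)) < 0 →
      Matrix.det (Matrix.of fun r ↦ (fun j ↦ x (s r) j + t * w (s r) j)) < 0 := by
    rw [Filter.eventually_all]
    intro s
    by_cases hs : Matrix.det (Matrix.of fun r ↦ x (s r)) < 0
    · have hc := (pert_cont x w s).tendsto 0
      rw [hzero] at hc
      have := (hc.mono_left (nhdsWithin_le_nhds (s := Set.Ioi (0 : ℝ)))).eventually_lt_const hs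
      filter_upwards [this] with t ht _
      exact ht
    · exact Filter.Eventually.of_forall fun t h ↦ absurd h hs
  obtain ⟨t, h1, h2, h3⟩ := (e1.and (e2.and e3)).exists
  exact ⟨fun i j ↦ x i j + t * w i j, h1, h2, h3⟩

end Pool.Agent.Lib.MP_c27c22_co
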