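import Pool.Agent.Lib.MP_c27c22_co.Iface

/-!
# Reduced words of the longest element of `S_4` give facets
-/

set_option autoImplicit false
set_option linter.unusedVariables false

namespace Pool.Agent.Lib.MP_c27c22_co

namespace RedW

theorem n0 {k b u v : ℕ} (h : ¬ hit k 0 b u v) :
    (b < u ∧ u ≤ b + k + 2) ∨ (b < v ∧ v ≤ b + k + 2) := by
  unfold hit at h; omega

theorem n1 {k b u v : ℕ} (h : ¬ hit k 1 b u v) :
    (b ≤ u ∨ v ≤ b ∨ b + k + 2 ≤ v) ∧ (u ≤ b ∨ b + k + 2 ≤ u ∨ v ≤ b + k + 2) := by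
  unfold hit at h; omega

theorem n2 {k b u v : ℕ} (h : ¬ hit k 2 b u v) : u ≤ b ∨ b + k + 2 < v := by
  unfold hit at h; omega

theorem hw0 {k b0 b1 b2 b3 b4 b5 u v : ℕ} (h01 : b0 < b1) (h12 : b1 < b2) (h23 : b2 < b3)
    (h34 : b3 < b4) (h45 : b4 < b5) (h5 : b5 ≤ k) (huv : u < v) (hv : v < 2 * k + 4)
    (g0 : ¬ hit k 0 b0 u v) (g1 : ¬ hit k 1 b1 u v) (g2 : ¬ hit k 0 b2 u v) (g3 : ¬ hit k 2 b3 u v) (g4 : ¬ hit k 1 b4 u v) (g5 : ¬ hit k 0 b5 u v) : False := by
  replace g0 := n0 g0
  replace g1 := n1 g1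
  replace g2 := n0 g2
  replace g3 := n2 g3
  replace g4 := n1 g4
  replace g5 := n0 g5
  omega

theorem a0 (k : ℕ) (b : Fin 6 → ℕ) (h01 : b 0 < b 1) (h12 : b 1 < b 2)
    (h23 : b 2 < b 3) (h34 : b 3 < b 4) (h45 : b 4 < b 5) (h5 : b 5 ≤ k) (m : Fin 6) :
    ∃ u v, u < v ∧ v < 2 * k + 4 ∧
      ∀ j : Fin 6, j ≠ m → ¬ hit k ([0,1,0,2,1,0].getD j 0) (b j) u v := by
  fin_cases m
  · refine ⟨b 1 + k + 2, b 3 + k + 3, by omega, by omega, ?_⟩
    intro j hj
    fin_cases j
    · exact absurd rfl hj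
    · show ¬ hit k 1 (b 1) _ _
      unfold hit
      omega
    · show ¬ hit k 0 (b 2) _ _
      unfold hit
      omega
    · show ¬ hit k 2 (b 3) _ _
      unfold hit
      omega
    · show ¬ hit k 1 (b 4) _ _
      unfold hit
      omega
    · show ¬ hit k 0 (b 5) _ _
      unfold hit
      omega
  · refine ⟨b 0 + k + 2, b 3 + k + 3, by omega, by omega, ?_⟩
    intro j hj
    fin_cases j
    · show ¬ hit k 0 (b 0) _ _
      unfold hit
      omega
    · exact absurd rfl hj
    · show ¬ hit k 0 (b 2) _ _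
      unfold hit
      omega
    · show ¬ hit k 2 (b 3) _ _
      unfold hit
      omega
    · show ¬ hit k 1 (b 4) _ _
      unfold hit
      omega
    · show ¬ hit k 0 (b 5) _ _
      unfold hit
      omega
  · refine ⟨b 0 + 1, b 4 + k + 2, by omega, by omega, ?_⟩
    intro j hj
    fin_cases j
    · show ¬ hit k 0 (b 0) _ _
      unfold hit
      omega
    · show ¬ hit k 1 (b 1) _ _
      unfold hit
      omega
    · exact absurd rfl hj
    · show ¬ hit k 2 (b 3) _ _
      unfold hit
      omega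
    · show ¬ hit k 1 (b 4) _ _
      unfold hit
      omega
    · show ¬ hit k 0 (b 5) _ _
      unfold hit
      omega
  · refine ⟨b 0 + k + 2, b 0 + k + 3, by omega, by omega, ?_⟩
    intro j hj
    fin_cases j
    · show ¬ hit k 0 (b 0) _ _
      unfold hit
      omega
    · show ¬ hit k 1 (b 1) _ _
      unfold hit
      omega
    · show ¬ hit k 0 (b 2) _ _
      unfold hit
      omega
    · exact absurd rfl hj
    · show ¬ hit k 1 (b 4) _ _
      unfold hit
      omega
    · show ¬ hit k 0 (b 5) _ _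
      unfold hit
      omega
  · refine ⟨b 0 + 1, b 1 + k + 2, by omega, by omega, ?_⟩
    intro j hj
    fin_cases j
    · show ¬ hit k 0 (b 0) _ _
      unfold hit
      omega
    · show ¬ hit k 1 (b 1) _ _
      unfold hit
      omega
    · show ¬ hit k 0 (b 2) _ _
      unfold hit
      omega
    · show ¬ hit k 2 (b 3) _ _
      unfold hit
      omega
    · exact absurd rfl hj
    · show ¬ hit k 0 (b 5) _ _
      unfold hit
      omega
  · refine ⟨b 1, b 2 + 1, by omega, by omega, ?_⟩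
    intro j hj
    fin_cases j
    · show ¬ hit k 0 (b 0) _ _
      unfold hit
      omega
    · show ¬ hit k 1 (b 1) _ _
      unfold hit
      omega
    · show ¬ hit k 0 (b 2) _ _
      unfold hit
      omega
    · show ¬ hit k 2 (b 3) _ _
      unfold hit
      omega
    · show ¬ hit k 1 (b 4) _ _
      unfold hit
      omega
    · exact absurd rfl hj

theorem hw1 {k b0 b1 b2 b3 b4 b5 u v : ℕ} (h01 : b0 < b1) (h12 : b1 < b2) (h23 : b2 < b3)
    (h34 : b3 < b4) (h45 : b4 < b5) (h5 : b5 ≤ k) (huv : u < v) (hv : v < 2 * k + 4)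
    (g0 : ¬ hit k 0 b0 u v) (g1 : ¬ hit k 1 b1 u v) (g2 : ¬ hit k 2 b2 u v) (g3 : ¬ hit k 0 b3 u v) (g4 : ¬ hit k 1 b4 u v) (g5 : ¬ hit k 0 b5 u v) : False := by
  replace g0 := n0 g0
  replace g1 := n1 g1
  replace g2 := n2 g2
  replace g3 := n0 g3
  replace g4 := n1 g4
  replace g5 := n0 g5
  omega

theorem a1 (k : ℕ) (b : Fin 6 → ℕ) (h01 : b 0 < b 1) (h12 : b 1 < b 2)
    (h23 : b 2 < b 3) (h34 : b 3 < b 4) (h45 : b 4 < b 5) (h5 : b 5 ≤ k) (m : Fin 6) :
    ∃ u v, u < v ∧ v < 2 * k + 4 ∧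
      ∀ j : Fin 6, j ≠ m → ¬ hit k ([0,1,2,0,1,0].getD j 0) (b j) u v := by
  fin_cases m
  · refine ⟨b 1 + k + 2, b 2 + k + 3, by omega, by omega, ?_⟩
    intro j hj
    fin_cases j
    · exact absurd rfl hj
    · show ¬ hit k 1 (b 1) _ _
      unfold hit
      omega
    · show ¬ hit k 2 (b 2) _ _
      unfold hit
      omega
    · show ¬ hit k 0 (b 3) _ _
      unfold hit
      omega
    · show ¬ hit k 1 (b 4) _ _
      unfold hit
      omega
    · show ¬ hit k 0 (b 5) _ _
      unfold hit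
      omega
  · refine ⟨b 0 + k + 2, b 2 + k + 3, by omega, by omega, ?_⟩
    intro j hj
    fin_cases j
    · show ¬ hit k 0 (b 0) _ _
      unfold hit
      omega
    · exact absurd rfl hj
    · show ¬ hit k 2 (b 2) _ _
      unfold hit
      omega
    · show ¬ hit k 0 (b 3) _ _
      unfold hit
      omega
    · show ¬ hit k 1 (b 4) _ _
      unfold hit
      omega
    · show ¬ hit k 0 (b 5) _ _
      unfold hit
      omega
  · refine ⟨b 0 + k + 2, b 0 + k + 3, by omega, by omega, ?_⟩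
    intro j hj
    fin_cases j
    · show ¬ hit k 0 (b 0) _ _
      unfold hit
      omega
    · show ¬ hit k 1 (b 1) _ _
      unfold hit
      omega
    · exact absurd rfl hj
    · show ¬ hit k 0 (b 3) _ _
      unfold hit
      omega
    · show ¬ hit k 1 (b 4) _ _
      unfold hit
      omega
    · show ¬ hit k 0 (b 5) _ _
      unfold hit
      omega
  · refine ⟨b 0 + 1, b 4 + k + 2, by omega, by omega, ?_⟩
    intro j hj
    fin_cases j
    · show ¬ hit k 0 (b 0) _ _
      unfold hit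
      omega
    · show ¬ hit k 1 (b 1) _ _
      unfold hit
      omega
    · show ¬ hit k 2 (b 2) _ _
      unfold hit
      omega
    · exact absurd rfl hj
    · show ¬ hit k 1 (b 4) _ _
      unfold hit
      omega
    · show ¬ hit k 0 (b 5) _ _
      unfold hit
      omega
  · refine ⟨b 0 + 1, b 1 + k + 2, by omega, by omega, ?_⟩
    intro j hj
    fin_cases j
    · show ¬ hit k 0 (b 0) _ _
      unfold hit
      omega
    · show ¬ hit k 1 (b 1) _ _
      unfold hit
      omega
    · show ¬ hit k 2 (b 2) _ _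
      unfold hit
      omega
    · show ¬ hit k 0 (b 3) _ _
      unfold hit
      omega
    · exact absurd rfl hj
    · show ¬ hit k 0 (b 5) _ _
      unfold hit
      omega
  · refine ⟨b 1, b 3 + 1, by omega, by omega, ?_⟩
    intro j hj
    fin_cases j
    · show ¬ hit k 0 (b 0) _ _
      unfold hit
      omega
    · show ¬ hit k 1 (b 1) _ _
      unfold hit
      omega
    · show ¬ hit k 2 (b 2) _ _
      unfold hit
      omega
    · show ¬ hit k 0 (b 3) _ _
      unfold hit
      omega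
    · show ¬ hit k 1 (b 4) _ _
      unfold hit
      omega
    · exact absurd rfl hj

theorem hw2 {k b0 b1 b2 b3 b4 b5 u v : ℕ} (h01 : b0 < b1) (h12 : b1 < b2) (h23 : b2 < b3)
    (h34 : b3 < b4) (h45 : b4 < b5) (h5 : b5 ≤ k) (huv : u < v) (hv : v < 2 * k + 4)
    (g0 : ¬ hit k 0 b0 u v) (g1 : ¬ hit k 1 b1 u v) (g2 : ¬ hit k 2 b2 u v) (g3 : ¬ hit k 1 b3 u v) (g4 : ¬ hit k 0 b4 u v) (g5 : ¬ hit k 1 b5 u v) : False := by
  replace g0 := n0 g0
  replace g1 := n1 g1
  replace g2 := n2 g2
  replace g3 := n1 g3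
  replace g4 := n0 g4
  replace g5 := n1 g5
  omega

theorem a2 (k : ℕ) (b : Fin 6 → ℕ) (h01 : b 0 < b 1) (h12 : b 1 < b 2)
    (h23 : b 2 < b 3) (h34 : b 3 < b 4) (h45 : b 4 < b 5) (h5 : b 5 ≤ k) (m : Fin 6) :
    ∃ u v, u < v ∧ v < 2 * k + 4 ∧
      ∀ j : Fin 6, j ≠ m → ¬ hit k ([0,1,2,1,0,1].getD j 0) (b j) u v := by
  fin_cases m
  · refine ⟨b 1 + k + 2, b 2 + k + 3, by omega, by omega, ?_⟩
    intro j hj
    fin_cases j
    · exact absurd rfl hj
    · show ¬ hit k 1 (b 1) _ _
      unfold hit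
      omega
    · show ¬ hit k 2 (b 2) _ _
      unfold hit
      omega
    · show ¬ hit k 1 (b 3) _ _
      unfold hit
      omega
    · show ¬ hit k 0 (b 4) _ _
      unfold hit
      omega
    · show ¬ hit k 1 (b 5) _ _
      unfold hit
      omega
  · refine ⟨b 0 + k + 2, b 2 + k + 3, by omega, by omega, ?_⟩
    intro j hj
    fin_cases j
    · show ¬ hit k 0 (b 0) _ _
      unfold hit
      omega
    · exact absurd rfl hj
    · show ¬ hit k 2 (b 2) _ _
      unfold hit
      omega
    · show ¬ hit k 1 (b 3) _ _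
      unfold hit
      omega
    · show ¬ hit k 0 (b 4) _ _
      unfold hit
      omega
    · show ¬ hit k 1 (b 5) _ _
      unfold hit
      omega
  · refine ⟨b 0 + k + 2, b 0 + k + 3, by omega, by omega, ?_⟩
    intro j hj
    fin_cases j
    · show ¬ hit k 0 (b 0) _ _
      unfold hit
      omega
    · show ¬ hit k 1 (b 1) _ _
      unfold hit
      omega
    · exact absurd rfl hj
    · show ¬ hit k 1 (b 3) _ _
      unfold hit
      omega
    · show ¬ hit k 0 (b 4) _ _
      unfold hit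
      omega
    · show ¬ hit k 1 (b 5) _ _
      unfold hit
      omega
  · refine ⟨b 1, b 4 + 1, by omega, by omega, ?_⟩
    intro j hj
    fin_cases j
    · show ¬ hit k 0 (b 0) _ _
      unfold hit
      omega
    · show ¬ hit k 1 (b 1) _ _
      unfold hit
      omega
    · show ¬ hit k 2 (b 2) _ _
      unfold hit
      omega
    · exact absurd rfl hj
    · show ¬ hit k 0 (b 4) _ _
      unfold hit
      omega
    · show ¬ hit k 1 (b 5) _ _
      unfold hit
      omega
  · refine ⟨b 0, b 0 + 1, by omega, by omega, ?_⟩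
    intro j hj
    fin_cases j
    · show ¬ hit k 0 (b 0) _ _
      unfold hit
      omega
    · show ¬ hit k 1 (b 1) _ _
      unfold hit
      omega
    · show ¬ hit k 2 (b 2) _ _
      unfold hit
      omega
    · show ¬ hit k 1 (b 3) _ _
      unfold hit
      omega
    · exact absurd rfl hj
    · show ¬ hit k 1 (b 5) _ _
      unfold hit
      omega
  · refine ⟨b 0 + 1, b 3 + k + 2, by omega, by omega, ?_⟩
    intro j hj
    fin_cases j
    · show ¬ hit k 0 (b 0) _ _
      unfold hit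
      omega
    · show ¬ hit k 1 (b 1) _ _
      unfold hit
      omega
    · show ¬ hit k 2 (b 2) _ _
      unfold hit
      omega
    · show ¬ hit k 1 (b 3) _ _
      unfold hit
      omega
    · show ¬ hit k 0 (b 4) _ _
      unfold hit
      omega
    · exact absurd rfl hj

theorem hw3 {k b0 b1 b2 b3 b4 b5 u v : ℕ} (h01 : b0 < b1) (h12 : b1 < b2) (h23 : b2 < b3)
    (h34 : b3 < b4) (h45 : b4 < b5) (h5 : b5 ≤ k) (huv : u < v) (hv : v < 2 * k + 4)
    (g0 : ¬ hit k 0 b0 u v) (g1 : ¬ hit k 2 b1 u v) (g2 : ¬ hit k 1 b2 u v) (g3 : ¬ hit k 0 b3 u v) (g4 : ¬ hit k 2 b4 u v) (g5 : ¬ hit k 1 b5 u v) : False := by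
  replace g0 := n0 g0
  replace g1 := n2 g1
  replace g2 := n1 g2
  replace g3 := n0 g3
  replace g4 := n2 g4
  replace g5 := n1 g5
  omega

theorem a3 (k : ℕ) (b : Fin 6 → ℕ) (h01 : b 0 < b 1) (h12 : b 1 < b 2)
    (h23 : b 2 < b 3) (h34 : b 3 < b 4) (h45 : b 4 < b 5) (h5 : b 5 ≤ k) (m : Fin 6) :
    ∃ u v, u < v ∧ v < 2 * k + 4 ∧
      ∀ j : Fin 6, j ≠ m → ¬ hit k ([0,2,1,0,2,1].getD j 0) (b j) u v := by
  fin_cases m
  · refine ⟨b 2 + k + 2, b 4 + k + 3, by omega, by omega, ?_⟩
    intro j hj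
    fin_cases j
    · exact absurd rfl hj
    · show ¬ hit k 2 (b 1) _ _
      unfold hit
      omega
    · show ¬ hit k 1 (b 2) _ _
      unfold hit
      omega
    · show ¬ hit k 0 (b 3) _ _
      unfold hit
      omega
    · show ¬ hit k 2 (b 4) _ _
      unfold hit
      omega
    · show ¬ hit k 1 (b 5) _ _
      unfold hit
      omega
  · refine ⟨b 2, b 3 + 1, by omega, by omega, ?_⟩
    intro j hj
    fin_cases j
    · show ¬ hit k 0 (b 0) _ _
      unfold hit
      omega
    · exact absurd rfl hj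
    · show ¬ hit k 1 (b 2) _ _
      unfold hit
      omega
    · show ¬ hit k 0 (b 3) _ _
      unfold hit
      omega
    · show ¬ hit k 2 (b 4) _ _
      unfold hit
      omega
    · show ¬ hit k 1 (b 5) _ _
      unfold hit
      omega
  · refine ⟨b 0, b 3 + 1, by omega, by omega, ?_⟩
    intro j hj
    fin_cases j
    · show ¬ hit k 0 (b 0) _ _
      unfold hit
      omega
    · show ¬ hit k 2 (b 1) _ _
      unfold hit
      omega
    · exact absurd rfl hj
    · show ¬ hit k 0 (b 3) _ _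
      unfold hit
      omega
    · show ¬ hit k 2 (b 4) _ _
      unfold hit
      omega
    · show ¬ hit k 1 (b 5) _ _
      unfold hit
      omega
  · refine ⟨b 0, b 0 + 1, by omega, by omega, ?_⟩
    intro j hj
    fin_cases j
    · show ¬ hit k 0 (b 0) _ _
      unfold hit
      omega
    · show ¬ hit k 2 (b 1) _ _
      unfold hit
      omega
    · show ¬ hit k 1 (b 2) _ _
      unfold hit
      omega
    · exact absurd rfl hj
    · show ¬ hit k 2 (b 4) _ _
      unfold hit
      omega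
    · show ¬ hit k 1 (b 5) _ _
      unfold hit
      omega
  · refine ⟨b 0 + k + 2, b 1 + k + 3, by omega, by omega, ?_⟩
    intro j hj
    fin_cases j
    · show ¬ hit k 0 (b 0) _ _
      unfold hit
      omega
    · show ¬ hit k 2 (b 1) _ _
      unfold hit
      omega
    · show ¬ hit k 1 (b 2) _ _
      unfold hit
      omega
    · show ¬ hit k 0 (b 3) _ _
      unfold hit
      omega
    · exact absurd rfl hj
    · show ¬ hit k 1 (b 5) _ _
      unfold hit
      omega
  · refine ⟨b 0 + 1, b 2 + k + 2, by omega, by omega, ?_⟩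
    intro j hj
    fin_cases j
    · show ¬ hit k 0 (b 0) _ _
      unfold hit
      omega
    · show ¬ hit k 2 (b 1) _ _
      unfold hit
      omega
    · show ¬ hit k 1 (b 2) _ _
      unfold hit
      omega
    · show ¬ hit k 0 (b 3) _ _
      unfold hit
      omega
    · show ¬ hit k 2 (b 4) _ _
      unfold hit
      omega
    · exact absurd rfl hj

theorem hw4 {k b0 b1 b2 b3 b4 b5 u v : ℕ} (h01 : b0 < b1) (h12 : b1 < b2) (h23 : b2 < b3)
    (h34 : b3 < b4) (h45 : b4 < b5) (h5 : b5 ≤ k) (huv : u < v) (hv : v < 2 * k + 4)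
    (g0 : ¬ hit k 0 b0 u v) (g1 : ¬ hit k 2 b1 u v) (g2 : ¬ hit k 1 b2 u v) (g3 : ¬ hit k 2 b3 u v) (g4 : ¬ hit k 0 b4 u v) (g5 : ¬ hit k 1 b5 u v) : False := by
  replace g0 := n0 g0
  replace g1 := n2 g1
  replace g2 := n1 g2
  replace g3 := n2 g3
  replace g4 := n0 g4
  replace g5 := n1 g5
  omega

theorem a4 (k : ℕ) (b : Fin 6 → ℕ) (h01 : b 0 < b 1) (h12 : b 1 < b 2)
    (h23 : b 2 < b 3) (h34 : b 3 < b 4) (h45 : b 4 < b 5) (h5 : b 5 ≤ k) (m : Fin 6) :
    ∃ u v, u < v ∧ v < 2 * k + 4 ∧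
      ∀ j : Fin 6, j ≠ m → ¬ hit k ([0,2,1,2,0,1].getD j 0) (b j) u v := by
  fin_cases m
  · refine ⟨b 2 + k + 2, b 3 + k + 3, by omega, by omega, ?_⟩
    intro j hj
    fin_cases j
    · exact absurd rfl hj
    · show ¬ hit k 2 (b 1) _ _
      unfold hit
      omega
    · show ¬ hit k 1 (b 2) _ _
      unfold hit
      omega
    · show ¬ hit k 2 (b 3) _ _
      unfold hit
      omega
    · show ¬ hit k 0 (b 4) _ _
      unfold hit
      omega
    · show ¬ hit k 1 (b 5) _ _
      unfold hit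
      omega
  · refine ⟨b 2, b 4 + 1, by omega, by omega, ?_⟩
    intro j hj
    fin_cases j
    · show ¬ hit k 0 (b 0) _ _
      unfold hit
      omega
    · exact absurd rfl hj
    · show ¬ hit k 1 (b 2) _ _
      unfold hit
      omega
    · show ¬ hit k 2 (b 3) _ _
      unfold hit
      omega
    · show ¬ hit k 0 (b 4) _ _
      unfold hit
      omega
    · show ¬ hit k 1 (b 5) _ _
      unfold hit
      omega
  · refine ⟨b 0, b 4 + 1, by omega, by omega, ?_⟩
    intro j hj
    fin_cases j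
    · show ¬ hit k 0 (b 0) _ _
      unfold hit
      omega
    · show ¬ hit k 2 (b 1) _ _
      unfold hit
      omega
    · exact absurd rfl hj
    · show ¬ hit k 2 (b 3) _ _
      unfold hit
      omega
    · show ¬ hit k 0 (b 4) _ _
      unfold hit
      omega
    · show ¬ hit k 1 (b 5) _ _
      unfold hit
      omega
  · refine ⟨b 0 + k + 2, b 1 + k + 3, by omega, by omega, ?_⟩
    intro j hj
    fin_cases j
    · show ¬ hit k 0 (b 0) _ _
      unfold hit
      omega
    · show ¬ hit k 2 (b 1) _ _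
      unfold hit
      omega
    · show ¬ hit k 1 (b 2) _ _
      unfold hit
      omega
    · exact absurd rfl hj
    · show ¬ hit k 0 (b 4) _ _
      unfold hit
      omega
    · show ¬ hit k 1 (b 5) _ _
      unfold hit
      omega
  · refine ⟨b 0, b 0 + 1, by omega, by omega, ?_⟩
    intro j hj
    fin_cases j
    · show ¬ hit k 0 (b 0) _ _
      unfold hit
      omega
    · show ¬ hit k 2 (b 1) _ _
      unfold hit
      omega
    · show ¬ hit k 1 (b 2) _ _
      unfold hit
      omega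
    · show ¬ hit k 2 (b 3) _ _
      unfold hit
      omega
    · exact absurd rfl hj
    · show ¬ hit k 1 (b 5) _ _
      unfold hit
      omega
  · refine ⟨b 0 + 1, b 2 + k + 2, by omega, by omega, ?_⟩
    intro j hj
    fin_cases j
    · show ¬ hit k 0 (b 0) _ _
      unfold hit
      omega
    · show ¬ hit k 2 (b 1) _ _
      unfold hit
      omega
    · show ¬ hit k 1 (b 2) _ _
      unfold hit
      omega
    · show ¬ hit k 2 (b 3) _ _
      unfold hit
      omega
    · show ¬ hit k 0 (b 4) _ _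
      unfold hit
      omega
    · exact absurd rfl hj

theorem hw5 {k b0 b1 b2 b3 b4 b5 u v : ℕ} (h01 : b0 < b1) (h12 : b1 < b2) (h23 : b2 < b3)
    (h34 : b3 < b4) (h45 : b4 < b5) (h5 : b5 ≤ k) (huv : u < v) (hv : v < 2 * k + 4)
    (g0 : ¬ hit k 1 b0 u v) (g1 : ¬ hit k 0 b1 u v) (g2 : ¬ hit k 1 b2 u v) (g3 : ¬ hit k 2 b3 u v) (g4 : ¬ hit k 1 b4 u v) (g5 : ¬ hit k 0 b5 u v) : False := by
  replace g0 := n1 g0
  replace g1 := n0 g1
  replace g2 := n1 g2
  replace g3 := n2 g3
  replace g4 := n1 g4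
  replace g5 := n0 g5
  omega

theorem a5 (k : ℕ) (b : Fin 6 → ℕ) (h01 : b 0 < b 1) (h12 : b 1 < b 2)
    (h23 : b 2 < b 3) (h34 : b 3 < b 4) (h45 : b 4 < b 5) (h5 : b 5 ≤ k) (m : Fin 6) :
    ∃ u v, u < v ∧ v < 2 * k + 4 ∧
      ∀ j : Fin 6, j ≠ m → ¬ hit k ([1,0,1,2,1,0].getD j 0) (b j) u v := by
  fin_cases m
  · refine ⟨b 1 + 1, b 4 + k + 2, by omega, by omega, ?_⟩
    intro j hj
    fin_cases j
    · exact absurd rfl hj
    · show ¬ hit k 0 (b 1) _ _
      unfold hit
      omega
    · show ¬ hit k 1 (b 2) _ _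
      unfold hit
      omega
    · show ¬ hit k 2 (b 3) _ _
      unfold hit
      omega
    · show ¬ hit k 1 (b 4) _ _
      unfold hit
      omega
    · show ¬ hit k 0 (b 5) _ _
      unfold hit
      omega
  · refine ⟨b 0, b 4 + k + 2, by omega, by omega, ?_⟩
    intro j hj
    fin_cases j
    · show ¬ hit k 1 (b 0) _ _
      unfold hit
      omega
    · exact absurd rfl hj
    · show ¬ hit k 1 (b 2) _ _
      unfold hit
      omega
    · show ¬ hit k 2 (b 3) _ _
      unfold hit
      omega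
    · show ¬ hit k 1 (b 4) _ _
      unfold hit
      omega
    · show ¬ hit k 0 (b 5) _ _
      unfold hit
      omega
  · refine ⟨b 0 + k + 2, b 3 + k + 3, by omega, by omega, ?_⟩
    intro j hj
    fin_cases j
    · show ¬ hit k 1 (b 0) _ _
      unfold hit
      omega
    · show ¬ hit k 0 (b 1) _ _
      unfold hit
      omega
    · exact absurd rfl hj
    · show ¬ hit k 2 (b 3) _ _
      unfold hit
      omega
    · show ¬ hit k 1 (b 4) _ _
      unfold hit
      omega
    · show ¬ hit k 0 (b 5) _ _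
      unfold hit
      omega
  · refine ⟨b 0 + k + 2, b 0 + k + 3, by omega, by omega, ?_⟩
    intro j hj
    fin_cases j
    · show ¬ hit k 1 (b 0) _ _
      unfold hit
      omega
    · show ¬ hit k 0 (b 1) _ _
      unfold hit
      omega
    · show ¬ hit k 1 (b 2) _ _
      unfold hit
      omega
    · exact absurd rfl hj
    · show ¬ hit k 1 (b 4) _ _
      unfold hit
      omega
    · show ¬ hit k 0 (b 5) _ _
      unfold hit
      omega
  · refine ⟨b 2, b 0 + k + 2, by omega, by omega, ?_⟩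
    intro j hj
    fin_cases j
    · show ¬ hit k 1 (b 0) _ _
      unfold hit
      omega
    · show ¬ hit k 0 (b 1) _ _
      unfold hit
      omega
    · show ¬ hit k 1 (b 2) _ _
      unfold hit
      omega
    · show ¬ hit k 2 (b 3) _ _
      unfold hit
      omega
    · exact absurd rfl hj
    · show ¬ hit k 0 (b 5) _ _
      unfold hit
      omega
  · refine ⟨b 0, b 1 + 1, by omega, by omega, ?_⟩
    intro j hj
    fin_cases j
    · show ¬ hit k 1 (b 0) _ _
      unfold hit
      omega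
    · show ¬ hit k 0 (b 1) _ _
      unfold hit
      omega
    · show ¬ hit k 1 (b 2) _ _
      unfold hit
      omega
    · show ¬ hit k 2 (b 3) _ _
      unfold hit
      omega
    · show ¬ hit k 1 (b 4) _ _
      unfold hit
      omega
    · exact absurd rfl hj

theorem hw6 {k b0 b1 b2 b3 b4 b5 u v : ℕ} (h01 : b0 < b1) (h12 : b1 < b2) (h23 : b2 < b3)
    (h34 : b3 < b4) (h45 : b4 < b5) (h5 : b5 ≤ k) (huv : u < v) (hv : v < 2 * k + 4)
    (g0 : ¬ hit k 1 b0 u v) (g1 : ¬ hit k 0 b1 u v) (g2 : ¬ hit k 2 b2 u v) (g3 : ¬ hit k 1 b3 u v) (g4 : ¬ hit k 0 b4 u v) (g5 : ¬ hit k 2 b5 u v) : False := by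
  replace g0 := n1 g0
  replace g1 := n0 g1
  replace g2 := n2 g2
  replace g3 := n1 g3
  replace g4 := n0 g4
  replace g5 := n2 g5
  omega

theorem a6 (k : ℕ) (b : Fin 6 → ℕ) (h01 : b 0 < b 1) (h12 : b 1 < b 2)
    (h23 : b 2 < b 3) (h34 : b 3 < b 4) (h45 : b 4 < b 5) (h5 : b 5 ≤ k) (m : Fin 6) :
    ∃ u v, u < v ∧ v < 2 * k + 4 ∧
      ∀ j : Fin 6, j ≠ m → ¬ hit k ([1,0,2,1,0,2].getD j 0) (b j) u v := by
  fin_cases m
  · refine ⟨b 1 + 1, b 3 + k + 2, by omega, by omega, ?_⟩
    intro j hj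
    fin_cases j
    · exact absurd rfl hj
    · show ¬ hit k 0 (b 1) _ _
      unfold hit
      omega
    · show ¬ hit k 2 (b 2) _ _
      unfold hit
      omega
    · show ¬ hit k 1 (b 3) _ _
      unfold hit
      omega
    · show ¬ hit k 0 (b 4) _ _
      unfold hit
      omega
    · show ¬ hit k 2 (b 5) _ _
      unfold hit
      omega
  · refine ⟨b 0, b 3 + k + 2, by omega, by omega, ?_⟩
    intro j hj
    fin_cases j
    · show ¬ hit k 1 (b 0) _ _
      unfold hit
      omega
    · exact absurd rfl hj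
    · show ¬ hit k 2 (b 2) _ _
      unfold hit
      omega
    · show ¬ hit k 1 (b 3) _ _
      unfold hit
      omega
    · show ¬ hit k 0 (b 4) _ _
      unfold hit
      omega
    · show ¬ hit k 2 (b 5) _ _
      unfold hit
      omega
  · refine ⟨b 3, b 0 + k + 2, by omega, by omega, ?_⟩
    intro j hj
    fin_cases j
    · show ¬ hit k 1 (b 0) _ _
      unfold hit
      omega
    · show ¬ hit k 0 (b 1) _ _
      unfold hit
      omega
    · exact absurd rfl hj
    · show ¬ hit k 1 (b 3) _ _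
      unfold hit
      omega
    · show ¬ hit k 0 (b 4) _ _
      unfold hit
      omega
    · show ¬ hit k 2 (b 5) _ _
      unfold hit
      omega
  · refine ⟨b 0, b 0 + k + 2, by omega, by omega, ?_⟩
    intro j hj
    fin_cases j
    · show ¬ hit k 1 (b 0) _ _
      unfold hit
      omega
    · show ¬ hit k 0 (b 1) _ _
      unfold hit
      omega
    · show ¬ hit k 2 (b 2) _ _
      unfold hit
      omega
    · exact absurd rfl hj
    · show ¬ hit k 0 (b 4) _ _
      unfold hit
      omega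
    · show ¬ hit k 2 (b 5) _ _
      unfold hit
      omega
  · refine ⟨b 0, b 1 + 1, by omega, by omega, ?_⟩
    intro j hj
    fin_cases j
    · show ¬ hit k 1 (b 0) _ _
      unfold hit
      omega
    · show ¬ hit k 0 (b 1) _ _
      unfold hit
      omega
    · show ¬ hit k 2 (b 2) _ _
      unfold hit
      omega
    · show ¬ hit k 1 (b 3) _ _
      unfold hit
      omega
    · exact absurd rfl hj
    · show ¬ hit k 2 (b 5) _ _
      unfold hit
      omega
  · refine ⟨b 0 + k + 2, b 2 + k + 3, by omega, by omega, ?_⟩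
    intro j hj
    fin_cases j
    · show ¬ hit k 1 (b 0) _ _
      unfold hit
      omega
    · show ¬ hit k 0 (b 1) _ _
      unfold hit
      omega
    · show ¬ hit k 2 (b 2) _ _
      unfold hit
      omega
    · show ¬ hit k 1 (b 3) _ _
      unfold hit
      omega
    · show ¬ hit k 0 (b 4) _ _
      unfold hit
      omega
    · exact absurd rfl hj

theorem hw7 {k b0 b1 b2 b3 b4 b5 u v : ℕ} (h01 : b0 < b1) (h12 : b1 < b2) (h23 : b2 < b3)
    (h34 : b3 < b4) (h45 : b4 < b5) (h5 : b5 ≤ k) (huv : u < v) (hv : v < 2 * k + 4)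
    (g0 : ¬ hit k 1 b0 u v) (g1 : ¬ hit k 0 b1 u v) (g2 : ¬ hit k 2 b2 u v) (g3 : ¬ hit k 1 b3 u v) (g4 : ¬ hit k 2 b4 u v) (g5 : ¬ hit k 0 b5 u v) : False := by
  replace g0 := n1 g0
  replace g1 := n0 g1
  replace g2 := n2 g2
  replace g3 := n1 g3
  replace g4 := n2 g4
  replace g5 := n0 g5
  omega

theorem a7 (k : ℕ) (b : Fin 6 → ℕ) (h01 : b 0 < b 1) (h12 : b 1 < b 2)
    (h23 : b 2 < b 3) (h34 : b 3 < b 4) (h45 : b 4 < b 5) (h5 : b 5 ≤ k) (m : Fin 6) :
    ∃ u v, u < v ∧ v < 2 * k + 4 ∧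
      ∀ j : Fin 6, j ≠ m → ¬ hit k ([1,0,2,1,2,0].getD j 0) (b j) u v := by
  fin_cases m
  · refine ⟨b 1 + 1, b 3 + k + 2, by omega, by omega, ?_⟩
    intro j hj
    fin_cases j
    · exact absurd rfl hj
    · show ¬ hit k 0 (b 1) _ _
      unfold hit
      omega
    · show ¬ hit k 2 (b 2) _ _
      unfold hit
      omega
    · show ¬ hit k 1 (b 3) _ _
      unfold hit
      omega
    · show ¬ hit k 2 (b 4) _ _
      unfold hit
      omega
    · show ¬ hit k 0 (b 5) _ _
      unfold hit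
      omega
  · refine ⟨b 0, b 3 + k + 2, by omega, by omega, ?_⟩
    intro j hj
    fin_cases j
    · show ¬ hit k 1 (b 0) _ _
      unfold hit
      omega
    · exact absurd rfl hj
    · show ¬ hit k 2 (b 2) _ _
      unfold hit
      omega
    · show ¬ hit k 1 (b 3) _ _
      unfold hit
      omega
    · show ¬ hit k 2 (b 4) _ _
      unfold hit
      omega
    · show ¬ hit k 0 (b 5) _ _
      unfold hit
      omega
  · refine ⟨b 3, b 0 + k + 2, by omega, by omega, ?_⟩
    intro j hj
    fin_cases j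
    · show ¬ hit k 1 (b 0) _ _
      unfold hit
      omega
    · show ¬ hit k 0 (b 1) _ _
      unfold hit
      omega
    · exact absurd rfl hj
    · show ¬ hit k 1 (b 3) _ _
      unfold hit
      omega
    · show ¬ hit k 2 (b 4) _ _
      unfold hit
      omega
    · show ¬ hit k 0 (b 5) _ _
      unfold hit
      omega
  · refine ⟨b 0, b 0 + k + 2, by omega, by omega, ?_⟩
    intro j hj
    fin_cases j
    · show ¬ hit k 1 (b 0) _ _
      unfold hit
      omega
    · show ¬ hit k 0 (b 1) _ _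
      unfold hit
      omega
    · show ¬ hit k 2 (b 2) _ _
      unfold hit
      omega
    · exact absurd rfl hj
    · show ¬ hit k 2 (b 4) _ _
      unfold hit
      omega
    · show ¬ hit k 0 (b 5) _ _
      unfold hit
      omega
  · refine ⟨b 0 + k + 2, b 2 + k + 3, by omega, by omega, ?_⟩
    intro j hj
    fin_cases j
    · show ¬ hit k 1 (b 0) _ _
      unfold hit
      omega
    · show ¬ hit k 0 (b 1) _ _
      unfold hit
      omega
    · show ¬ hit k 2 (b 2) _ _
      unfold hit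
      omega
    · show ¬ hit k 1 (b 3) _ _
      unfold hit
      omega
    · exact absurd rfl hj
    · show ¬ hit k 0 (b 5) _ _
      unfold hit
      omega
  · refine ⟨b 0, b 1 + 1, by omega, by omega, ?_⟩
    intro j hj
    fin_cases j
    · show ¬ hit k 1 (b 0) _ _
      unfold hit
      omega
    · show ¬ hit k 0 (b 1) _ _
      unfold hit
      omega
    · show ¬ hit k 2 (b 2) _ _
      unfold hit
      omega
    · show ¬ hit k 1 (b 3) _ _
      unfold hit
      omega
    · show ¬ hit k 2 (b 4) _ _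
      unfold hit
      omega
    · exact absurd rfl hj

theorem hw8 {k b0 b1 b2 b3 b4 b5 u v : ℕ} (h01 : b0 < b1) (h12 : b1 < b2) (h23 : b2 < b3)
    (h34 : b3 < b4) (h45 : b4 < b5) (h5 : b5 ≤ k) (huv : u < v) (hv : v < 2 * k + 4)
    (g0 : ¬ hit k 1 b0 u v) (g1 : ¬ hit k 2 b1 u v) (g2 : ¬ hit k 0 b2 u v) (g3 : ¬ hit k 1 b3 u v) (g4 : ¬ hit k 0 b4 u v) (g5 : ¬ hit k 2 b5 u v) : False := by
  replace g0 := n1 g0
  replace g1 := n2 g1
  replace g2 := n0 g2
  replace g3 := n1 g3
  replace g4 := n0 g4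
  replace g5 := n2 g5
  omega

theorem a8 (k : ℕ) (b : Fin 6 → ℕ) (h01 : b 0 < b 1) (h12 : b 1 < b 2)
    (h23 : b 2 < b 3) (h34 : b 3 < b 4) (h45 : b 4 < b 5) (h5 : b 5 ≤ k) (m : Fin 6) :
    ∃ u v, u < v ∧ v < 2 * k + 4 ∧
      ∀ j : Fin 6, j ≠ m → ¬ hit k ([1,2,0,1,0,2].getD j 0) (b j) u v := by
  fin_cases m
  · refine ⟨b 2 + 1, b 3 + k + 2, by omega, by omega, ?_⟩
    intro j hj
    fin_cases j
    · exact absurd rfl hj
    · show ¬ hit k 2 (b 1) _ _
      unfold hit
      omega
    · show ¬ hit k 0 (b 2) _ _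
      unfold hit
      omega
    · show ¬ hit k 1 (b 3) _ _
      unfold hit
      omega
    · show ¬ hit k 0 (b 4) _ _
      unfold hit
      omega
    · show ¬ hit k 2 (b 5) _ _
      unfold hit
      omega
  · refine ⟨b 3, b 0 + k + 2, by omega, by omega, ?_⟩
    intro j hj
    fin_cases j
    · show ¬ hit k 1 (b 0) _ _
      unfold hit
      omega
    · exact absurd rfl hj
    · show ¬ hit k 0 (b 2) _ _
      unfold hit
      omega
    · show ¬ hit k 1 (b 3) _ _
      unfold hit
      omega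
    · show ¬ hit k 0 (b 4) _ _
      unfold hit
      omega
    · show ¬ hit k 2 (b 5) _ _
      unfold hit
      omega
  · refine ⟨b 0, b 3 + k + 2, by omega, by omega, ?_⟩
    intro j hj
    fin_cases j
    · show ¬ hit k 1 (b 0) _ _
      unfold hit
      omega
    · show ¬ hit k 2 (b 1) _ _
      unfold hit
      omega
    · exact absurd rfl hj
    · show ¬ hit k 1 (b 3) _ _
      unfold hit
      omega
    · show ¬ hit k 0 (b 4) _ _
      unfold hit
      omega
    · show ¬ hit k 2 (b 5) _ _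
      unfold hit
      omega
  · refine ⟨b 0, b 0 + k + 2, by omega, by omega, ?_⟩
    intro j hj
    fin_cases j
    · show ¬ hit k 1 (b 0) _ _
      unfold hit
      omega
    · show ¬ hit k 2 (b 1) _ _
      unfold hit
      omega
    · show ¬ hit k 0 (b 2) _ _
      unfold hit
      omega
    · exact absurd rfl hj
    · show ¬ hit k 0 (b 4) _ _
      unfold hit
      omega
    · show ¬ hit k 2 (b 5) _ _
      unfold hit
      omega
  · refine ⟨b 0, b 2 + 1, by omega, by omega, ?_⟩
    intro j hj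
    fin_cases j
    · show ¬ hit k 1 (b 0) _ _
      unfold hit
      omega
    · show ¬ hit k 2 (b 1) _ _
      unfold hit
      omega
    · show ¬ hit k 0 (b 2) _ _
      unfold hit
      omega
    · show ¬ hit k 1 (b 3) _ _
      unfold hit
      omega
    · exact absurd rfl hj
    · show ¬ hit k 2 (b 5) _ _
      unfold hit
      omega
  · refine ⟨b 0 + k + 2, b 1 + k + 3, by omega, by omega, ?_⟩
    intro j hj
    fin_cases j
    · show ¬ hit k 1 (b 0) _ _
      unfold hit
      omega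
    · show ¬ hit k 2 (b 1) _ _
      unfold hit
      omega
    · show ¬ hit k 0 (b 2) _ _
      unfold hit
      omega
    · show ¬ hit k 1 (b 3) _ _
      unfold hit
      omega
    · show ¬ hit k 0 (b 4) _ _
      unfold hit
      omega
    · exact absurd rfl hj

theorem hw9 {k b0 b1 b2 b3 b4 b5 u v : ℕ} (h01 : b0 < b1) (h12 : b1 < b2) (h23 : b2 < b3)
    (h34 : b3 < b4) (h45 : b4 < b5) (h5 : b5 ≤ k) (huv : u < v) (hv : v < 2 * k + 4)
    (g0 : ¬ hit k 1 b0 u v) (g1 : ¬ hit k 2 b1 u v) (g2 : ¬ hit k 0 b2 u v) (g3 : ¬ hit k 1 b3 u v) (g4 : ¬ hit k 2 b4 u v) (g5 : ¬ hit k 0 b5 u v) : False := by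
  replace g0 := n1 g0
  replace g1 := n2 g1
  replace g2 := n0 g2
  replace g3 := n1 g3
  replace g4 := n2 g4
  replace g5 := n0 g5
  omega

theorem a9 (k : ℕ) (b : Fin 6 → ℕ) (h01 : b 0 < b 1) (h12 : b 1 < b 2)
    (h23 : b 2 < b 3) (h34 : b 3 < b 4) (h45 : b 4 < b 5) (h5 : b 5 ≤ k) (m : Fin 6) :
    ∃ u v, u < v ∧ v < 2 * k + 4 ∧
      ∀ j : Fin 6, j ≠ m → ¬ hit k ([1,2,0,1,2,0].getD j 0) (b j) u v := by
  fin_cases m
  · refine ⟨b 2 + 1, b 3 + k + 2, by omega, by omega, ?_⟩
    intro j hj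
    fin_cases j
    · exact absurd rfl hj
    · show ¬ hit k 2 (b 1) _ _
      unfold hit
      omega
    · show ¬ hit k 0 (b 2) _ _
      unfold hit
      omega
    · show ¬ hit k 1 (b 3) _ _
      unfold hit
      omega
    · show ¬ hit k 2 (b 4) _ _
      unfold hit
      omega
    · show ¬ hit k 0 (b 5) _ _
      unfold hit
      omega
  · refine ⟨b 3, b 0 + k + 2, by omega, by omega, ?_⟩
    intro j hj
    fin_cases j
    · show ¬ hit k 1 (b 0) _ _
      unfold hit
      omega
    · exact absurd rfl hj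
    · show ¬ hit k 0 (b 2) _ _
      unfold hit
      omega
    · show ¬ hit k 1 (b 3) _ _
      unfold hit
      omega
    · show ¬ hit k 2 (b 4) _ _
      unfold hit
      omega
    · show ¬ hit k 0 (b 5) _ _
      unfold hit
      omega
  · refine ⟨b 0, b 3 + k + 2, by omega, by omega, ?_⟩
    intro j hj
    fin_cases j
    · show ¬ hit k 1 (b 0) _ _
      unfold hit
      omega
    · show ¬ hit k 2 (b 1) _ _
      unfold hit
      omega
    · exact absurd rfl hj
    · show ¬ hit k 1 (b 3) _ _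
      unfold hit
      omega
    · show ¬ hit k 2 (b 4) _ _
      unfold hit
      omega
    · show ¬ hit k 0 (b 5) _ _
      unfold hit
      omega
  · refine ⟨b 0, b 0 + k + 2, by omega, by omega, ?_⟩
    intro j hj
    fin_cases j
    · show ¬ hit k 1 (b 0) _ _
      unfold hit
      omega
    · show ¬ hit k 2 (b 1) _ _
      unfold hit
      omega
    · show ¬ hit k 0 (b 2) _ _
      unfold hit
      omega
    · exact absurd rfl hj
    · show ¬ hit k 2 (b 4) _ _
      unfold hit
      omega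
    · show ¬ hit k 0 (b 5) _ _
      unfold hit
      omega
  · refine ⟨b 0 + k + 2, b 1 + k + 3, by omega, by omega, ?_⟩
    intro j hj
    fin_cases j
    · show ¬ hit k 1 (b 0) _ _
      unfold hit
      omega
    · show ¬ hit k 2 (b 1) _ _
      unfold hit
      omega
    · show ¬ hit k 0 (b 2) _ _
      unfold hit
      omega
    · show ¬ hit k 1 (b 3) _ _
      unfold hit
      omega
    · exact absurd rfl hj
    · show ¬ hit k 0 (b 5) _ _
      unfold hit
      omega
  · refine ⟨b 0, b 2 + 1, by omega, by omega, ?_⟩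
    intro j hj
    fin_cases j
    · show ¬ hit k 1 (b 0) _ _
      unfold hit
      omega
    · show ¬ hit k 2 (b 1) _ _
      unfold hit
      omega
    · show ¬ hit k 0 (b 2) _ _
      unfold hit
      omega
    · show ¬ hit k 1 (b 3) _ _
      unfold hit
      omega
    · show ¬ hit k 2 (b 4) _ _
      unfold hit
      omega
    · exact absurd rfl hj

theorem hw10 {k b0 b1 b2 b3 b4 b5 u v : ℕ} (h01 : b0 < b1) (h12 : b1 < b2) (h23 : b2 < b3)
    (h34 : b3 < b4) (h45 : b4 < b5) (h5 : b5 ≤ k) (huv : u < v) (hv : v < 2 * k + 4)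
    (g0 : ¬ hit k 1 b0 u v) (g1 : ¬ hit k 2 b1 u v) (g2 : ¬ hit k 1 b2 u v) (g3 : ¬ hit k 0 b3 u v) (g4 : ¬ hit k 1 b4 u v) (g5 : ¬ hit k 2 b5 u v) : False := by
  replace g0 := n1 g0
  replace g1 := n2 g1
  replace g2 := n1 g2
  replace g3 := n0 g3
  replace g4 := n1 g4
  replace g5 := n2 g5
  omega

theorem a10 (k : ℕ) (b : Fin 6 → ℕ) (h01 : b 0 < b 1) (h12 : b 1 < b 2)
    (h23 : b 2 < b 3) (h34 : b 3 < b 4) (h45 : b 4 < b 5) (h5 : b 5 ≤ k) (m : Fin 6) :
    ∃ u v, u < v ∧ v < 2 * k + 4 ∧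
      ∀ j : Fin 6, j ≠ m → ¬ hit k ([1,2,1,0,1,2].getD j 0) (b j) u v := by
  fin_cases m
  · refine ⟨b 4, b 1 + k + 3, by omega, by omega, ?_⟩
    intro j hj
    fin_cases j
    · exact absurd rfl hj
    · show ¬ hit k 2 (b 1) _ _
      unfold hit
      omega
    · show ¬ hit k 1 (b 2) _ _
      unfold hit
      omega
    · show ¬ hit k 0 (b 3) _ _
      unfold hit
      omega
    · show ¬ hit k 1 (b 4) _ _
      unfold hit
      omega
    · show ¬ hit k 2 (b 5) _ _
      unfold hit
      omega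
  · refine ⟨b 2, b 3 + 1, by omega, by omega, ?_⟩
    intro j hj
    fin_cases j
    · show ¬ hit k 1 (b 0) _ _
      unfold hit
      omega
    · exact absurd rfl hj
    · show ¬ hit k 1 (b 2) _ _
      unfold hit
      omega
    · show ¬ hit k 0 (b 3) _ _
      unfold hit
      omega
    · show ¬ hit k 1 (b 4) _ _
      unfold hit
      omega
    · show ¬ hit k 2 (b 5) _ _
      unfold hit
      omega
  · refine ⟨b 0, b 3 + 1, by omega, by omega, ?_⟩
    intro j hj
    fin_cases j
    · show ¬ hit k 1 (b 0) _ _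
      unfold hit
      omega
    · show ¬ hit k 2 (b 1) _ _
      unfold hit
      omega
    · exact absurd rfl hj
    · show ¬ hit k 0 (b 3) _ _
      unfold hit
      omega
    · show ¬ hit k 1 (b 4) _ _
      unfold hit
      omega
    · show ¬ hit k 2 (b 5) _ _
      unfold hit
      omega
  · refine ⟨b 0, b 0 + 1, by omega, by omega, ?_⟩
    intro j hj
    fin_cases j
    · show ¬ hit k 1 (b 0) _ _
      unfold hit
      omega
    · show ¬ hit k 2 (b 1) _ _
      unfold hit
      omega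
    · show ¬ hit k 1 (b 2) _ _
      unfold hit
      omega
    · exact absurd rfl hj
    · show ¬ hit k 1 (b 4) _ _
      unfold hit
      omega
    · show ¬ hit k 2 (b 5) _ _
      unfold hit
      omega
  · refine ⟨b 0, b 2 + k + 2, by omega, by omega, ?_⟩
    intro j hj
    fin_cases j
    · show ¬ hit k 1 (b 0) _ _
      unfold hit
      omega
    · show ¬ hit k 2 (b 1) _ _
      unfold hit
      omega
    · show ¬ hit k 1 (b 2) _ _
      unfold hit
      omega
    · show ¬ hit k 0 (b 3) _ _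
      unfold hit
      omega
    · exact absurd rfl hj
    · show ¬ hit k 2 (b 5) _ _
      unfold hit
      omega
  · refine ⟨b 0 + k + 2, b 1 + k + 3, by omega, by omega, ?_⟩
    intro j hj
    fin_cases j
    · show ¬ hit k 1 (b 0) _ _
      unfold hit
      omega
    · show ¬ hit k 2 (b 1) _ _
      unfold hit
      omega
    · show ¬ hit k 1 (b 2) _ _
      unfold hit
      omega
    · show ¬ hit k 0 (b 3) _ _
      unfold hit
      omega
    · show ¬ hit k 1 (b 4) _ _
      unfold hit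
      omega
    · exact absurd rfl hj

theorem hw11 {k b0 b1 b2 b3 b4 b5 u v : ℕ} (h01 : b0 < b1) (h12 : b1 < b2) (h23 : b2 < b3)
    (h34 : b3 < b4) (h45 : b4 < b5) (h5 : b5 ≤ k) (huv : u < v) (hv : v < 2 * k + 4)
    (g0 : ¬ hit k 2 b0 u v) (g1 : ¬ hit k 0 b1 u v) (g2 : ¬ hit k 1 b2 u v) (g3 : ¬ hit k 0 b3 u v) (g4 : ¬ hit k 2 b4 u v) (g5 : ¬ hit k 1 b5 u v) : False := by
  replace g0 := n2 g0
  replace g1 := n0 g1
  replace g2 := n1 g2
  replace g3 := n0 g3
  replace g4 := n2 g4
  replace g5 := n1 g5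
  omega

theorem a11 (k : ℕ) (b : Fin 6 → ℕ) (h01 : b 0 < b 1) (h12 : b 1 < b 2)
    (h23 : b 2 < b 3) (h34 : b 3 < b 4) (h45 : b 4 < b 5) (h5 : b 5 ≤ k) (m : Fin 6) :
    ∃ u v, u < v ∧ v < 2 * k + 4 ∧
      ∀ j : Fin 6, j ≠ m → ¬ hit k ([2,0,1,0,2,1].getD j 0) (b j) u v := by
  fin_cases m
  · refine ⟨b 2, b 3 + 1, by omega, by omega, ?_⟩
    intro j hj
    fin_cases j
    · exact absurd rfl hj
    · show ¬ hit k 0 (b 1) _ _
      unfold hit
      omega
    · show ¬ hit k 1 (b 2) _ _
      unfold hit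
      omega
    · show ¬ hit k 0 (b 3) _ _
      unfold hit
      omega
    · show ¬ hit k 2 (b 4) _ _
      unfold hit
      omega
    · show ¬ hit k 1 (b 5) _ _
      unfold hit
      omega
  · refine ⟨b 2 + k + 2, b 4 + k + 3, by omega, by omega, ?_⟩
    intro j hj
    fin_cases j
    · show ¬ hit k 2 (b 0) _ _
      unfold hit
      omega
    · exact absurd rfl hj
    · show ¬ hit k 1 (b 2) _ _
      unfold hit
      omega
    · show ¬ hit k 0 (b 3) _ _
      unfold hit
      omega
    · show ¬ hit k 2 (b 4) _ _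
      unfold hit
      omega
    · show ¬ hit k 1 (b 5) _ _
      unfold hit
      omega
  · refine ⟨b 0, b 3 + 1, by omega, by omega, ?_⟩
    intro j hj
    fin_cases j
    · show ¬ hit k 2 (b 0) _ _
      unfold hit
      omega
    · show ¬ hit k 0 (b 1) _ _
      unfold hit
      omega
    · exact absurd rfl hj
    · show ¬ hit k 0 (b 3) _ _
      unfold hit
      omega
    · show ¬ hit k 2 (b 4) _ _
      unfold hit
      omega
    · show ¬ hit k 1 (b 5) _ _
      unfold hit
      omega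
  · refine ⟨b 0, b 1 + 1, by omega, by omega, ?_⟩
    intro j hj
    fin_cases j
    · show ¬ hit k 2 (b 0) _ _
      unfold hit
      omega
    · show ¬ hit k 0 (b 1) _ _
      unfold hit
      omega
    · show ¬ hit k 1 (b 2) _ _
      unfold hit
      omega
    · exact absurd rfl hj
    · show ¬ hit k 2 (b 4) _ _
      unfold hit
      omega
    · show ¬ hit k 1 (b 5) _ _
      unfold hit
      omega
  · refine ⟨b 0 + k + 2, b 0 + k + 3, by omega, by omega, ?_⟩
    intro j hj
    fin_cases j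
    · show ¬ hit k 2 (b 0) _ _
      unfold hit
      omega
    · show ¬ hit k 0 (b 1) _ _
      unfold hit
      omega
    · show ¬ hit k 1 (b 2) _ _
      unfold hit
      omega
    · show ¬ hit k 0 (b 3) _ _
      unfold hit
      omega
    · exact absurd rfl hj
    · show ¬ hit k 1 (b 5) _ _
      unfold hit
      omega
  · refine ⟨b 1 + 1, b 2 + k + 2, by omega, by omega, ?_⟩
    intro j hj
    fin_cases j
    · show ¬ hit k 2 (b 0) _ _
      unfold hit
      omega
    · show ¬ hit k 0 (b 1) _ _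
      unfold hit
      omega
    · show ¬ hit k 1 (b 2) _ _
      unfold hit
      omega
    · show ¬ hit k 0 (b 3) _ _
      unfold hit
      omega
    · show ¬ hit k 2 (b 4) _ _
      unfold hit
      omega
    · exact absurd rfl hj

theorem hw12 {k b0 b1 b2 b3 b4 b5 u v : ℕ} (h01 : b0 < b1) (h12 : b1 < b2) (h23 : b2 < b3)
    (h34 : b3 < b4) (h45 : b4 < b5) (h5 : b5 ≤ k) (huv : u < v) (hv : v < 2 * k + 4)
    (g0 : ¬ hit k 2 b0 u v) (g1 : ¬ hit k 0 b1 u v) (g2 : ¬ hit k 1 b2 u v) (g3 : ¬ hit k 2 b3 u v) (g4 : ¬ hit k 0 b4 u v) (g5 : ¬ hit k 1 b5 u v) : False := by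
  replace g0 := n2 g0
  replace g1 := n0 g1
  replace g2 := n1 g2
  replace g3 := n2 g3
  replace g4 := n0 g4
  replace g5 := n1 g5
  omega

theorem a12 (k : ℕ) (b : Fin 6 → ℕ) (h01 : b 0 < b 1) (h12 : b 1 < b 2)
    (h23 : b 2 < b 3) (h34 : b 3 < b 4) (h45 : b 4 < b 5) (h5 : b 5 ≤ k) (m : Fin 6) :
    ∃ u v, u < v ∧ v < 2 * k + 4 ∧
      ∀ j : Fin 6, j ≠ m → ¬ hit k ([2,0,1,2,0,1].getD j 0) (b j) u v := by
  fin_cases m
  · refine ⟨b 2, b 4 + 1, by omega, by omega, ?_⟩
    intro j hj
    fin_cases j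
    · exact absurd rfl hj
    · show ¬ hit k 0 (b 1) _ _
      unfold hit
      omega
    · show ¬ hit k 1 (b 2) _ _
      unfold hit
      omega
    · show ¬ hit k 2 (b 3) _ _
      unfold hit
      omega
    · show ¬ hit k 0 (b 4) _ _
      unfold hit
      omega
    · show ¬ hit k 1 (b 5) _ _
      unfold hit
      omega
  · refine ⟨b 2 + k + 2, b 3 + k + 3, by omega, by omega, ?_⟩
    intro j hj
    fin_cases j
    · show ¬ hit k 2 (b 0) _ _
      unfold hit
      omega
    · exact absurd rfl hj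
    · show ¬ hit k 1 (b 2) _ _
      unfold hit
      omega
    · show ¬ hit k 2 (b 3) _ _
      unfold hit
      omega
    · show ¬ hit k 0 (b 4) _ _
      unfold hit
      omega
    · show ¬ hit k 1 (b 5) _ _
      unfold hit
      omega
  · refine ⟨b 0, b 4 + 1, by omega, by omega, ?_⟩
    intro j hj
    fin_cases j
    · show ¬ hit k 2 (b 0) _ _
      unfold hit
      omega
    · show ¬ hit k 0 (b 1) _ _
      unfold hit
      omega
    · exact absurd rfl hj
    · show ¬ hit k 2 (b 3) _ _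
      unfold hit
      omega
    · show ¬ hit k 0 (b 4) _ _
      unfold hit
      omega
    · show ¬ hit k 1 (b 5) _ _
      unfold hit
      omega
  · refine ⟨b 0 + k + 2, b 0 + k + 3, by omega, by omega, ?_⟩
    intro j hj
    fin_cases j
    · show ¬ hit k 2 (b 0) _ _
      unfold hit
      omega
    · show ¬ hit k 0 (b 1) _ _
      unfold hit
      omega
    · show ¬ hit k 1 (b 2) _ _
      unfold hit
      omega
    · exact absurd rfl hj
    · show ¬ hit k 0 (b 4) _ _
      unfold hit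
      omega
    · show ¬ hit k 1 (b 5) _ _
      unfold hit
      omega
  · refine ⟨b 0, b 1 + 1, by omega, by omega, ?_⟩
    intro j hj
    fin_cases j
    · show ¬ hit k 2 (b 0) _ _
      unfold hit
      omega
    · show ¬ hit k 0 (b 1) _ _
      unfold hit
      omega
    · show ¬ hit k 1 (b 2) _ _
      unfold hit
      omega
    · show ¬ hit k 2 (b 3) _ _
      unfold hit
      omega
    · exact absurd rfl hj
    · show ¬ hit k 1 (b 5) _ _
      unfold hit
      omega
  · refine ⟨b 1 + 1, b 2 + k + 2, by omega, by omega, ?_⟩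
    intro j hj
    fin_cases j
    · show ¬ hit k 2 (b 0) _ _
      unfold hit
      omega
    · show ¬ hit k 0 (b 1) _ _
      unfold hit
      omega
    · show ¬ hit k 1 (b 2) _ _
      unfold hit
      omega
    · show ¬ hit k 2 (b 3) _ _
      unfold hit
      omega
    · show ¬ hit k 0 (b 4) _ _
      unfold hit
      omega
    · exact absurd rfl hj

theorem hw13 {k b0 b1 b2 b3 b4 b5 u v : ℕ} (h01 : b0 < b1) (h12 : b1 < b2) (h23 : b2 < b3)
    (h34 : b3 < b4) (h45 : b4 < b5) (h5 : b5 ≤ k) (huv : u < v) (hv : v < 2 * k + 4)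
    (g0 : ¬ hit k 2 b0 u v) (g1 : ¬ hit k 1 b1 u v) (g2 : ¬ hit k 0 b2 u v) (g3 : ¬ hit k 1 b3 u v) (g4 : ¬ hit k 2 b4 u v) (g5 : ¬ hit k 1 b5 u v) : False := by
  replace g0 := n2 g0
  replace g1 := n1 g1
  replace g2 := n0 g2
  replace g3 := n1 g3
  replace g4 := n2 g4
  replace g5 := n1 g5
  omega

theorem a13 (k : ℕ) (b : Fin 6 → ℕ) (h01 : b 0 < b 1) (h12 : b 1 < b 2)
    (h23 : b 2 < b 3) (h34 : b 3 < b 4) (h45 : b 4 < b 5) (h5 : b 5 ≤ k) (m : Fin 6) :
    ∃ u v, u < v ∧ v < 2 * k + 4 ∧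
      ∀ j : Fin 6, j ≠ m → ¬ hit k ([2,1,0,1,2,1].getD j 0) (b j) u v := by
  fin_cases m
  · refine ⟨b 1, b 2 + 1, by omega, by omega, ?_⟩
    intro j hj
    fin_cases j
    · exact absurd rfl hj
    · show ¬ hit k 1 (b 1) _ _
      unfold hit
      omega
    · show ¬ hit k 0 (b 2) _ _
      unfold hit
      omega
    · show ¬ hit k 1 (b 3) _ _
      unfold hit
      omega
    · show ¬ hit k 2 (b 4) _ _
      unfold hit
      omega
    · show ¬ hit k 1 (b 5) _ _
      unfold hit
      omega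
  · refine ⟨b 0, b 2 + 1, by omega, by omega, ?_⟩
    intro j hj
    fin_cases j
    · show ¬ hit k 2 (b 0) _ _
      unfold hit
      omega
    · exact absurd rfl hj
    · show ¬ hit k 0 (b 2) _ _
      unfold hit
      omega
    · show ¬ hit k 1 (b 3) _ _
      unfold hit
      omega
    · show ¬ hit k 2 (b 4) _ _
      unfold hit
      omega
    · show ¬ hit k 1 (b 5) _ _
      unfold hit
      omega
  · refine ⟨b 0, b 0 + 1, by omega, by omega, ?_⟩
    intro j hj
    fin_cases j
    · show ¬ hit k 2 (b 0) _ _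
      unfold hit
      omega
    · show ¬ hit k 1 (b 1) _ _
      unfold hit
      omega
    · exact absurd rfl hj
    · show ¬ hit k 1 (b 3) _ _
      unfold hit
      omega
    · show ¬ hit k 2 (b 4) _ _
      unfold hit
      omega
    · show ¬ hit k 1 (b 5) _ _
      unfold hit
      omega
  · refine ⟨b 1 + k + 2, b 4 + k + 3, by omega, by omega, ?_⟩
    intro j hj
    fin_cases j
    · show ¬ hit k 2 (b 0) _ _
      unfold hit
      omega
    · show ¬ hit k 1 (b 1) _ _
      unfold hit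
      omega
    · show ¬ hit k 0 (b 2) _ _
      unfold hit
      omega
    · exact absurd rfl hj
    · show ¬ hit k 2 (b 4) _ _
      unfold hit
      omega
    · show ¬ hit k 1 (b 5) _ _
      unfold hit
      omega
  · refine ⟨b 0 + k + 2, b 0 + k + 3, by omega, by omega, ?_⟩
    intro j hj
    fin_cases j
    · show ¬ hit k 2 (b 0) _ _
      unfold hit
      omega
    · show ¬ hit k 1 (b 1) _ _
      unfold hit
      omega
    · show ¬ hit k 0 (b 2) _ _
      unfold hit
      omega
    · show ¬ hit k 1 (b 3) _ _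
      unfold hit
      omega
    · exact absurd rfl hj
    · show ¬ hit k 1 (b 5) _ _
      unfold hit
      omega
  · refine ⟨b 3, b 0 + k + 3, by omega, by omega, ?_⟩
    intro j hj
    fin_cases j
    · show ¬ hit k 2 (b 0) _ _
      unfold hit
      omega
    · show ¬ hit k 1 (b 1) _ _
      unfold hit
      omega
    · show ¬ hit k 0 (b 2) _ _
      unfold hit
      omega
    · show ¬ hit k 1 (b 3) _ _
      unfold hit
      omega
    · show ¬ hit k 2 (b 4) _ _
      unfold hit
      omega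
    · exact absurd rfl hj

theorem hw14 {k b0 b1 b2 b3 b4 b5 u v : ℕ} (h01 : b0 < b1) (h12 : b1 < b2) (h23 : b2 < b3)
    (h34 : b3 < b4) (h45 : b4 < b5) (h5 : b5 ≤ k) (huv : u < v) (hv : v < 2 * k + 4)
    (g0 : ¬ hit k 2 b0 u v) (g1 : ¬ hit k 1 b1 u v) (g2 : ¬ hit k 0 b2 u v) (g3 : ¬ hit k 2 b3 u v) (g4 : ¬ hit k 1 b4 u v) (g5 : ¬ hit k 2 b5 u v) : False := by
  replace g0 := n2 g0
  replace g1 := n1 g1
  replace g2 := n0 g2
  replace g3 := n2 g3
  replace g4 := n1 g4
  replace g5 := n2 g5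
  omega

theorem a14 (k : ℕ) (b : Fin 6 → ℕ) (h01 : b 0 < b 1) (h12 : b 1 < b 2)
    (h23 : b 2 < b 3) (h34 : b 3 < b 4) (h45 : b 4 < b 5) (h5 : b 5 ≤ k) (m : Fin 6) :
    ∃ u v, u < v ∧ v < 2 * k + 4 ∧
      ∀ j : Fin 6, j ≠ m → ¬ hit k ([2,1,0,2,1,2].getD j 0) (b j) u v := by
  fin_cases m
  · refine ⟨b 1, b 2 + 1, by omega, by omega, ?_⟩
    intro j hj
    fin_cases j
    · exact absurd rfl hj
    · show ¬ hit k 1 (b 1) _ _
      unfold hit
      omega
    · show ¬ hit k 0 (b 2) _ _
      unfold hit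
      omega
    · show ¬ hit k 2 (b 3) _ _
      unfold hit
      omega
    · show ¬ hit k 1 (b 4) _ _
      unfold hit
      omega
    · show ¬ hit k 2 (b 5) _ _
      unfold hit
      omega
  · refine ⟨b 0, b 2 + 1, by omega, by omega, ?_⟩
    intro j hj
    fin_cases j
    · show ¬ hit k 2 (b 0) _ _
      unfold hit
      omega
    · exact absurd rfl hj
    · show ¬ hit k 0 (b 2) _ _
      unfold hit
      omega
    · show ¬ hit k 2 (b 3) _ _
      unfold hit
      omega
    · show ¬ hit k 1 (b 4) _ _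
      unfold hit
      omega
    · show ¬ hit k 2 (b 5) _ _
      unfold hit
      omega
  · refine ⟨b 0, b 0 + 1, by omega, by omega, ?_⟩
    intro j hj
    fin_cases j
    · show ¬ hit k 2 (b 0) _ _
      unfold hit
      omega
    · show ¬ hit k 1 (b 1) _ _
      unfold hit
      omega
    · exact absurd rfl hj
    · show ¬ hit k 2 (b 3) _ _
      unfold hit
      omega
    · show ¬ hit k 1 (b 4) _ _
      unfold hit
      omega
    · show ¬ hit k 2 (b 5) _ _
      unfold hit
      omega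
  · refine ⟨b 4, b 0 + k + 3, by omega, by omega, ?_⟩
    intro j hj
    fin_cases j
    · show ¬ hit k 2 (b 0) _ _
      unfold hit
      omega
    · show ¬ hit k 1 (b 1) _ _
      unfold hit
      omega
    · show ¬ hit k 0 (b 2) _ _
      unfold hit
      omega
    · exact absurd rfl hj
    · show ¬ hit k 1 (b 4) _ _
      unfold hit
      omega
    · show ¬ hit k 2 (b 5) _ _
      unfold hit
      omega
  · refine ⟨b 0, b 1 + k + 2, by omega, by omega, ?_⟩
    intro j hj
    fin_cases j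
    · show ¬ hit k 2 (b 0) _ _
      unfold hit
      omega
    · show ¬ hit k 1 (b 1) _ _
      unfold hit
      omega
    · show ¬ hit k 0 (b 2) _ _
      unfold hit
      omega
    · show ¬ hit k 2 (b 3) _ _
      unfold hit
      omega
    · exact absurd rfl hj
    · show ¬ hit k 2 (b 5) _ _
      unfold hit
      omega
  · refine ⟨b 1 + k + 2, b 3 + k + 3, by omega, by omega, ?_⟩
    intro j hj
    fin_cases j
    · show ¬ hit k 2 (b 0) _ _
      unfold hit
      omega
    · show ¬ hit k 1 (b 1) _ _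
      unfold hit
      omega
    · show ¬ hit k 0 (b 2) _ _
      unfold hit
      omega
    · show ¬ hit k 2 (b 3) _ _
      unfold hit
      omega
    · show ¬ hit k 1 (b 4) _ _
      unfold hit
      omega
    · exact absurd rfl hj

theorem hw15 {k b0 b1 b2 b3 b4 b5 u v : ℕ} (h01 : b0 < b1) (h12 : b1 < b2) (h23 : b2 < b3)
    (h34 : b3 < b4) (h45 : b4 < b5) (h5 : b5 ≤ k) (huv : u < v) (hv : v < 2 * k + 4)
    (g0 : ¬ hit k 2 b0 u v) (g1 : ¬ hit k 1 b1 u v) (g2 : ¬ hit k 2 b2 u v) (g3 : ¬ hit k 0 b3 u v) (g4 : ¬ hit k 1 b4 u v) (g5 : ¬ hit k 2 b5 u v) : False := by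
  replace g0 := n2 g0
  replace g1 := n1 g1
  replace g2 := n2 g2
  replace g3 := n0 g3
  replace g4 := n1 g4
  replace g5 := n2 g5
  omega

theorem a15 (k : ℕ) (b : Fin 6 → ℕ) (h01 : b 0 < b 1) (h12 : b 1 < b 2)
    (h23 : b 2 < b 3) (h34 : b 3 < b 4) (h45 : b 4 < b 5) (h5 : b 5 ≤ k) (m : Fin 6) :
    ∃ u v, u < v ∧ v < 2 * k + 4 ∧
      ∀ j : Fin 6, j ≠ m → ¬ hit k ([2,1,2,0,1,2].getD j 0) (b j) u v := by
  fin_cases m
  · refine ⟨b 1, b 3 + 1, by omega, by omega, ?_⟩
    intro j hj
    fin_cases j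
    · exact absurd rfl hj
    · show ¬ hit k 1 (b 1) _ _
      unfold hit
      omega
    · show ¬ hit k 2 (b 2) _ _
      unfold hit
      omega
    · show ¬ hit k 0 (b 3) _ _
      unfold hit
      omega
    · show ¬ hit k 1 (b 4) _ _
      unfold hit
      omega
    · show ¬ hit k 2 (b 5) _ _
      unfold hit
      omega
  · refine ⟨b 0, b 3 + 1, by omega, by omega, ?_⟩
    intro j hj
    fin_cases j
    · show ¬ hit k 2 (b 0) _ _
      unfold hit
      omega
    · exact absurd rfl hj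
    · show ¬ hit k 2 (b 2) _ _
      unfold hit
      omega
    · show ¬ hit k 0 (b 3) _ _
      unfold hit
      omega
    · show ¬ hit k 1 (b 4) _ _
      unfold hit
      omega
    · show ¬ hit k 2 (b 5) _ _
      unfold hit
      omega
  · refine ⟨b 4, b 0 + k + 3, by omega, by omega, ?_⟩
    intro j hj
    fin_cases j
    · show ¬ hit k 2 (b 0) _ _
      unfold hit
      omega
    · show ¬ hit k 1 (b 1) _ _
      unfold hit
      omega
    · exact absurd rfl hj
    · show ¬ hit k 0 (b 3) _ _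
      unfold hit
      omega
    · show ¬ hit k 1 (b 4) _ _
      unfold hit
      omega
    · show ¬ hit k 2 (b 5) _ _
      unfold hit
      omega
  · refine ⟨b 0, b 0 + 1, by omega, by omega, ?_⟩
    intro j hj
    fin_cases j
    · show ¬ hit k 2 (b 0) _ _
      unfold hit
      omega
    · show ¬ hit k 1 (b 1) _ _
      unfold hit
      omega
    · show ¬ hit k 2 (b 2) _ _
      unfold hit
      omega
    · exact absurd rfl hj
    · show ¬ hit k 1 (b 4) _ _
      unfold hit
      omega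
    · show ¬ hit k 2 (b 5) _ _
      unfold hit
      omega
  · refine ⟨b 0, b 1 + k + 2, by omega, by omega, ?_⟩
    intro j hj
    fin_cases j
    · show ¬ hit k 2 (b 0) _ _
      unfold hit
      omega
    · show ¬ hit k 1 (b 1) _ _
      unfold hit
      omega
    · show ¬ hit k 2 (b 2) _ _
      unfold hit
      omega
    · show ¬ hit k 0 (b 3) _ _
      unfold hit
      omega
    · exact absurd rfl hj
    · show ¬ hit k 2 (b 5) _ _
      unfold hit
      omega
  · refine ⟨b 1 + k + 2, b 2 + k + 3, by omega, by omega, ?_⟩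
    intro j hj
    fin_cases j
    · show ¬ hit k 2 (b 0) _ _
      unfold hit
      omega
    · show ¬ hit k 1 (b 1) _ _
      unfold hit
      omega
    · show ¬ hit k 2 (b 2) _ _
      unfold hit
      omega
    · show ¬ hit k 0 (b 3) _ _
      unfold hit
      omega
    · show ¬ hit k 1 (b 4) _ _
      unfold hit
      omega
    · exact absurd rfl hj

end RedW

open RedW in
/-- every `(k+1)`-crossing (given by its two omitted vertices `u < v`) contains one of the six
edges of a reduced word -/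
theorem red_hit (k : ℕ) (q : List ℕ) (hq : q ∈ redWords) (b : Fin 6 → ℕ) (hb : StrictMono b)
    (hbk : ∀ j, b j ≤ k) (u v : ℕ) (huv : u < v) (hv : v < 2 * k + 4) :
    ∃ j : Fin 6, hit k (q.getD j 0) (b j) u v := by
  by_contra hcon
  push Not at hcon
  have g0 := hcon 0
  have g1 := hcon 1
  have g2 := hcon 2
  have g3 := hcon 3
  have g4 := hcon 4
  have g5 := hcon 5
  have h01 : b 0 < b 1 := hb (by decide)
  have h12 : b 1 < b 2 := hb (by decide)
  have h23 : b 2 < b 3 := hb (by decide)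
  have h34 : b 3 < b 4 := hb (by decide)
  have h45 : b 4 < b 5 := hb (by decide)
  have h5 := hbk 5
  simp only [redWords, List.mem_cons, List.not_mem_nil, or_false] at hq
  rcases hq with rfl | rfl | rfl | rfl | rfl | rfl | rfl | rfl | rfl | rfl | rfl | rfl | rfl | rfl | rfl | rfl
  · exact hw0 h01 h12 h23 h34 h45 h5 huv hv g0 g1 g2 g3 g4 g5
  · exact hw1 h01 h12 h23 h34 h45 h5 huv hv g0 g1 g2 g3 g4 g5
  · exact hw2 h01 h12 h23 h34 h45 h5 huv hv g0 g1 g2 g3 g4 g5
  · exact hw3 h01 h12 h23 h34 h45 h5 huv hv g0 g1 g2 g3 g4 g5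
  · exact hw4 h01 h12 h23 h34 h45 h5 huv hv g0 g1 g2 g3 g4 g5
  · exact hw5 h01 h12 h23 h34 h45 h5 huv hv g0 g1 g2 g3 g4 g5
  · exact hw6 h01 h12 h23 h34 h45 h5 huv hv g0 g1 g2 g3 g4 g5
  · exact hw7 h01 h12 h23 h34 h45 h5 huv hv g0 g1 g2 g3 g4 g5
  · exact hw8 h01 h12 h23 h34 h45 h5 huv hv g0 g1 g2 g3 g4 g5
  · exact hw9 h01 h12 h23 h34 h45 h5 huv hv g0 g1 g2 g3 g4 g5
  · exact hw10 h01 h12 h23 h34 h45 h5 huv hv g0 g1 g2 g3 g4 g5
  · exact hw11 h01 h12 h23 h34 h45 h5 huv hv g0 g1 g2 g3 g4 g5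
  · exact hw12 h01 h12 h23 h34 h45 h5 huv hv g0 g1 g2 g3 g4 g5
  · exact hw13 h01 h12 h23 h34 h45 h5 huv hv g0 g1 g2 g3 g4 g5
  · exact hw14 h01 h12 h23 h34 h45 h5 huv hv g0 g1 g2 g3 g4 g5
  · exact hw15 h01 h12 h23 h34 h45 h5 huv hv g0 g1 g2 g3 g4 g5

open RedW in
/-- for each `m` some `(k+1)`-crossing avoids the five other edges -/
theorem red_avoid (k : ℕ) (q : List ℕ) (hq : q ∈ redWords) (b : Fin 6 → ℕ) (hb : StrictMono b)
    (hbk : ∀ j, b j ≤ k) (m : Fin 6) :
    ∃ u v, u < v ∧ v < 2 * k + 4 ∧ ∀ j : Fin 6, j ≠ m → ¬ hit k (q.getD j 0) (b j) u v := by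
  have h01 : b 0 < b 1 := hb (by decide)
  have h12 : b 1 < b 2 := hb (by decide)
  have h23 : b 2 < b 3 := hb (by decide)
  have h34 : b 3 < b 4 := hb (by decide)
  have h45 : b 4 < b 5 := hb (by decide)
  have h5 := hbk 5
  simp only [redWords, List.mem_cons, List.not_mem_nil, or_false] at hq
  rcases hq with rfl | rfl | rfl | rfl | rfl | rfl | rfl | rfl | rfl | rfl | rfl | rfl | rfl | rfl | rfl | rfl
  · exact a0 k b h01 h12 h23 h34 h45 h5 m
  · exact a1 k b h01 h12 h23 h34 h45 h5 m
  · exact a2 k b h01 h12 h23 h34 h45 h5 m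
  · exact a3 k b h01 h12 h23 h34 h45 h5 m
  · exact a4 k b h01 h12 h23 h34 h45 h5 m
  · exact a5 k b h01 h12 h23 h34 h45 h5 m
  · exact a6 k b h01 h12 h23 h34 h45 h5 m
  · exact a7 k b h01 h12 h23 h34 h45 h5 m
  · exact a8 k b h01 h12 h23 h34 h45 h5 m
  · exact a9 k b h01 h12 h23 h34 h45 h5 m
  · exact a10 k b h01 h12 h23 h34 h45 h5 m
  · exact a11 k b h01 h12 h23 h34 h45 h5 m
  · exact a12 k b h01 h12 h23 h34 h45 h5 m
  · exact a13 k b h01 h12 h23 h34 h45 h5 m
  · exact a14 k b h01 h12 h23 h34 h45 h5 m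
  · exact a15 k b h01 h12 h23 h34 h45 h5 m

end Pool.Agent.Lib.MP_c27c22_co
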