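import Pool.Agent.Lib.MP_c27c22_co.Gale
import Pool.Agent.Lib.MP_c27c22_co.Perturb
import Pool.Agent.Lib.MP_c27c22_co.Cliques
import Pool.Agent.Lib.MP_c27c22_co.RedWords

/-!
# A realization of `Δ_{2k+4,k}` gives a configuration
-/

set_option autoImplicit false

namespace Pool.Agent.Lib.MP_c27c22_co

namespace Cfg

/-- the edge of letter `i` in block `b` -/
def edge (k i b : ℕ) : Fin (2 * k + 4) × Fin (2 * k + 4) :=
  (⟨e1 i b % (2 * k + 4), Nat.mod_lt _ (by omega)⟩,
    ⟨e2 k i b % (2 * k + 4), Nat.mod_lt _ (by omega)⟩)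

theorem edge_fst {k i b : ℕ} (hb : b ≤ k) : ((edge k i b).1 : ℕ) = e1 i b := by
  show e1 i b % (2 * k + 4) = e1 i b
  apply Nat.mod_eq_of_lt
  unfold e1
  split_ifs <;> omega

theorem edge_snd {k i b : ℕ} (hb : b ≤ k) : ((edge k i b).2 : ℕ) = e2 k i b := by
  show e2 k i b % (2 * k + 4) = e2 k i b
  apply Nat.mod_eq_of_lt
  unfold e2
  split_ifs <;> omega

theorem edge_ext {k i b : ℕ} (hb : b ≤ k) {e : Fin (2 * k + 4) × Fin (2 * k + 4)}
    (h1 : (e.1 : ℕ) = e1 i b) (h2 : (e.2 : ℕ) = e2 k i b) : e = edge k i b := by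
  apply Prod.ext
  · apply Fin.ext
    rw [h1, edge_fst hb]
  · apply Fin.ext
    rw [h2, edge_snd hb]

theorem edge_inj {k i b i' b' : ℕ} (hb : b ≤ k) (hb' : b' ≤ k) (hi : i < 3) (hi' : i' < 3)
    (h : edge k i b = edge k i' b') : i = i' ∧ b = b' := by
  have h1 : e1 i b = e1 i' b' := by
    rw [← edge_fst (i := i) hb, ← edge_fst (i := i') hb', h]
  have h2 : e2 k i b = e2 k i' b' := by
    rw [← edge_snd (i := i) hb, ← edge_snd (i := i') hb', h]
  unfold e1 at h1
  unfold e2 at h2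
  split_ifs at h1 h2 <;> omega

theorem edge_rel {k i b : ℕ} (hb : b ≤ k) : Rel (2 * k + 4) k (edge k i b) := by
  unfold Rel
  rw [Fin.lt_def, edge_fst hb, edge_snd hb]
  unfold e1 e2
  split_ifs <;> omega

theorem getD_lt {D : List ℕ} (hD : D.Pairwise (· < ·)) {i j : ℕ} (hij : i < j)
    (hj : j < D.length) : D.getD i 0 < D.getD j 0 := by
  rw [List.getD_eq_getElem _ _ (by omega), List.getD_eq_getElem _ _ hj]
  exact (List.pairwise_iff_getElem.1 hD) i j (by omega) hj hij

theorem getD_mem {D : List ℕ} {i : ℕ} (hi : i < D.length) : D.getD i 0 ∈ D := by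
  rw [List.getD_eq_getElem _ _ hi]
  exact List.getElem_mem hi

theorem getD_erase (D : List ℕ) (j : Fin 6) (r : Fin 5) :
    (D.eraseIdx j).getD r 0 = D.getD (j.succAbove r : Fin 6) 0 := by
  rw [List.getD_eq_getElem?_getD, List.getD_eq_getElem?_getD, List.getElem?_eraseIdx]
  by_cases h : (r : ℕ) < j
  · rw [if_pos h, Fin.succAbove_of_castSucc_lt _ _ (by rw [Fin.lt_def]; simpa using h)]
    rfl
  · rw [if_neg h, Fin.succAbove_of_le_castSucc _ _ (by rw [Fin.le_def]; simpa using h)]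
    rfl

theorem config_redWords_spec : ∀ q ∈ redWords, q.length = 6 ∧ ∀ i ∈ q, i < 3 := by
  decide

end Cfg

open Cfg in
theorem exists_config (k : ℕ) (hk : 1 ≤ k) (p : Fin (2 * k + 4) × Fin (2 * k + 4) →
    (Fin (k * (2 * k + 4 - 2 * k - 1)) → ℝ)) (hp : Placed k p) :
    ∃ z : ℕ → ℕ → Fin 5 → ℝ, Config k z := by
  obtain ⟨x, hx⟩ := gale k hk p hp
  obtain ⟨y, hy0, hy1, hy2⟩ := perturb x
  refine ⟨fun b i ↦ y (edge k i b), ⟨?_, ?_⟩⟩
  · intro D q hD hDp hDk hq hq3
    unfold bra2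
    apply hy0 (fun r : Fin 5 ↦ edge k (q.getD r 0) (D.getD r 0))
    intro r r' hrr
    have hr : (r : ℕ) < D.length := by rw [hD]; exact r.2
    have hr' : (r' : ℕ) < D.length := by rw [hD]; exact r'.2
    have h := (edge_inj (hDk _ (getD_mem hr)) (hDk _ (getD_mem hr'))
      (hq3 _ (getD_mem (by rw [hq]; exact r.2))) (hq3 _ (getD_mem (by rw [hq]; exact r'.2))) hrr).2
    apply Fin.ext
    rcases lt_trichotomy (r : ℕ) r' with h1 | h1 | h1
    · have := getD_lt hDp h1 hr'
      omega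
    · exact h1
    · have := getD_lt hDp h1 hr
      omega
  · intro D hD hDp hDk q hq j hj
    obtain ⟨hq6, hq3⟩ := config_redWords_spec q hq
    have hbk : ∀ j : Fin 6, D.getD j 0 ≤ k := fun j ↦
      hDk _ (getD_mem (by rw [hD]; exact j.2))
    have hq3' : ∀ j : Fin 6, q.getD j 0 < 3 := fun j ↦
      hq3 _ (getD_mem (by rw [hq6]; exact j.2))
    have hb : StrictMono fun j : Fin 6 ↦ D.getD j 0 := fun i j hij ↦
      getD_lt hDp hij (by rw [hD]; exact j.2)
    have key := hx (fun j : Fin 6 ↦ edge k (q.getD j 0) (D.getD j 0))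
      (fun i j hij ↦ hb.injective (edge_inj (hbk i) (hbk j) (hq3' i) (hq3' j) hij).2)
      (fun j ↦ edge_rel (hbk j))
      (by
        rintro S hS hjS ⟨T, hTS, hTc, hTx⟩
        obtain ⟨u, v, huv, hv, hT⟩ := clique_omits k T (fun e he ↦ hS e (hTS he)) hTc hTx
        obtain ⟨j, hj⟩ := red_hit k q hq (fun j : Fin 6 ↦ D.getD j 0) hb hbk u v huv hv
        obtain ⟨e, heT, he1, he2⟩ := hT _ _ (hbk j) (hq3' j) hj
        apply hjS j
        rw [← edge_ext (hbk j) he1 he2]
        exact hTS heT)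
      (by
        intro m S hS hCF
        obtain ⟨u, v, huv, hv, hav⟩ := red_avoid k q hq (fun j : Fin 6 ↦ D.getD j 0) hb hbk m
        obtain ⟨T, hTc, hTr, hTx, hT⟩ := clique_exists k u v huv hv
        refine hCF ⟨T, fun f hf ↦ hS f (hTr f hf) (fun j hjm hfe ↦ ?_), hTc, hTx⟩
        refine hav j hjm (hT f hf _ _ (hbk j) (hq3' j) ?_ ?_)
        · rw [hfe, edge_fst (hbk j)]
        · rw [hfe, edge_snd (hbk j)])
    have hdet : ∀ j : Fin 6, bra2 (fun b i ↦ y (edge k i b)) (D.eraseIdx j) (q.eraseIdx j) =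
        Matrix.det (Matrix.of fun r : Fin 5 ↦
          y ((fun j : Fin 6 ↦ edge k (q.getD j 0) (D.getD j 0)) (j.succAbove r))) := by
      intro j
      unfold bra2
      congr 2
      funext r
      rw [getD_erase, getD_erase]
    have h1 := hdet ⟨j, by omega⟩
    have h2 := hdet ⟨j + 1, by omega⟩
    simp only at h1 h2
    rw [h1, h2]
    have hsgn : ∀ j : Fin 6, ∀ c : ℝ, (-1 : ℝ) ^ (j : ℕ) * c = if (j : ℕ) % 2 = 0 then c else -c := by
      intro j c
      split_ifs with h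
      · rw [Even.neg_one_pow (Nat.even_iff.2 h), one_mul]
      · rw [Odd.neg_one_pow (Nat.odd_iff.2 (by omega)), neg_one_mul]
    rcases key with key | key
    · have k1 := key ⟨j, by omega⟩
      have k2 := key ⟨j + 1, by omega⟩
      rw [hsgn] at k1 k2
      simp only at k1 k2
      by_cases hpar : j % 2 = 0
      · rw [if_pos hpar] at k1
        rw [if_neg (by omega)] at k2
        have l1 := hy1 _ k1
        have l2 := hy2 _ (neg_pos.1 k2)
        exact ⟨fun _ ↦ not_lt.2 l2.le, fun _ ↦ l1⟩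
      · rw [if_neg hpar] at k1
        rw [if_pos (by omega)] at k2
        have l1 := hy2 _ (neg_pos.1 k1)
        have l2 := hy1 _ k2
        exact ⟨fun h ↦ absurd h (not_lt.2 l1.le), fun h ↦ absurd l2 h⟩
    · have k1 := key ⟨j, by omega⟩
      have k2 := key ⟨j + 1, by omega⟩
      rw [hsgn] at k1 k2
      simp only at k1 k2
      by_cases hpar : j % 2 = 0
      · rw [if_pos hpar] at k1
        rw [if_neg (by omega)] at k2
        have l1 := hy2 _ k1
        have l2 := hy1 _ (neg_neg_iff_pos.1 k2)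
        exact ⟨fun h ↦ absurd h (not_lt.2 l1.le), fun h ↦ absurd l2 h⟩
      · rw [if_neg hpar] at k1
        rw [if_pos (by omega)] at k2
        have l1 := hy1 _ (neg_neg_iff_pos.1 k1)
        have l2 := hy2 _ k2
        exact ⟨fun _ ↦ not_lt.2 l2.le, fun _ ↦ l1⟩

end Pool.Agent.Lib.MP_c27c22_co
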