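import Pool.Agent.Lib.MP_c27c22_co.Data

/-!
# No homogeneous configuration exists

Soundness of the certificate checker, and the final contradiction.
-/

set_option autoImplicit false

namespace Pool.Agent.Lib.MP_c27c22_co

/-! ### Refutation trees -/

theorem litF_sound (V : ℕ → Prop) (T F : ℕ) (hT : ∀ i, T.testBit i = true → V i)
    (hF : ∀ i, F.testBit i = true → ¬ V i) (l : ℕ × Bool) (h : litF T F l = true)
    (hl : V l.1 ↔ l.2 = true) : False := by
  obtain ⟨i, b⟩ := l
  cases b with
  | true =>
    simp only [litF, if_true] at h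
    exact hF i h (hl.2 rfl)
  | false =>
    simp only [litF, Bool.false_eq_true, if_false] at h
    have := hl.1 (hT i h)
    simp at this

theorem testBit_set (T v i : ℕ) (h : (T ||| (1 <<< v)).testBit i = true) :
    T.testBit i = true ∨ i = v := by
  rw [Nat.testBit_or, Bool.or_eq_true] at h
  rcases h with h | h
  · exact Or.inl h
  · right
    rw [Nat.one_shiftLeft, Nat.testBit_two_pow] at h
    simpa using (of_decide_eq_true h).symm

theorem walk_sound (V : ℕ → Prop) (cls : List (List (ℕ × Bool) × Cert))
    (hc : ∀ c ∈ cls, ∃ l ∈ c.1, (V l.1 ↔ l.2 = true)) :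
    ∀ (t : Tr) (T F : ℕ), (∀ i, T.testBit i = true → V i) →
      (∀ i, F.testBit i = true → ¬ V i) → walk cls t T F = true → False := by
  have hset : ∀ (v : ℕ) (b : Bool) (T F : ℕ), (∀ i, T.testBit i = true → V i) →
      (∀ i, F.testBit i = true → ¬ V i) → (V v ↔ b = true) →
      (∀ i, (setT v b T).testBit i = true → V i) ∧
      (∀ i, (setF v b F).testBit i = true → ¬ V i) := by
    intro v b T F hT hF hv
    cases b with
    | true =>
      simp only [setT, setF, if_true]
      refine ⟨fun i hi ↦ ?_, hF⟩
      rcases testBit_set T v i hi with h | h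
      · exact hT i h
      · rw [h]; exact hv.2 rfl
    | false =>
      simp only [setT, setF, Bool.false_eq_true, if_false]
      refine ⟨hT, fun i hi ↦ ?_⟩
      rcases testBit_set F v i hi with h | h
      · exact hF i h
      · rw [h]
        intro hV
        have := hv.1 hV
        simp at this
  intro t
  induction t with
  | confl c =>
    intro T F hT hF h
    unfold walk at h
    split at h
    · simp at h
    · rename_i c' hc'
      have hm : c' ∈ cls := List.mem_of_getElem? hc'
      obtain ⟨l, hl, hV⟩ := hc c' hm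
      exact litF_sound V T F hT hF l (List.all_eq_true.1 h l hl) hV
  | unit c v b t ih =>
    intro T F hT hF h
    unfold walk at h
    split at h
    · simp at h
    · rename_i c' hc'
      have hm : c' ∈ cls := List.mem_of_getElem? hc'
      rw [Bool.and_eq_true] at h
      obtain ⟨l, hl, hV⟩ := hc c' hm
      have h1 := List.all_eq_true.1 h.1 l hl
      rw [Bool.or_eq_true] at h1
      rcases h1 with h1 | h1
      · rw [Bool.and_eq_true, beq_iff_eq, beq_iff_eq] at h1
        rw [h1.1, h1.2] at hV
        obtain ⟨hT', hF'⟩ := hset v b T F hT hF hV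
        exact ih _ _ hT' hF' h.2
      · exact litF_sound V T F hT hF l h1 hV
  | split v t t' ih ih' =>
    intro T F hT hF h
    unfold walk at h
    rw [Bool.and_eq_true] at h
    by_cases hV : V v
    · obtain ⟨hT', hF'⟩ := hset v true T F hT hF (by simp [hV])
      exact ih _ _ hT' hF' h.1
    · obtain ⟨hT', hF'⟩ := hset v false T F hT hF (by simp [hV])
      exact ih' _ _ hT' hF' h.2

/-! ### Certificates -/

/-- sign of a pattern -/
noncomputable def sg (χ : List ℕ → Prop) (π : List ℕ) : ℝ :=
  open Classical in if χ π then 1 else -1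

theorem sg_sq (χ : List ℕ → Prop) (π : List ℕ) : sg χ π * sg χ π = 1 := by
  unfold sg; split <;> norm_num

theorem par_sound (χ : List ℕ → Prop) (items : List (List ℕ × Bool))
    (H : ∀ k b, k.length = 5 → look k items = some b → (χ k ↔ b = true)) :
    ∀ (n : ℕ) (L : List (List ℕ)) (c : Bool), (∀ π ∈ L, π.length = 5) →
      par items n L = some c → (L.map (sg χ)).prod = if c then -1 else 1 := by
  intro n
  induction n with
  | zero =>
    intro L c _ h
    cases L with
    | nil =>
      simp only [par, Option.some.injEq] at h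
      subst h
      simp
    | cons a l => simp [par] at h
  | succ n ih =>
    intro L c hL h
    cases L with
    | nil =>
      simp only [par, Option.some.injEq] at h
      subst h
      simp
    | cons π rest =>
      unfold par at h
      split at h
      · rename_i b hb
        rw [Option.map_eq_some_iff] at h
        obtain ⟨c', hc', hcc⟩ := h
        have h1 := ih rest c' (fun x hx ↦ hL x (List.mem_cons_of_mem _ hx)) hc'
        have h2 := H π b (hL π List.mem_cons_self) hb
        rw [List.map_cons, List.prod_cons, h1, ← hcc]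
        unfold sg
        cases b with
        | true =>
          rw [if_pos (h2.2 rfl)]
          cases c' <;> simp
        | false =>
          have : ¬ χ π := fun h ↦ by simpa using h2.1 h
          rw [if_neg this]
          cases c' <;> simp
      · split at h
        · rename_i hm
          have h1 := ih (rest.erase π) c
            (fun x hx ↦ hL x (List.mem_cons_of_mem _ (List.mem_of_mem_erase hx))) h
          rw [List.map_cons, List.prod_cons]
          have hp : (rest.map (sg χ)).Perm ((π :: rest.erase π).map (sg χ)) :=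
            (List.perm_cons_erase hm).map _
          rw [hp.prod_eq, List.map_cons, List.prod_cons, ← mul_assoc, sg_sq, one_mul, h1]
        · simp at h

theorem alphas_spec : ∀ α ∈ alphas, ∀ i < 3, α.length = 3 ∧
    (tl α i).length = 5 ∧ (tr α i).length = 5 ∧ ∀ o < 8,
    ((tl α i).map (skip o)).Pairwise (· < ·) ∧ ((tr α i).map (skip o)).Pairwise (· < ·) ∧
    (∀ d ∈ (tl α i).map (skip o), d < 8) ∧ (∀ d ∈ (tr α i).map (skip o), d < 8) := by
  decide +kernel

theorem bra_skip (u : ℕ → Fin 5 → ℝ) (o : ℕ) (P : List ℕ) (hP : P.length = 5) :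
    bra (fun d ↦ u (skip o d)) P = bra u (P.map (skip o)) := by
  unfold bra
  congr 1
  ext r c
  simp only [Matrix.of_apply]
  have hr : (r : ℕ) < P.length := by rw [hP]; exact r.2
  rw [List.getD_eq_getElem _ _ hr, List.getD_eq_getElem _ _ (by simpa using hr)]
  simp

section LP

variable {y : ℕ → ℕ → Fin 5 → ℝ} {χ : List ℕ → Prop}
  {κ : List ℕ → List ℕ → ℕ → ℕ → Prop}

/-- the vectors of a word -/
def wvec (y : ℕ → ℕ → Fin 5 → ℝ) (W : List ℕ) : ℕ → Fin 5 → ℝ := fun d ↦ y d (W.getD d 0)

theorem bra_sg (h : Homog y χ κ) (W B : List ℕ) (hW : W.length = 8) (hW' : ∀ i ∈ W, i < 3)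
    (hB : B.length = 5) (hB' : B.Pairwise (· < ·)) (hB'' : ∀ d ∈ B, d < 8) :
    bra (wvec y W) B = sg χ (B.map fun d ↦ W.getD d 0) * |bra (wvec y W) B| ∧
      bra (wvec y W) B ≠ 0 := by
  have h1 := h.nz W B hW hW' hB hB' hB''
  have h2 := h.sg W B hW hW' hB hB' hB''
  refine ⟨?_, h1⟩
  unfold sg
  by_cases hx : χ (B.map fun d ↦ W.getD d 0)
  · rw [if_pos hx]
    have : 0 < bra (wvec y W) B := h2.2 hx
    rw [abs_of_pos this, one_mul]
  · rw [if_neg hx]
    have : ¬ 0 < bra (wvec y W) B := fun h ↦ hx (h2.1 h)
    rw [abs_of_nonpos (not_lt.1 this)]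
    ring

/-- `log |bracket|` -/
noncomputable def lg (y : ℕ → ℕ → Fin 5 → ℝ) (W : List ℕ) (B : List ℕ) : ℝ :=
  Real.log |bra (wvec y W) B|

theorem val_five (k : List ℕ) (hk : k.length = 5) : val χ κ k ↔ χ k := by
  unfold val; rw [if_pos hk]

theorem val_cmp (Q α : List ℕ) (i j : ℕ) (hQ : Q.length = 7) (hα : α.length = 3) :
    val χ κ (Q ++ α ++ [i, j]) ↔ κ Q α i j := by
  unfold val
  match Q, hQ, α, hα with
  | [_, _, _, _, _, _, _], _, [_, _, _], _ => simp

theorem abs_lt_abs_add {x z : ℝ} (h : 0 < x * z) : |x| < |x + z| := by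
  rcases pos_and_pos_or_neg_and_neg_of_mul_pos h with ⟨h1, h2⟩ | ⟨h1, h2⟩
  · rw [abs_of_pos h1, abs_of_pos (by linarith)]; linarith
  · rw [abs_of_neg h1, abs_of_neg (by linarith)]; linarith

theorem strict_of (t : ℕ → ℝ) (hgp : t 0 - t 1 + t 2 = 0) (h0 : ∀ i < 3, t i ≠ 0)
    (lo hi : ℕ) (hlo : lo < 3) (hhi : hi < 3) (hne : lo ≠ hi) (c : Bool)
    (hc : c = !(hi == 1))
    (hs : t lo * t (3 - lo - hi) = (if c then -1 else 1) * (|t lo| * |t (3 - lo - hi)|)) :
    |t lo| < |t hi| := by
  have p0 : 0 < |t 0| := abs_pos.2 (h0 0 (by norm_num))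
  have p1 : 0 < |t 1| := abs_pos.2 (h0 1 (by norm_num))
  have p2 : 0 < |t 2| := abs_pos.2 (h0 2 (by norm_num))
  have p01 := mul_pos p0 p1
  have p02 := mul_pos p0 p2
  have p12 := mul_pos p1 p2
  have p10 := mul_pos p1 p0
  have p20 := mul_pos p2 p0
  have p21 := mul_pos p2 p1
  interval_cases lo <;> interval_cases hi
  · exact absurd rfl hne
  · have hc' : c = false := by simpa using hc
    subst hc'
    norm_num at hs
    have h1 : t 1 = t 0 + t 2 := by linarith
    rw [h1]
    exact abs_lt_abs_add (by rw [hs]; exact p02)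
  · have hc' : c = true := by simpa using hc
    subst hc'
    norm_num at hs
    have h1 : t 2 = -(t 0 + -t 1) := by linarith
    rw [h1, abs_neg]
    exact abs_lt_abs_add (by linarith)
  · have hc' : c = true := by simpa using hc
    subst hc'
    norm_num at hs
    have h1 : t 0 = t 1 + -t 2 := by linarith
    rw [h1]
    exact abs_lt_abs_add (by linarith)
  · exact absurd rfl hne
  · have hc' : c = true := by simpa using hc
    subst hc'
    norm_num at hs
    have h1 : t 2 = t 1 + -t 0 := by linarith
    rw [h1]
    exact abs_lt_abs_add (by linarith)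
  · have hc' : c = true := by simpa using hc
    subst hc'
    norm_num at hs
    have h1 : t 0 = -(t 2 + -t 1) := by linarith
    rw [h1, abs_neg]
    exact abs_lt_abs_add (by linarith)
  · have hc' : c = false := by simpa using hc
    subst hc'
    norm_num at hs
    have h1 : t 1 = t 2 + t 0 := by linarith
    rw [h1]
    exact abs_lt_abs_add (by rw [hs]; exact p20)
  · exact absurd rfl hne

theorem ent_ok (h : Homog y χ κ) (items : List (List ℕ × Bool)) (W : List ℕ)
    (hW : W.length = 8) (hW' : ∀ i ∈ W, i < 3)
    (H : ∀ k b, look k items = some b → (val χ κ k ↔ b = true))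
    (e : Ent) (ho : e.o < 8) (ha : e.α ∈ alphas) (hlo : e.lo < 3) (hhi : e.hi < 3)
    (hok : e.ok items W = true) :
    (e.small.map (lg y W)).sum ≤ (e.big.map (lg y W)).sum ∧
      (e.s = true → (e.small.map (lg y W)).sum < (e.big.map (lg y W)).sum) := by
  obtain ⟨es, o, a, lo, hi⟩ := e
  simp only [Ent.α] at ha ho hlo hhi
  set α := alphas.getD a [0, 1, 2] with hα
  -- the monomials
  have key : ∀ i < 3,
      trm (fun d ↦ y (skip o d) (W.getD (skip o d) 0)) α i =
        (sg χ (pat W o (tl α i)) * sg χ (pat W o (tr α i))) *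
          |trm (fun d ↦ y (skip o d) (W.getD (skip o d) 0)) α i| ∧
      Real.log |trm (fun d ↦ y (skip o d) (W.getD (skip o d) 0)) α i| =
        lg y W ((tl α i).map (skip o)) + lg y W ((tr α i).map (skip o)) ∧
      trm (fun d ↦ y (skip o d) (W.getD (skip o d) 0)) α i ≠ 0 := by
    intro i hi
    obtain ⟨hl3, hl, hr, hh⟩ := alphas_spec α ha i hi
    obtain ⟨h1, h2, h3, h4⟩ := hh o ho
    obtain ⟨sl, nl⟩ := bra_sg h W ((tl α i).map (skip o)) hW hW' (by simpa using hl) h1 h3
    obtain ⟨sr, nr⟩ := bra_sg h W ((tr α i).map (skip o)) hW hW' (by simpa using hr) h2 h4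
    have e1 : bra (fun d ↦ y (skip o d) (W.getD (skip o d) 0)) (tl α i) =
        bra (wvec y W) ((tl α i).map (skip o)) := bra_skip (wvec y W) o _ hl
    have e2 : bra (fun d ↦ y (skip o d) (W.getD (skip o d) 0)) (tr α i) =
        bra (wvec y W) ((tr α i).map (skip o)) := bra_skip (wvec y W) o _ hr
    have p1 : pat W o (tl α i) = ((tl α i).map (skip o)).map fun d ↦ W.getD d 0 := by
      unfold pat; rw [List.map_map]; rfl
    have p2 : pat W o (tr α i) = ((tr α i).map (skip o)).map fun d ↦ W.getD d 0 := by
      unfold pat; rw [List.map_map]; rfl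
    refine ⟨?_, ?_, ?_⟩
    · unfold trm
      rw [e1, e2, abs_mul, p1, p2]
      conv_lhs => rw [sl, sr]
      ring
    · unfold trm lg
      rw [e1, e2, abs_mul, Real.log_mul (abs_ne_zero.2 nl) (abs_ne_zero.2 nr)]
    · unfold trm
      rw [e1, e2]
      exact mul_ne_zero nl nr
  set t : ℕ → ℝ := fun i ↦ trm (fun d ↦ y (skip o d) (W.getD (skip o d) 0)) α i with ht
  have hsmall : ((Ent.mk es o a lo hi).small.map (lg y W)).sum = Real.log |t lo| := by
    rw [(key lo hlo).2.1]
    simp [Ent.small, Ent.α, hα]
  have hbig : ((Ent.mk es o a lo hi).big.map (lg y W)).sum = Real.log |t hi| := by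
    rw [(key hi hhi).2.1]
    simp [Ent.big, Ent.α, hα]
  rw [hsmall, hbig]
  have hplo : 0 < |t lo| := abs_pos.2 (key lo hlo).2.2
  unfold Ent.ok at hok
  rw [Bool.and_eq_true] at hok
  obtain ⟨hne', hok⟩ := hok
  have hne : lo ≠ hi := by simpa using hne'
  have hmid : 3 - lo - hi < 3 := by omega
  cases es with
  | true =>
    simp only [if_true, Ent.α, ← hα] at hok
    split at hok
    · simp at hok
    · rename_i c hc
      have hlt : |t lo| < |t hi| := by
        have hlen : ∀ i < 3, (pat W o (tl α i)).length = 5 ∧ (pat W o (tr α i)).length = 5 := by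
          intro i hi
          obtain ⟨_, hl, hr, _⟩ := alphas_spec α ha i hi
          exact ⟨by simpa [pat] using hl, by simpa [pat] using hr⟩
        have hp := par_sound χ items
          (fun k b hk hb ↦ (val_five k hk).symm.trans (H k b hb)) 4 _ c (by
            intro π hπ
            simp only [List.mem_cons, List.not_mem_nil, or_false] at hπ
            rcases hπ with hπ | hπ | hπ | hπ <;> rw [hπ]
            · exact (hlen lo hlo).1
            · exact (hlen lo hlo).2
            · exact (hlen _ hmid).1
            · exact (hlen _ hmid).2) hc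
        simp only [List.map_cons, List.map_nil, List.prod_cons, List.prod_nil, mul_one] at hp
        refine strict_of t (gp_trm _ α ha) (fun i hi ↦ (key i hi).2.2) lo hi hlo hhi hne c
          (by simpa using hok) ?_
        rw [← hp]
        conv_lhs => rw [ht]
        simp only
        rw [(key lo hlo).1, (key _ hmid).1]
        simp only [ht]
        ring
      exact ⟨(Real.log_lt_log hplo hlt).le, fun _ ↦ Real.log_lt_log hplo hlt⟩
  | false =>
    simp only [Bool.false_eq_true, if_false, Ent.α, ← hα] at hok
    have hle : |t lo| ≤ |t hi| := by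
      have hQ : (W.eraseIdx o).length = 7 := by
        rw [List.length_eraseIdx_of_lt (by omega), hW]
      have hα3 : α.length = 3 := (alphas_spec α ha 0 (by norm_num)).1
      rw [Bool.or_eq_true] at hok
      rcases hok with hok | hok
      · have h1 := (H _ _ (show look (W.eraseIdx o ++ α ++ [lo, hi]) items = some true from
          beq_iff_eq.1 hok)).2 rfl
        rw [val_cmp _ _ _ _ hQ hα3] at h1
        exact (h.cmp W o α lo hi hW hW' ho ha hlo hhi).2 h1
      · have h1 := H _ _ (show look (W.eraseIdx o ++ α ++ [hi, lo]) items = some false from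
          beq_iff_eq.1 hok)
        rw [val_cmp _ _ _ _ hQ hα3] at h1
        have h2 : ¬ κ (W.eraseIdx o) α hi lo := fun hx ↦ by simpa using h1.1 hx
        have h3 := (h.cmp W o α hi lo hW hW' ho ha hhi hlo).not.2 h2
        exact (not_le.1 h3).le
    exact ⟨Real.log_le_log hplo hle, fun h ↦ by simp at h⟩

theorem sums (f : List ℕ → ℝ) : ∀ E : List Ent,
    (∀ e ∈ E, (e.small.map f).sum ≤ (e.big.map f).sum) →
    (((E.flatMap Ent.small).map f).sum ≤ ((E.flatMap Ent.big).map f).sum ∧
      ((∃ e ∈ E, (e.small.map f).sum < (e.big.map f).sum) →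
        ((E.flatMap Ent.small).map f).sum < ((E.flatMap Ent.big).map f).sum)) := by
  intro E
  induction E with
  | nil =>
    intro _
    simp
  | cons e E ih =>
    intro hE
    obtain ⟨h1, h2⟩ := ih fun x hx ↦ hE x (List.mem_cons_of_mem _ hx)
    have he := hE e List.mem_cons_self
    simp only [List.flatMap_cons, List.map_append, List.sum_append]
    refine ⟨add_le_add he h1, ?_⟩
    rintro ⟨x, hx, hx'⟩
    rcases List.mem_cons.1 hx with rfl | hx
    · exact add_lt_add_of_lt_of_le hx' h1
    · exact add_lt_add_of_le_of_lt he (h2 ⟨x, hx, hx'⟩)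

theorem lp_sound (h : Homog y χ κ) (items : List (List ℕ × Bool))
    (H : ∀ k b, look k items = some b → (val χ κ k ↔ b = true))
    (W es : List ℕ) (hok : lpOK items W es = true) : False := by
  unfold lpOK at hok
  simp only [Bool.and_eq_true, beq_iff_eq, List.all_eq_true] at hok
  obtain ⟨⟨⟨⟨hW, hW'⟩, hall⟩, hany⟩, hperm⟩ := hok
  have hW'' : ∀ i ∈ W, i < 3 := fun i hi ↦ by
    have := hW' i hi
    exact by simpa [Nat.blt_eq] using this
  have hent : ∀ e ∈ es.map dec, ((e.small.map (lg y W)).sum ≤ (e.big.map (lg y W)).sum ∧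
      (e.s = true → (e.small.map (lg y W)).sum < (e.big.map (lg y W)).sum)) := by
    intro e he
    obtain ⟨n, _, rfl⟩ := List.mem_map.1 he
    refine ent_ok h items W hW hW'' H (dec n) ?_ ?_ ?_ ?_ (hall _ he)
    · exact Nat.mod_lt _ (by norm_num)
    · have hlt : n / 16 % 35 < 35 := Nat.mod_lt _ (by norm_num)
      show alphas.getD (n / 16 % 35) [0, 1, 2] ∈ alphas
      rw [List.getD_eq_getElem _ _ (by simpa [alphas] using hlt)]
      exact List.getElem_mem _
    · exact Nat.mod_lt _ (by norm_num)
    · exact Nat.mod_lt _ (by norm_num)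
  have hs := (sums (lg y W) (es.map dec) fun e he ↦ (hent e he).1).2 (by
    obtain ⟨e, he, hes⟩ := List.any_eq_true.1 hany
    exact ⟨e, he, (hent e he).2 hes⟩)
  have hp := ((List.isPerm_iff.1 hperm).map (lg y W)).sum_eq
  linarith

theorem look_mem (k : List ℕ) (b : Bool) : ∀ items : List (List ℕ × Bool),
    look k items = some b → (k, b) ∈ items := by
  intro items
  induction items with
  | nil => intro h; simp [look] at h
  | cons x l ih =>
    obtain ⟨k', b'⟩ := x
    intro h
    unfold look at h
    split at h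
    · rename_i hk
      simp only [Option.some.injEq] at h
      subst hk; subst h
      exact List.mem_cons_self
    · exact List.mem_cons_of_mem _ (ih h)

theorem clause_sound (h : Homog y χ κ) (h0 : χ [0, 1, 2, 0, 1]) (ks : List (List ℕ))
    (c : List (ℕ × Bool) × Cert) (hc : clauseOK ks c = true) :
    ∃ l ∈ c.1, (val χ κ (ks.getD l.1 []) ↔ l.2 = true) := by
  by_contra hcon
  push Not at hcon
  have H : ∀ k b, look k (c.1.map fun l ↦ (ks.getD l.1 [], !l.2)) = some b →
      (val χ κ k ↔ b = true) := by
    intro k b hk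
    have hm := look_mem k b _ hk
    obtain ⟨l, hl, hlk⟩ := List.mem_map.1 hm
    simp only [Prod.mk.injEq] at hlk
    obtain ⟨h1, h2⟩ := hlk
    have h3 := hcon l hl
    rw [h1] at h3
    rw [← h2]
    obtain ⟨_, b'⟩ := l
    cases b' with
    | true =>
      simp only [Bool.not_true, Bool.false_eq_true, iff_false]
      simp only at h3
      rcases h3 with ⟨_, h4⟩ | ⟨h4, _⟩
      · simp at h4
      · exact h4
    | false =>
      simp only [Bool.not_false, iff_true]
      simp only [Bool.false_eq_true] at h3
      rcases h3 with ⟨h4, _⟩ | ⟨_, h4⟩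
      · exact h4
      · simp at h4
  unfold clauseOK at hc
  split at hc
  · -- fix
    have h1 := H [0, 1, 2, 0, 1] false (by simpa using hc)
    rw [val_five _ rfl] at h1
    exact absurd (h1.1 h0) (by simp)
  · -- red
    rename_i q j hq
    simp only [Bool.and_eq_true] at hc
    obtain ⟨hj, hc⟩ := hc
    have hj : j < 5 := by simpa [Nat.blt_eq] using hj
    have hw : redWords.getD q [0, 1, 0, 2, 1, 0] ∈ redWords := by
      by_cases hq : q < redWords.length
      · rw [List.getD_eq_getElem _ _ hq]
        exact List.getElem_mem _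
      · rw [List.getD_eq_default _ _ (not_lt.1 hq)]
        decide
    have hlen : ∀ w ∈ redWords, w.length = 6 := by decide
    set w := redWords.getD q [0, 1, 0, 2, 1, 0]
    have h6 := hlen w hw
    split at hc
    · rename_i b b' hb hb'
      have e1 := H _ _ hb
      have e2 := H _ _ hb'
      rw [val_five _ (by rw [List.length_eraseIdx_of_lt (by omega), h6])] at e1
      rw [val_five _ (by rw [List.length_eraseIdx_of_lt (by omega), h6])] at e2
      have hbb : b = b' := by simpa using hc
      have h3 := h.red w hw j hj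
      rw [e1, e2, hbb] at h3
      exact iff_not_self h3
    · simp at hc
  · exact lp_sound h _ H _ _ hc

end LP

theorem clauses_ok : clauses.all (clauseOK keys) = true := by decide +kernel

theorem walk_ok : walk clauses tree 0 0 = true := by decide +kernel

/-- there is no homogeneous configuration -/
theorem core (y : ℕ → ℕ → Fin 5 → ℝ) (χ : List ℕ → Prop)
    (κ : List ℕ → List ℕ → ℕ → ℕ → Prop) (h : Homog y χ κ) (h0 : χ [0, 1, 2, 0, 1]) :
    False := by
  refine walk_sound (fun i ↦ val χ κ (keys.getD i [])) clauses (fun c hc ↦ ?_) tree 0 0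
    (fun i hi ↦ ?_) (fun i hi ↦ ?_) walk_ok
  · exact clause_sound h h0 keys c (List.all_eq_true.1 clauses_ok c hc)
  · simp at hi
  · simp at hi

end Pool.Agent.Lib.MP_c27c22_co
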