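import Pool.Agent.Lib.MP_c27c22_co.Check

set_option autoImplicit false

namespace Pool.Agent.Lib.MP_c27c22_co

/-- the variables -/
def keys : List (List ℕ) :=
  [[2,1,0,1,2,0,1,0,2,6,1,2],
   [2,0,1,2,1,0,1,1,3,6,0,1],
   [2,1,0,2,1],
   [2,1,0,1,2],
   [2,1,0,0,1],
   [2,0,1,2,1],
   [2,0,1,1,0],
   [0,1,2,1,0],
   [0,1,2,0,1],
   [0,1,2,1,1],
   [2,0,1,2,0],
   [2,0,2,1,0],
   [2,0,2,1,1],
   [2,1,0,1,0],
   [2,1,0,1,1],
   [2,1,0,1,1,2,1,0,1,2,0,2],
   [2,0,0,1,2],
   [2,0,0,2,1],
   [2,0,1,0,1],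
   [2,0,1,1,2],
   [2,1,1,2,1],
   [2,0,1,0,1,2,1,0,2,3,0,2],
   [0,1,0,1,2,1,0,4,5,6,0,2],
   [1,0,2,1,0],
   [1,0,1,2,0],
   [0,2,1,2,0],
   [0,1,1,1,0],
   [0,1,2,2,0],
   [0,2,1,1,0],
   [0,2,2,1,0],
   [0,1,0,2,1,2,0,3,5,6,0,2],
   [1,2,1,1,0,1,2,4,5,6,0,2],
   [2,1,1,1,2],
   [1,2,1,0,2],
   [1,0,1,1,2],
   [1,0,0,1,2],
   [1,0,1,0,2],
   [1,1,0,1,2],
   [1,2,0,0,2],
   [1,2,1,0,1,1,2,3,5,6,0,2],
   [2,1,2,1,0,1,2,4,5,6,0,2],
   [2,1,1,0,1],
   [1,2,0,1,2],
   [0,2,1,0,1],
   [0,1,0,1,2],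
   [0,1,1,0,1],
   [1,2,1,0,1],
   [2,0,1,2,1,0,1,1,5,6,0,2],
   [2,1,1,0,1,2,1,0,1,3,0,2],
   [2,0,1,0,2],
   [0,1,1,2,0],
   [0,1,2,0,2],
   [2,0,2,0,2],
   [2,1,0,0,2],
   [1,0,1,1,2,0,2,1,5,6,0,2],
   [2,0,1,1,2,0,2,0,1,5,0,2],
   [1,0,1,1,2,1,0,4,5,6,0,2],
   [1,0,1,1,0],
   [1,0,2,2,0],
   [1,1,2,1,0],
   [1,2,1,2,0],
   [1,2,2,1,0],
   [1,0,1,2,1,2,0,3,4,6,0,2],
   [2,1,0,1,2,1,2,0,1,2,0,2],
   [2,1,1,0,2],
   [2,0,1,0,2,1,2,0,1,3,0,2],
   [2,1,0,1,1,1,2,0,2,6,0,2],
   [2,0,2,1,2],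
   [2,0,1,2,2],
   [1,2,1,1,2],
   [1,2,1,0,1,0,2,3,4,6,0,2],
   [0,1,1,0,2,1,0,0,1,4,0,2],
   [0,1,0,1,2,1,0,1,4,6,1,2],
   [1,1,1,2,0],
   [0,1,0,2,0],
   [0,1,0,2,1],
   [1,1,0,2,0],
   [1,1,0,2,1],
   [0,1,2,1,1,0,1,0,1,2,0,2],
   [0,1,1,2,1],
   [0,1,2,2,1],
   [0,2,1,2,1],
   [0,2,2,0,1],
   [0,1,1,2,1,0,1,0,1,3,0,2],
   [1,0,1,2,1],
   [1,0,1,2,1,0,2,0,1,5,0,2],
   [2,2,1,2,0,1,1,4,5,6,0,2],
   [0,2,1,2,0,1,1,0,4,6,0,2],
   [2,2,0,1,1],
   [2,0,0,1,1],
   [0,2,0,1,1],
   [2,1,2,0,1],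
   [2,1,1,0,1,2,1,0,5,6,0,2],
   [2,1,0,1,0,1,2,0,2,6,0,2],
   [0,1,1,1,2,1,0,0,4,6,0,2],
   [0,0,1,2,0],
   [2,1,0,1,1,1,1,0,1,2,0,2],
   [2,0,1,1,1],
   [2,0,1,1,1,2,1,0,1,5,0,2],
   [2,1,0,1,2,1,2,0,2,6,1,2],
   [2,1,1,0,1,1,2,0,3,5,0,2],
   [2,1,1,0,2,1,2,0,1,3,0,2],
   [2,1,2,0,2],
   [2,1,1,2,0],
   [2,1,0,2,2],
   [2,1,1,2,0,1,2,0,1,4,0,2],
   [2,1,2,0,1,0,2,3,5,6,0,2],
   [2,1,0,2,1,1,2,2,5,6,0,2],
   [2,1,0,1,2,1,2,0,2,5,1,2],
   [1,0,2,1,1],
   [1,0,2,1,2],
   [2,2,1,0,1,0,2,3,5,6,0,2],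
   [2,0,1,2,2,0,1,0,1,5,0,2],
   [2,0,2,2,0],
   [2,0,2,0,1],
   [2,1,1,0,1,1,2,0,2,3,0,2],
   [2,1,1,0,1,0,2,2,3,6,0,2],
   [1,1,0,1,0],
   [2,1,1,0,1,1,2,3,4,6,0,2],
   [1,1,0,1,1],
   [1,2,1,0,1,0,2,1,5,6,0,2],
   [1,2,1,0,1,0,2,0,1,6,0,2],
   [2,0,1,0,1,2,1,0,5,6,0,2],
   [2,0,1,0,1,2,1,0,1,5,0,2],
   [1,0,1,2,1,1,0,0,1,6,0,2],
   [0,1,2,1,2,1,0,0,4,6,0,2],
   [2,1,2,0,1,1,2,3,5,6,0,2],
   [0,2,1,1,2],
   [2,2,0,1,2],
   [0,1,1,2,0,1,0,0,1,3,0,2],
   [0,1,1,0,2],
   [0,1,2,0,0],
   [1,1,1,1,0,1,2,4,5,6,0,2],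
   [1,1,1,0,2],
   [1,2,1,1,1,0,2,1,5,6,0,2],
   [2,2,1,0,1,1,2,3,4,6,0,2],
   [0,1,1,1,1],
   [2,0,1,1,2,1,1,0,1,6,0,1],
   [0,1,1,2,1,1,0,3,4,6,0,2],
   [0,1,1,2,1,1,0,0,2,3,0,2],
   [1,1,2,1,1],
   [1,2,1,1,0],
   [1,0,1,2,1,1,0,3,5,6,0,2],
   [0,0,1,2,1,2,0,3,5,6,0,2],
   [1,2,1,1,1,0,2,0,5,6,0,2],
   [1,1,0,0,2],
   [2,1,1,0,1,2,2,0,2,3,0,2],
   [0,1,1,2,1,2,0,2,3,6,0,2],
   [1,1,2,1,2],
   [0,1,2,1,2],
   [0,1,2,1,0,1,0,0,1,2,0,2],
   [2,1,2,1,0,1,2,1,4,6,1,2],
   [1,1,2,0,1],
   [1,1,2,0,2],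
   [2,0,1,0,1,2,2,0,1,3,0,2],
   [2,1,0,1,1,1,2,0,2,5,0,2],
   [2,1,0,1,1,1,1,0,2,6,0,2],
   [2,1,1,1,0,1,2,0,4,6,0,2],
   [2,2,1,0,2],
   [1,2,1,0,1,1,2,0,1,6,0,2],
   [2,1,0,1,0,1,2,0,4,6,0,2],
   [0,2,1,2,1,1,1,0,5,6,0,2],
   [0,2,1,0,1,1,1,0,1,6,0,2],
   [1,2,1,1,1],
   [0,1,2,0,1,1,1,1,2,6,0,2],
   [2,0,1,1,2,0,1,0,1,5,0,2],
   [0,0,2,1,0],
   [0,0,1,2,1,1,0,3,4,6,0,2],
   [0,1,2,0,1,0,1,0,1,2,0,2],
   [1,2,0,1,0],
   [1,2,0,1,1],
   [2,0,1,0,2,2,2,0,1,3,0,2],
   [2,0,0,2,2],
   [0,1,1,2,1,0,0,0,2,3,0,2],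
   [2,0,0,1,2,1,1,0,1,4,0,2],
   [2,0,0,1,1,2,1,0,1,5,0,2],
   [1,0,1,2,1,2,0,1,5,6,0,2],
   [1,0,1,2,1,2,0,0,1,6,0,2],
   [2,0,1,0,1,1,2,0,3,4,0,2],
   [0,1,0,1,1],
   [1,0,1,2,2,0,2,1,5,6,0,2],
   [0,2,1,0,2],
   [2,1,1,0,2,1,1,0,1,3,0,2],
   [2,1,1,0,1,0,2,3,4,6,0,2],
   [0,1,1,2,0,1,1,0,1,3,0,2],
   [0,1,0,2,1,1,0,3,5,6,0,2],
   [0,2,1,2,1,0,1,0,5,6,0,2],
   [0,2,1,1,1],
   [1,1,1,1,1,2,0,0,5,6,0,2],
   [1,0,1,1,1,2,0,1,5,6,0,2],
   [2,0,1,0,1,1,2,0,2,3,0,2],
   [2,1,1,0,1,2,2,0,1,3,0,2],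
   [0,0,0,2,1,2,0,3,5,6,0,2],
   [0,0,2,2,0],
   [2,0,1,1,1,1,1,0,1,6,0,2],
   [0,1,1,2,1,0,0,0,1,3,0,2],
   [2,1,0,1,2,1,1,0,2,6,1,2],
   [1,0,1,1,1,1,0,0,1,6,0,2],
   [2,1,1,0,1,1,1,0,1,3,0,2],
   [0,1,1,1,2,1,0,4,5,6,0,2],
   [1,1,0,2,1,1,0,3,5,6,0,2],
   [1,1,1,2,1,1,0,3,5,6,0,2],
   [0,1,1,2,1,2,0,3,4,6,0,2],
   [2,2,1,0,1,1,2,3,5,6,0,2],
   [1,1,1,1,2,1,0,4,5,6,0,2],
   [1,1,0,1,2,1,0,4,5,6,0,2],
   [1,1,2,0,1,1,2,3,5,6,0,2],
   [0,1,1,2,0,0,0,0,1,3,0,2],
   [2,0,1,0,1,1,1,0,2,3,0,2],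
   [0,1,1,2,1,0,1,0,5,6,0,2],
   [2,2,2,0,1,0,2,3,5,6,0,2],
   [2,2,0,0,2],
   [1,1,1,2,1,2,0,3,4,6,0,2],
   [0,1,1,2,1,1,1,0,1,3,0,2],
   [1,1,2,1,0,1,2,4,5,6,0,2],
   [1,1,1,0,1,0,2,3,4,6,0,2],
   [1,2,1,1,1,1,2,0,1,6,0,2],
   [2,1,1,1,1,2,1,0,5,6,0,2],
   [2,2,2,2,0,1,1,4,5,6,0,2],
   [0,1,2,1,1,1,1,0,1,2,0,2],
   [2,1,1,0,2,2,2,0,1,3,0,2],
   [0,1,2,1,0,1,1,0,1,2,0,2],
   [0,1,1,1,1,0,1,0,5,6,0,2],
   [1,1,1,1,1,0,2,0,5,6,0,2],
   [1,1,1,0,1,1,2,3,5,6,0,2],
   [2,1,0,1,2,1,1,0,1,2,0,2],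
   [2,2,2,0,1,1,2,3,5,6,0,2],
   [0,2,2,0,2],
   [0,1,2,0,1,1,1,0,1,2,0,2],
   [0,2,1,1,1,1,1,0,1,6,0,2],
   [1,0,1,1,1],
   [2,1,2,1,2],
   [2,1,2,1,1],
   [1,0,1,0,1],
   [1,0,2,0,2],
   [1,1,1,2,1],
   [1,1,1,1,0],
   [1,2,1,2,1],
   [1,1,1,1,2],
   [1,2,0,0,1],
   [1,0,0,1,1],
   [2,1,1,1,1],
   [0,2,0,1,2],
   [1,0,2,0,1],
   [0,1,0,1,0],
   [1,1,1,0,1],
   [1,2,1,0,0],
   [2,0,1,0,0],
   [0,1,1,0,0],
   [1,1,0,0,1],
   [1,2,0,2,0],
   [2,0,0,0,2],
   [2,1,0,2,0],
   [0,2,0,1,0],
   [0,2,0,2,1]]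

/-- the clauses with their certificates -/
def clauses : List (List (ℕ × Bool) × Cert) :=
  [([(0,false),(1,false),(2,false),(3,false),(4,false),(5,false),(6,false),(7,false),(8,false),(9,true),(10,true),(11,true),(12,true),(13,true),(14,true)], .lp [2,1,0,1,2,1,0,1] [1247,867,1923,4058,3369,2018,1211,3469]),
   ([(15,false),(2,false),(3,false),(5,false),(16,true),(17,true),(18,true),(19,true),(4,true),(14,true),(20,true),(21,true)], .lp [2,1,0,1,0,1,2,1] [3368,1247,1202,3499,3027,4115]),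
   ([(22,false),(23,false),(24,false),(25,false),(7,false),(26,false),(27,true),(28,true),(29,true),(30,true)], .lp [0,1,0,2,1,2,1,0] [1660,1489,3910,3589,4053]),
   ([(31,false),(32,false),(3,false),(33,false),(34,false),(35,true),(36,true),(37,true),(38,true),(39,true)], .lp [1,2,1,0,1,0,1,2] [3573,2933,1505,3910,1658]),
   ([(40,false),(41,false),(3,false),(42,false),(43,false),(44,true),(45,true),(37,true),(46,true),(16,true),(18,true),(47,true)], .lp [2,0,1,2,1,0,1,2] [1879,913,1518,1057,3906]),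
   ([(15,false),(32,false),(41,false),(3,false),(5,false),(17,true),(18,true),(4,true),(14,true),(48,true)], .lp [2,1,0,1,0,1,2,1] [1183,3499,1140,3368,3019]),
   ([(6,false),(49,false),(50,true),(51,true),(36,true),(52,true),(53,true),(54,true),(55,true)], .lp [2,1,0,1,1,2,0,2] [1504,3289,2003,1170]),
   ([(56,false),(23,false),(24,false),(7,false),(50,true),(27,true),(57,true),(58,true),(59,true),(60,true),(61,true),(62,true)], .lp [1,0,1,2,1,2,1,0] [3910,4221,1489,3573,1644,2877]),
   ([(63,false),(32,false),(2,false),(3,false),(5,false),(49,false),(16,true),(53,true),(64,true),(65,true)], .lp [2,1,0,1,0,2,1,2] [1247,3435,3368,1138,4139]),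
   ([(63,false),(66,false),(2,false),(3,false),(67,false),(68,false),(5,false),(19,true),(14,true)], .lp [2,1,0,1,1,2,1,2] [3368,649,1747,681,3498]),
   ([(31,false),(3,false),(33,false),(42,false),(35,true),(36,true),(37,true),(38,true),(69,true),(53,true),(64,true),(70,true)], .lp [1,2,1,0,1,0,1,2] [3910,4221,1489,3573,1644,2877]),
   ([(71,false),(72,false),(73,false),(24,false),(74,false),(75,true),(50,true),(76,true),(77,true)], .lp [0,1,1,0,1,2,1,0] [4292,3757,873,3400]),
   ([(78,false),(43,false),(7,false),(79,false),(26,false),(9,true),(80,true),(81,true),(82,true),(83,true)], .lp [0,1,2,1,2,1,0,1] [1183,3499,1140,3368,3019]),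
   ([(63,false),(2,false),(3,false),(24,false),(34,false),(36,true),(57,true),(84,true),(53,true),(13,true),(14,true),(85,true)], .lp [2,1,0,1,2,1,0,2] [1977,815,847,1168,3372]),
   ([(86,false),(87,false),(88,false),(89,false),(90,false),(8,false),(82,true),(14,true),(91,true)], .lp [2,0,2,1,2,0,1,1] [3568,3351,3906,929,1073]),
   ([(92,false),(32,false),(2,false),(3,false),(5,false),(16,false),(19,true),(20,true),(93,true)], .lp [2,1,0,1,0,1,2,1] [1319,1262,675,3529,3588]),
   ([(94,false),(22,false),(23,false),(24,false),(7,false),(74,false),(95,false),(50,true),(59,true)], .lp [0,1,0,1,1,2,1,0] [935,3910,1917,1079,3572]),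
   ([(96,false),(2,false),(3,false),(5,false),(97,true),(19,true),(14,true),(98,true)], .lp [2,1,0,1,1,1,2,1] [1819,3372,1170,671,1815]),
   ([(99,false),(41,false),(2,false),(3,false),(67,false),(5,false),(19,true),(68,true),(100,true)], .lp [2,1,1,0,1,2,1,2] [1849,4021,4052,1290,1235]),
   ([(101,false),(102,false),(103,false),(2,false),(3,false),(104,true),(64,true),(105,true)], .lp [2,1,1,2,0,2,1,2] [1725,2821,1162,3382]),
   ([(40,false),(32,false),(3,false),(49,false),(33,false),(42,false),(16,true),(19,true),(53,true),(106,true)], .lp [2,1,2,0,1,0,1,2] [1660,1489,3910,3589,4053]),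
   ([(107,false),(108,false),(67,false),(5,false),(97,false),(109,true),(110,true),(19,true),(12,true)], .lp [2,1,0,1,2,1,1,2] [3411,4042,3846,983]),
   ([(63,false),(32,false),(2,false),(5,false),(49,false),(17,true),(53,true),(64,true),(101,true)], .lp [2,1,0,1,0,2,1,2] [4127,3435,1140,3368,1247]),
   ([(111,false),(33,false),(42,false),(38,true),(69,true),(53,true),(64,true),(70,true)], .lp [2,1,2,1,0,1,0,2] [4209,1632,2865,3890,3335]),
   ([(66,false),(2,false),(3,false),(5,false),(19,true),(68,true),(14,true),(108,true)], .lp [2,1,0,1,1,2,1,2] [1247,4013,2918,3498]),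
   ([(112,false),(47,false),(113,false),(114,false),(7,false),(8,false),(18,true),(11,true)], .lp [2,0,1,2,2,1,0,1] [3752,1733,889,3418]),
   ([(115,false),(116,false),(3,false),(13,false),(117,false),(37,true),(53,true),(14,true)], .lp [2,1,1,0,1,1,0,2] [3452,3802,1683,971]),
   ([(118,false),(115,false),(3,false),(119,true),(37,true),(19,true),(14,true),(64,true)], .lp [0,2,1,1,0,1,1,2] [3585,3440,3425,3872,961]),
   ([(120,false),(121,false),(3,false),(53,false),(33,false),(42,false),(69,true),(64,true)], .lp [1,2,1,0,1,0,2,2] [3758,863,943,3438]),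
   ([(122,false),(123,false),(2,false),(3,false),(5,false),(16,false),(19,true),(20,true)], .lp [2,2,0,1,0,1,2,1] [755,675,3410,3586]),
   ([(124,false),(23,false),(24,false),(27,false),(7,false),(26,false),(50,true),(57,true),(125,true)], .lp [1,0,1,2,1,2,1,0] [1328,941,1417,3434,3703]),
   ([(126,false),(3,false),(67,false),(42,false),(127,false),(19,true),(128,true),(107,true)], .lp [2,1,2,0,2,1,1,2] [2163,3896,1604,3339]),
   ([(129,false),(7,false),(8,false),(130,false),(74,false),(50,true),(131,true),(71,true)], .lp [0,1,1,0,2,0,1,0] [1725,2821,1162,3382]),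
   ([(132,false),(3,false),(33,false),(42,false),(37,true),(133,true),(64,true),(134,true)], .lp [1,2,1,1,1,0,1,2] [929,1895,3906,1073,1516]),
   ([(39,false),(3,false),(33,false),(42,false),(37,true),(19,true),(128,true),(135,true)], .lp [1,2,2,1,0,1,1,2] [3890,3357,3317,4259,1632]),
   ([(97,false),(43,false),(8,false),(136,false),(45,true),(18,true),(137,true),(1,true)], .lp [2,0,1,1,2,1,0,1] [636,1905,1977,2057,902]),
   ([(138,false),(139,false),(7,false),(50,true),(9,true),(28,true),(59,true),(140,true)], .lp [2,0,1,1,2,1,1,0] [3585,3440,3425,3872,961]),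
   ([(56,false),(141,false),(24,false),(7,false),(26,false),(58,true),(59,true),(60,true),(61,true),(142,true)], .lp [1,0,1,2,1,2,1,0] [3573,2933,1505,3910,1658]),
   ([(143,false),(23,false),(24,false),(50,true),(27,true),(57,true),(58,true),(62,true)], .lp [0,1,0,1,2,1,2,0] [4209,1632,2865,3890,3335]),
   ([(94,false),(23,false),(24,false),(7,false),(95,true),(50,true),(59,true),(72,true)], .lp [0,1,0,1,1,2,1,0] [1489,3176,4435,3572]),
   ([(144,false),(121,false),(3,false),(53,false),(33,false),(42,false),(145,false),(36,true),(37,true),(64,true)], .lp [1,2,1,1,0,1,0,2] [3430,993,1501,3592,3843]),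
   ([(48,false),(2,false),(3,false),(5,false),(14,true),(104,true),(64,true),(146,true)], .lp [2,1,1,0,1,2,2,1] [2891,4093,2803,1214,3388]),
   ([(147,false),(139,false),(148,false),(149,false),(7,false),(9,true),(27,true),(59,true)], .lp [0,1,1,2,1,1,2,0] [3452,3802,1683,971]),
   ([(150,false),(25,false),(43,false),(8,false),(26,false),(50,true),(27,true),(82,true),(129,true)], .lp [0,1,2,1,2,0,1,0] [4127,3435,1140,3368,1247]),
   ([(151,false),(105,false),(102,false),(33,false),(133,false),(152,true),(153,true),(64,true),(91,true)], .lp [2,1,1,2,1,0,1,2] [4292,3757,873,3400]),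
   ([(154,false),(2,false),(5,false),(16,true),(17,true),(19,true),(20,true),(21,true)], .lp [2,0,1,0,1,2,1,2] [2825,3388,1214,4127,3039]),
   ([(100,false),(32,false),(3,false),(4,false),(89,true),(19,true),(14,true),(155,true)], .lp [2,1,0,1,0,1,1,2] [3419,1315,3524,1240]),
   ([(156,false),(137,false),(2,false),(5,false),(97,false),(14,true)], .lp [2,1,0,1,1,2,1,1] [1255,1746,701,3498]),
   ([(157,false),(3,false),(33,false),(42,false),(37,true),(64,true),(158,true),(151,true)], .lp [2,1,2,1,1,0,1,2] [1489,3176,4435,3572]),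
   ([(159,false),(32,false),(3,false),(53,false),(33,false),(42,false),(69,true),(64,true),(160,true)], .lp [1,2,1,0,1,0,1,2] [1328,941,1417,3434,3703]),
   ([(161,false),(162,false),(97,false),(163,false),(90,false),(9,true),(164,true),(87,true)], .lp [0,2,1,2,0,1,1,1] [3592,3430,1340,1410,4387]),
   ([(55,false),(114,false),(49,false),(16,true),(10,true),(165,true)], .lp [2,0,1,1,2,0,1,2] [3420,1182,2839]),
   ([(40,false),(157,false),(158,false),(102,false),(3,false),(33,false),(42,false),(37,true),(64,true)], .lp [2,1,2,1,1,0,1,2] [935,3910,1917,1079,3572]),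
   ([(142,false),(23,false),(24,false),(7,false),(166,true),(28,true),(59,true),(167,true)], .lp [1,0,0,1,2,1,1,0] [3890,3357,3317,4259,1632]),
   ([(164,false),(168,false),(7,false),(9,true),(169,true),(170,true),(46,true)], .lp [0,1,2,0,1,0,1,1] [3095,3658,3372,829]),
   ([(40,false),(32,false),(49,false),(33,false),(42,false),(38,true),(16,true),(19,true),(126,true)], .lp [2,1,2,0,1,0,1,2] [4209,1658,3589,1489,3910]),
   ([(171,false),(49,false),(172,false),(16,true),(18,true),(154,true)], .lp [2,0,1,0,1,2,2,2] [1146,1709,3384,2805]),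
   ([(83,false),(43,false),(7,false),(8,false),(50,true),(131,true),(9,true),(173,true)], .lp [0,1,1,2,1,0,0,1] [2891,4093,2803,1214,3388]),
   ([(174,false),(67,false),(97,false),(172,false),(16,false),(89,false),(17,true),(175,true)], .lp [2,0,0,1,2,1,2,1] [1717,1176,3404,1135,1127]),
   ([(176,false),(177,false),(23,false),(24,false),(27,false),(7,false),(50,true),(57,true)], .lp [1,0,1,2,1,2,0,0] [3758,863,943,3438]),
   ([(118,false),(178,false),(3,false),(44,false),(179,false),(37,true),(16,true),(14,true)], .lp [2,0,1,1,0,1,1,2] [965,2237,3508,3874]),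
   ([(122,false),(2,false),(3,false),(5,false),(16,false),(19,true),(12,true),(20,true),(174,true)], .lp [2,0,1,0,1,2,1,1] [3431,4019,3367,1156,765,3598,3037]),
   ([(155,false),(3,false),(5,false),(97,false),(14,true),(156,true)], .lp [2,1,0,1,1,1,2,1] [2813,3486,4023,2909,1260]),
   ([(180,false),(85,false),(23,false),(7,false),(130,false),(51,true),(181,true),(36,true),(57,true)], .lp [1,0,1,2,1,2,0,2] [923,3418,843,3189,3752]),
   ([(101,false),(41,false),(3,false),(14,true),(64,true),(182,true)], .lp [2,1,1,0,2,1,1,2] [3388,1150,2825]),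
   ([(183,false),(3,false),(49,false),(53,true),(64,true),(116,true)], .lp [2,1,1,0,1,0,0,2] [1562,3882,1867]),
   ([(129,false),(7,false),(79,false),(50,true),(9,true),(184,true)], .lp [0,1,1,2,0,1,1,0] [3388,1150,2825]),
   ([(22,false),(23,false),(24,false),(25,false),(26,false),(28,true),(29,true),(58,true),(185,true)], .lp [0,1,0,2,1,2,1,0] [4209,1658,3589,1489,3910]),
   ([(186,false),(43,false),(8,false),(136,false),(45,true),(9,true),(187,true),(81,true),(161,true)], .lp [0,2,1,2,1,1,0,1] [3592,3011,4057,3015,1356]),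
   ([(188,false),(76,false),(24,false),(50,true),(189,true)], .lp [1,1,0,1,1,1,2,0] [4451,3031,3588,1506,4411,3195]),
   ([(190,false),(3,false),(49,false),(16,true),(19,true),(178,true)], .lp [2,0,0,1,0,1,1,2] [1859,1266,3442]),
   ([(48,false),(41,false),(2,false),(104,true),(64,true),(191,true)], .lp [2,1,1,0,1,2,2,1] [3388,1150,2825]),
   ([(192,false),(25,false),(193,false),(27,true),(60,true),(143,true)], .lp [0,0,0,1,2,1,2,0] [3894,2211,3355,1652]),
   ([(194,false),(12,false),(5,false),(19,true),(98,true)], .lp [2,0,1,1,1,2,1,1] [1180,3965,3933,3434,2873,2853,3957]),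
   ([(83,false),(8,false),(79,false),(50,true),(131,true),(195,true)], .lp [0,1,1,2,1,0,0,1] [3388,1150,2825]),
   ([(99,false),(2,false),(3,false),(97,false),(68,true),(196,true)], .lp [2,1,0,1,2,1,2,1] [2807,4062,3923,2940]),
   ([(175,false),(5,false),(16,false),(17,true),(19,true),(98,true)], .lp [2,0,0,1,1,1,2,1] [1172,3414,2857,2879]),
   ([(197,false),(23,false),(24,false),(124,true)], .lp [1,0,1,2,1,1,1,0] [1755,2869,1192,3430]),
   ([(182,false),(2,false),(3,false),(198,true)], .lp [2,1,1,0,1,2,1,1] [3384,1709,2805,1146]),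
   ([(199,false),(94,false),(7,false),(50,true),(73,true),(59,true)], .lp [0,1,1,1,1,2,1,0] [1081,937,3576,3912]),
   ([(200,false),(23,false),(7,false),(201,true)], .lp [1,1,0,1,2,1,1,0] [3355,3894,2211,1652]),
   ([(202,false),(25,false),(7,false),(50,true),(27,true),(147,true)], .lp [0,1,1,2,1,2,2,0] [1562,3882,1867]),
   ([(39,false),(42,false),(34,false),(19,true),(128,true),(203,true)], .lp [1,2,2,1,0,1,1,2] [1648,3890,3335]),
   ([(204,false),(23,false),(7,false),(205,true)], .lp [1,1,1,0,1,2,1,0] [3353,3910,2227,1668]),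
   ([(126,false),(3,false),(34,false),(37,true),(19,true),(206,true)], .lp [2,1,1,2,0,1,1,2] [1648,3890,3335]),
   ([(207,false),(7,false),(8,false),(129,true)], .lp [0,1,1,2,0,0,1,0] [3388,1146,1685]),
   ([(124,false),(23,false),(24,false),(177,true)], .lp [1,0,1,2,1,2,1,0] [3434,1196,2871]),
   ([(21,false),(2,false),(3,false),(208,true)], .lp [2,0,1,0,1,2,1,1] [1210,1683,3452]),
   ([(196,false),(89,true),(18,true),(0,true)], .lp [2,1,0,1,2,0,1,1] [2940,4058,2937]),
   ([(209,false),(43,false),(8,false),(186,true)], .lp [0,1,2,1,2,1,0,1] [1346,3588,3033]),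
   ([(135,false),(3,false),(42,false),(118,true)], .lp [2,1,2,1,0,1,1,2] [2237,3874,1636]),
   ([(210,false),(211,false),(49,false),(36,true),(53,true),(111,true)], .lp [2,2,2,1,0,1,0,2] [3894,2211,3355,1652]),
   ([(62,false),(23,false),(7,false),(212,true)], .lp [1,1,0,1,2,1,2,0] [1636,3874,2237]),
   ([(30,false),(27,true),(58,true),(192,true)], .lp [0,0,1,0,2,1,2,0] [1652,3890,2235]),
   ([(213,false),(7,false),(8,false),(83,true)], .lp [0,1,1,2,1,1,0,1] [3388,1685,1146]),
   ([(185,false),(141,false),(7,false),(28,true),(59,true),(200,true)], .lp [0,1,1,0,2,1,1,0] [1648,3890,3335]),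
   ([(132,false),(3,false),(42,false),(214,true)], .lp [1,1,1,2,1,0,1,2] [3353,3910,2227,1668]),
   ([(66,false),(3,false),(19,true),(68,true),(104,true),(99,true)], .lp [2,1,0,1,1,2,1,2] [3498,2934,1261]),
   ([(215,false),(3,false),(42,false),(183,true)], .lp [1,2,1,1,0,1,0,2] [3357,1632,3874,3317]),
   ([(159,false),(33,false),(42,false),(121,true)], .lp [1,2,1,0,1,0,1,2] [3434,1196,2871]),
   ([(167,false),(23,false),(7,false),(138,true)], .lp [0,1,0,1,2,1,1,0] [2237,3874,1636]),
   ([(125,false),(25,false),(27,false),(94,true)], .lp [0,1,1,2,1,2,1,0] [1334,3572,1917]),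
   ([(173,false),(7,false),(8,false),(139,true)], .lp [0,1,1,2,1,0,1,0] [3452,1769,1210,2895]),
   ([(70,false),(3,false),(42,false),(215,true)], .lp [1,1,2,1,0,1,0,2] [1636,3874,2237]),
   ([(216,false),(33,false),(42,false),(159,true)], .lp [1,2,1,0,1,1,1,2] [1755,2869,1192,3430]),
   ([(217,false),(2,false),(5,false),(92,true)], .lp [2,1,1,1,0,1,2,1] [3592,1909,3035,1350]),
   ([(218,false),(170,true),(14,true),(86,true)], .lp [2,2,2,1,2,0,1,1] [3353,3910,2227,1668]),
   ([(65,false),(16,true),(17,true),(171,true)], .lp [2,0,1,0,2,1,2,2] [1146,3388,1685]),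
   ([(219,false),(7,false),(8,false),(78,true)], .lp [0,1,2,1,1,1,0,1] [2815,1689,1130,3372]),
   ([(132,false),(3,false),(42,false),(31,true)], .lp [1,2,1,1,1,0,1,2] [3906,1668,3345,2231]),
   ([(201,false),(23,false),(7,false),(142,true)], .lp [1,0,1,1,2,1,1,0] [2235,3890,1652]),
   ([(198,false),(2,false),(3,false),(48,true)], .lp [2,1,1,0,1,1,2,1] [3388,1685,1146]),
   ([(191,false),(2,false),(3,false),(220,true)], .lp [2,1,1,0,2,1,2,2] [3384,1709,2805,1146]),
   ([(204,false),(23,false),(7,false),(56,true)], .lp [1,0,1,1,1,2,1,0] [3906,1668,3345,2231]),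
   ([(160,false),(53,false),(49,false),(157,true)], .lp [2,1,1,0,1,0,1,2] [1334,3572,1917]),
   ([(96,false),(2,false),(3,false),(15,true)], .lp [2,1,0,1,1,1,2,1] [2815,1689,1130,3372]),
   ([(98,false),(49,false),(16,false),(123,true)], .lp [2,0,1,0,1,1,2,1] [1759,3414,1176]),
   ([(219,false),(7,false),(8,false),(221,true)], .lp [0,1,2,1,0,1,1,1] [1695,3368,1130]),
   ([(222,false),(43,false),(8,false),(209,true)], .lp [0,1,1,1,2,1,0,1] [3592,1909,3035,1350]),
   ([(208,false),(2,false),(3,false),(190,true)], .lp [2,0,1,0,1,1,2,1] [3452,2803,1214,2891]),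
   ([(92,false),(2,false),(5,false),(122,true)], .lp [2,1,0,1,0,1,2,1] [1346,3588,3033]),
   ([(221,false),(7,false),(8,false),(150,true)], .lp [0,1,2,1,0,1,0,1] [3372,1134,2809]),
   ([(146,false),(2,false),(3,false),(115,true)], .lp [2,1,1,0,1,2,1,2] [3452,1769,1210,2895]),
   ([(93,false),(49,false),(16,false),(66,true)], .lp [2,1,0,1,0,1,1,2] [1256,1747,3498]),
   ([(195,false),(7,false),(8,false),(207,true)], .lp [0,1,1,2,0,1,0,0] [3384,1709,2805,1146]),
   ([(197,true)], .lp [1,0,1,1,1,1,1,0] [1188,1196,1737,2809]),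
   ([(223,false),(33,false),(153,false),(144,true)], .lp [1,1,2,1,1,1,0,2] [3031,3588,1346,3035]),
   ([(206,false),(3,false),(42,false),(224,true)], .lp [1,1,2,1,0,1,1,2] [3355,3894,2211,1652]),
   ([(220,false),(2,false),(3,false),(101,true)], .lp [2,1,1,0,2,2,1,2] [3388,1146,1685]),
   ([(106,false),(38,true),(53,true),(210,true)], .lp [2,2,1,2,0,1,0,2] [1652,3890,2235]),
   ([(212,false),(23,false),(7,false),(202,true)], .lp [1,0,1,1,2,1,2,0] [3357,1632,3874,3317]),
   ([(225,false),(2,false),(3,false),(63,true)], .lp [2,1,0,1,2,1,2,1] [3372,1134,2809]),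
   ([(226,false),(3,false),(42,false),(126,true)], .lp [2,1,2,2,0,1,1,2] [2235,3890,1652]),
   ([(134,false),(53,false),(49,false),(120,true)], .lp [1,2,1,1,0,1,0,2] [3752,1510,1905]),
   ([(165,false),(10,true),(11,true),(112,true)], .lp [2,0,1,2,1,2,0,1] [1739,3414,2853,1176]),
   ([(204,true)], .lp [1,1,1,1,1,2,1,0] [1664,2229,1672]),
   ([(214,false),(3,false),(42,false),(40,true)], .lp [1,2,1,2,1,0,1,2] [1664,3906,3351]),
   ([(224,false),(3,false),(42,false),(39,true)], .lp [1,2,1,1,0,1,1,2] [2235,3890,1652]),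
   ([(96,false),(2,false),(3,false),(225,true)], .lp [2,1,0,1,2,1,1,1] [1695,3368,1130]),
   ([(203,false),(3,false),(42,false),(226,true)], .lp [2,2,1,2,0,1,1,2] [3355,3894,2211,1652]),
   ([(54,false),(227,false),(130,false),(180,true)], .lp [1,0,1,1,2,2,0,2] [1510,1905,3752]),
   ([(204,false),(23,false),(7,false),(199,true)], .lp [1,0,1,1,1,2,1,0] [3353,1664,3906,3349]),
   ([(205,false),(23,false),(7,false),(22,true)], .lp [1,0,1,0,1,2,1,0] [1664,3906,3351]),
   ([(217,true)], .lp [2,1,1,1,1,1,2,1] [1354,1346,1911]),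
   ([(184,false),(7,false),(8,false),(213,true)], .lp [0,1,1,2,1,0,1,1] [3384,1709,2805,1146]),
   ([(189,false),(25,false),(27,false),(176,true)], .lp [1,0,1,1,2,1,2,0] [3752,1510,1905]),
   ([(228,false),(7,false),(8,false),(168,true)], .lp [0,1,2,0,1,1,0,1] [3372,1130,1687]),
   ([(229,false),(43,false),(90,false),(162,true)], .lp [0,2,1,0,1,1,1,1] [2813,1192,1741,3430]),
   ([(219,false),(7,false),(8,false),(228,true)], .lp [0,1,2,1,0,1,1,1] [3368,2811,1126,2815]),
   ([(219,true)], .lp [0,1,2,1,1,1,1,1] [1933,1929,1134,3097,3101,1126]),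
   ([(216,true)], .lp [1,2,1,1,1,1,1,2] [1188,1196,1737,2809]),
   ([(229,true)], .lp [0,2,1,1,1,1,1,1] [1737,2809,1188,1196]),
   ([(223,true)], .lp [1,1,1,1,1,1,0,2] [1354,1346,1911]),
   ([(132,true)], .lp [1,1,1,1,1,0,1,2] [1664,2229,1672]),
   ([(96,true)], .lp [2,1,0,1,1,1,1,1] [1933,1929,1134,3097,3101,1126]),
   ([(188,true)], .lp [1,1,1,1,1,1,2,0] [1354,1346,1911]),
   ([(218,true)], .lp [2,2,2,2,2,0,1,1] [1672,1664,2213,3029]),
   ([(194,true)], .lp [2,0,1,1,1,1,1,1] [1737,2809,1188,1196]),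
   ([(222,true)], .lp [0,1,1,1,1,1,0,1] [1354,1346,1911]),
   ([(5,false),(9,true),(230,true),(84,true),(97,true),(14,true)], .lp [2,1,0,1,2,1,1,0] [3231,4351]),
   ([(42,false),(152,false),(148,true),(20,true),(91,true),(231,true)], .lp [2,1,1,2,0,1,2,0] [3135,4255]),
   ([(2,false),(109,false),(75,true),(9,true),(81,true),(232,true)], .lp [0,2,1,0,2,1,1,0] [3263,4383]),
   ([(230,false),(233,false),(179,true),(75,true),(9,true),(84,true)], .lp [1,0,1,0,2,1,1,0] [3087,4207]),
   ([(187,false),(43,false),(179,true),(75,true),(9,true),(81,true)], .lp [0,2,1,0,2,1,1,0] [2927,4047]),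
   ([(102,false),(42,false),(110,false),(234,false),(104,true),(231,true)], .lp [2,1,0,2,0,1,2,0] [3151,4271]),
   ([(148,false),(140,false),(235,false),(77,false),(119,false),(37,true)], .lp [1,1,0,2,1,2,1,0] [2847,3967]),
   ([(140,false),(236,false),(57,true),(230,true),(84,true),(59,true)], .lp [1,0,1,2,1,1,0,0] [2911,4031]),
   ([(163,false),(170,false),(119,false),(230,false),(233,false),(46,true)], .lp [1,2,0,1,0,1,1,0] [2975,4095]),
   ([(237,false),(152,true),(60,true),(103,true),(20,true),(231,true)], .lp [2,1,2,1,2,0,1,0] [3119,4239]),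
   ([(5,false),(8,false),(233,true),(84,true),(170,true),(18,true)], .lp [1,2,0,1,2,0,1,0] [3247,4367]),
   ([(140,false),(152,false),(8,false),(79,false),(9,true),(170,true)], .lp [0,1,1,2,0,1,1,0] [3135,4255]),
   ([(119,false),(34,false),(230,false),(233,false),(37,true),(235,true)], .lp [1,0,1,0,1,2,1,0] [2911,4031]),
   ([(102,false),(3,false),(52,false),(49,false),(16,true),(128,true)], .lp [2,0,1,2,0,1,2,0] [3023,4143]),
   ([(140,false),(109,false),(34,false),(230,true),(238,true),(69,true)], .lp [1,0,1,2,1,1,2,0] [3007,4127]),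
   ([(163,false),(141,false),(26,false),(136,true),(9,true),(236,true)], .lp [0,1,2,1,1,1,0,0] [3119,4239]),
   ([(239,false),(230,false),(233,false),(240,false),(170,true)], .lp [1,2,0,1,0,1,1,0] [2927,4047]),
   ([(3,false),(230,true),(34,true),(84,true),(14,true)], .lp [2,1,0,1,1,2,1,0] [3055,4175]),
   ([(42,false),(170,false),(119,false),(84,true),(37,true),(152,true)], .lp [1,1,2,0,1,2,1,0] [2959,4079]),
   ([(232,false),(140,false),(79,false),(9,true),(81,true),(237,true)], .lp [0,1,2,1,2,1,1,0] [3311,4431]),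
   ([(7,false),(45,true),(26,true),(136,true),(9,true)], .lp [0,1,2,1,1,0,1,0] [2831,3951]),
   ([(119,false),(230,false),(233,false),(136,false),(179,false),(45,true)], .lp [0,1,0,1,0,1,1,0] [3135,4255]),
   ([(42,false),(170,false),(24,false),(57,true),(34,true),(169,true)], .lp [1,2,0,1,1,2,0,0] [2895,4015]),
   ([(3,false),(89,true),(16,true),(18,true),(19,true),(14,true)], .lp [2,0,1,0,1,1,2,0] [2959,4079]),
   ([(140,false),(119,false),(109,false),(230,false),(179,false),(9,true)], .lp [1,0,1,0,2,1,1,0] [3295,4415]),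
   ([(3,false),(37,true),(238,true),(69,true),(32,true)], .lp [1,2,1,1,0,1,2,0] [3295,4415]),
   ([(241,false),(238,false),(34,false),(230,false),(14,true),(32,true)], .lp [2,1,0,1,1,1,2,0] [3119,4239]),
   ([(234,false),(242,false),(82,true),(227,true),(243,true),(58,true)], .lp [1,0,2,2,0,1,2,0] [3071,4191]),
   ([(170,false),(43,false),(8,false),(179,true),(14,true),(91,true)], .lp [0,2,1,2,0,1,1,0] [3263,4383]),
   ([(7,false),(130,false),(244,true),(44,true),(75,true),(149,true)], .lp [0,1,0,2,1,0,2,0] [2847,3967]),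
   ([(7,false),(9,true),(46,true),(141,true),(163,true)], .lp [0,1,2,1,1,0,1,0] [3055,4175]),
   ([(102,false),(3,false),(49,false),(53,true),(211,true),(128,true)], .lp [2,1,2,0,1,0,2,0] [2991,4111]),
   ([(2,false),(3,false),(53,false),(4,false),(14,true)], .lp [2,1,0,0,1,2,1,0] [2815,3935]),
   ([(5,false),(84,true),(119,true),(170,true),(14,true)], .lp [1,2,1,0,1,2,1,0] [3327,4447]),
   ([(49,false),(16,true),(17,true),(172,true),(18,true)], .lp [2,0,1,0,2,1,2,0] [2831,3951]),
   ([(77,false),(76,false),(23,false),(24,false),(84,true),(37,true)], .lp [1,1,0,1,2,1,0,0] [2911,4031]),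
   ([(170,false),(140,false),(238,false),(119,false),(34,false),(69,true)], .lp [1,1,2,0,1,1,2,0] [3007,4127]),
   ([(43,false),(8,false),(44,true),(242,true),(82,true)], .lp [0,2,1,2,0,1,2,0] [3007,4127]),
   ([(2,false),(230,true),(84,true),(109,true),(14,true)], .lp [2,1,0,1,2,1,1,0] [3087,4207]),
   ([(140,false),(45,true),(9,true),(230,true),(245,true),(46,true)], .lp [1,0,1,2,1,0,1,0] [3279,4399]),
   ([(61,false),(23,false),(29,false),(7,false),(59,true)], .lp [1,0,1,2,2,1,0,0] [3343,4463]),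
   ([(25,false),(74,false),(44,false),(50,true),(181,true),(127,true)], .lp [0,2,1,0,1,2,0,0] [2927,4047]),
   ([(33,false),(23,false),(7,false),(166,false),(181,true)], .lp [0,1,0,2,1,0,2,0] [3311,4431]),
   ([(32,false),(3,false),(41,true),(20,true),(91,true),(231,true)], .lp [2,1,1,2,0,1,2,0] [2863,3983]),
   ([(3,false),(16,false),(42,false),(35,false),(37,true)], .lp [1,2,1,0,0,1,2,0] [3343,4463]),
   ([(8,false),(9,true),(239,true),(170,true),(46,true)], .lp [0,1,2,0,1,0,1,0] [3103,4223]),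
   ([(53,false),(49,false),(33,false),(246,false),(169,true),(247,true)], .lp [1,2,0,1,0,0,2,0] [3119,4239]),
   ([(33,false),(153,false),(145,true),(76,true),(246,true),(60,true)], .lp [1,2,1,0,2,0,2,0] [2927,4047]),
   ([(25,false),(43,false),(51,false),(8,false),(44,true),(181,true)], .lp [0,2,1,2,0,1,2,0] [2911,4031]),
   ([(7,false),(8,false),(50,true),(79,true),(9,true)], .lp [0,1,1,2,1,0,1,0] [2831,3951]),
   ([(3,false),(19,false),(42,false),(34,false),(128,true)], .lp [2,1,2,0,1,1,2,0] [3327,4447]),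
   ([(233,false),(44,true),(45,true),(130,true),(36,true),(57,true)], .lp [1,0,1,1,0,1,2,0] [3071,4191]),
   ([(232,false),(240,true),(109,true),(170,true),(14,true)], .lp [2,1,0,2,0,1,1,0] [3199,4319]),
   ([(23,false),(24,false),(57,false),(74,false),(244,true)], .lp [0,1,0,1,2,1,0,0] [3103,4223]),
   ([(80,false),(27,false),(7,false),(8,false),(131,true)], .lp [0,1,2,2,0,1,0,0] [2815,3935]),
   ([(2,false),(3,false),(67,false),(11,false),(10,true),(13,true)], .lp [2,1,0,2,1,2,0,0] [2911,4031]),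
   ([(6,false),(247,false),(74,false),(248,true),(50,true),(10,true)], .lp [2,0,1,1,0,2,0,0] [3103,4223]),
   ([(239,false),(245,false),(249,false),(233,false),(46,true)], .lp [1,2,1,0,1,0,1,0] [3039,4159]),
   ([(69,false),(33,false),(250,false),(42,false),(60,true)], .lp [1,2,1,0,1,2,0,0] [2863,3983]),
   ([(42,false),(170,true),(69,true),(91,true),(232,true),(231,true)], .lp [2,1,2,0,1,1,2,0] [3071,4191]),
   ([(49,false),(16,false),(251,false),(19,true)], .lp [2,0,0,1,0,1,2,0] [2879,3999]),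
   ([(232,false),(241,false),(97,false),(140,false),(9,true),(230,true)], .lp [2,1,0,1,2,1,1,0] [3343,4463]),
   ([(5,false),(7,false),(57,true),(84,true),(170,true),(6,true)], .lp [1,2,0,1,2,1,0,0] [3231,4351]),
   ([(7,false),(8,false),(9,true),(25,true),(81,true)], .lp [0,2,1,2,1,0,1,0] [2895,4015]),
   ([(140,false),(109,false),(79,false),(75,true),(9,true),(77,true)], .lp [0,1,1,0,2,1,1,0] [3167,4287]),
   ([(3,false),(14,true),(241,true),(32,true),(20,true)], .lp [2,1,0,1,1,2,1,0] [2831,3951]),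
   ([(7,false),(26,true),(9,true),(57,true),(230,true),(84,true)], .lp [1,0,1,2,1,1,0,0] [3071,4191]),
   ([(109,false),(23,false),(243,false),(24,false),(84,true)], .lp [1,0,1,2,1,0,1,0] [2831,3951]),
   ([(2,false),(3,false),(13,true),(252,true),(104,true)], .lp [2,1,0,2,1,2,0,0] [2815,3935]),
   ([(102,false),(172,true),(68,true),(52,true),(104,true)], .lp [2,0,1,0,2,0,2,0] [3023,4143]),
   ([(67,false),(52,false),(49,false),(16,false),(251,true)], .lp [2,0,2,0,1,0,2,0] [2879,3999]),
   ([(109,false),(23,false),(110,true),(141,true),(69,true),(60,true)], .lp [1,0,2,1,1,2,0,0] [2895,4015]),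
   ([(119,false),(43,false),(179,false),(233,true),(46,true),(14,true)], .lp [1,0,2,1,0,1,1,0] [3311,4431]),
   ([(77,false),(130,false),(248,false),(45,true),(249,true),(145,true)], .lp [0,1,1,0,0,2,1,0] [3055,4175]),
   ([(67,true),(231,true)], .red 14 1),
   ([(84,false),(5,false)], .red 13 0),
   ([(49,false),(36,false)], .red 8 0),
   ([(17,false),(5,false)], .red 11 2),
   ([(41,false),(89,true),(18,true),(4,true),(14,true)], .lp [2,1,0,1,0,1,1,0] [3007,4127]),
   ([(91,true),(114,true)], .red 12 1),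
   ([(181,true),(33,true)], .red 6 0),
   ([(252,false),(250,false),(58,true),(76,true),(113,true)], .lp [1,2,1,0,2,2,0,0] [3327,4447]),
   ([(3,false),(104,false)], .red 14 3),
   ([(60,true),(250,true)], .red 9 2),
   ([(23,false),(57,true),(117,true),(236,true),(59,true)], .lp [1,1,0,1,2,1,0,0] [3039,4159]),
   ([(7,false),(8,false),(131,false),(9,true)], .lp [0,1,2,0,1,0,1,0] [2815,3935]),
   ([(5,false),(20,false)], .red 13 1),
   ([(74,true),(75,true)], .red 0 4),
   ([(32,false),(64,false),(3,false),(33,false),(69,true)], .lp [1,2,1,1,0,1,2,0] [3103,4223]),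
   ([(42,false),(170,true),(46,true),(163,true),(69,true)], .lp [1,2,1,0,1,1,2,0] [2847,3967]),
   ([(89,false),(90,false),(179,true),(14,true),(88,true)], .lp [2,0,2,1,0,1,1,0] [3359,4479]),
   ([(25,false),(193,true),(27,true),(58,true),(60,true)], .lp [0,1,0,2,1,2,0,0] [3343,4463]),
   ([(46,false),(43,false)], .red 2 0),
   ([(28,false),(43,false),(7,false),(26,false),(45,true)], .lp [0,1,2,1,1,0,1,0] [2975,4095]),
   ([(24,true),(60,true)], .red 7 1),
   ([(43,false),(8,false),(179,true),(45,true),(90,true)], .lp [0,1,2,1,0,1,1,0] [3007,4127]),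
   ([(33,false),(38,false)], .red 8 2),
   ([(7,false),(8,false),(50,false),(26,false),(45,true)], .lp [0,1,1,2,1,0,1,0] [2863,3983]),
   ([(102,true),(91,true)], .red 15 4),
   ([(7,false),(244,false)], .red 0 2),
   ([(7,false),(59,false)], .red 5 0),
   ([(253,true),(244,true)], .red 1 1),
   ([(5,false),(10,false)], .red 12 4),
   ([(114,false),(18,false)], .red 12 2),
   ([(8,false),(9,false)], .red 2 3),
   ([(231,false),(102,false)], .red 15 3),
   ([(14,false),(3,false)], .red 13 4),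
   ([(43,true),(45,true)], .red 2 1),
   ([(25,false),(60,false)], .red 7 0),
   ([(24,false),(58,false)], .red 7 2),
   ([(169,false),(253,false)], .red 1 0),
   ([(45,false),(8,false)], .red 2 2),
   ([(18,true),(5,true)], .red 11 3),
   ([(8,false),(82,false)], .red 4 1),
   ([(42,true),(128,true)], .red 15 0),
   ([(18,true),(49,true)], .red 11 4),
   ([(91,false),(8,false)], .red 4 0),
   ([(43,false),(81,false)], .red 3 3),
   ([(36,true),(234,true)], .red 6 2),
   ([(3,true),(231,true)], .red 14 2),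
   ([(3,false),(37,false)], .red 10 0),
   ([(128,false),(3,false)], .red 15 1),
   ([(75,false),(254,false)], .red 3 1),
   ([(58,true),(23,true)], .red 7 3),
   ([(43,false),(181,false)], .red 3 4),
   ([(104,true),(2,true)], .red 14 4),
   ([(254,true),(81,true)], .red 3 2),
   ([(9,true),(7,true)], .red 2 4),
   ([(8,true)], .fix)]

/-- the refutation tree -/
def tree : Tr :=
  .unit 125 197 true (.unit 135 204 true (.unit 143 217 true (.unit 149 219 true (.unit 150 216 true (.unit 151 229 true (.unit 152 223 true (.unit 153 132 true (.unit 154 96 true (.unit 155 188 true (.unit 156 218 true (.unit 157 194 true (.unit 158 222 true (.unit 287 8 true (.unit 263 9 false (.unit 270 45 false (.unit 272 82 false (.unit 275 91 false (.unit 286 7 true (.unit 266 43 true (.unit 238 114 true (.unit 257 102 true (.unit 108 78 true (.unit 117 221 true (.unit 121 150 true (.unit 148 228 true (.unit 244 131 false (.unit 258 244 false (.unit 259 59 false (.unit 118 209 true (.unit 251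 46 false (.unit 276 81 false (.unit 283 181 false (.unit 262 18 false (.unit 264 231 false (.unit 146 168 true (.unit 260 253 true (.unit 89 186 true (.unit 222 25 true (.unit 285 254 true (.unit 239 33 true (.unit 271 5 true (.unit 274 49 true (.unit 233 67 true (.unit 278 3 true (.unit 269 169 false (.unit 267 60 false (.unit 281 75 false (.unit 255 38 false (.unit 234 84 false (.unit 236 17 false (.unit 245 20 false (.unit 261 10 false (.unit 235 36 false (.unit 241 104 false (.unit 265 14 false (.unit 279 37 false (.unit 280 128 false (.unit 242 250 true (.unit 253 24 true (.unit 246 74 true (.unit 277 234 true (.unit 284 2 true (.unit 273 42 true (.unit 217 69 false (.unit 268 58 false (.unit 164 110 false (.unit 105 92 true (.unit 115 15 true (.unit 120 122 true (.unit 138 225 true (.unit 96 214 true (.unit 104 159 true (.unit 109 31 true (.unit 136 40 true (.unit 282 23 true (.unit 131 63 true (.unit 99 121 true (.unit 77 124 true (.unit 83 205 true (.unit 86 177 true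 (.unit 113 56 true (.unit 141 199 true (.unit 142 22 true (.unit 201 166 false (.unit 212 57 false (.split 34 (.unit 209 19 false (.split 52 (.unit 172 16 true (.unit 229 251 true (.confl 219))) (.split 39 (.unit 34 135 true (.unit 82 203 true (.unit 90 118 true (.unit 139 226 true (.unit 132 126 true (.split 32 (.unit 202 41 true (.unit 247 64 false (.split 48 (.unit 41 146 true (.unit 71 191 true (.unit 122 115 true (.unit 112 220 true (.unit 27 119 true (.unit 128 101 true (.split 172 (.split 233 (.split 26 (.unit 252 28 false (.unit 256 50 false (.unit 208 79 true (.split 83 (.unit 57 173 true (.unit 74 195 true (.unit 102 139 true (.unit 124 207 true (.unit 85 129 true (.split 141 (.split 142 (.unit 53 167 true (.unit 100 138 true (.unit 36 140 true (.split 230 (.unit 162 179 true (.unit 171 235 true (.unit 183 109 false (.split 152 (.unit 160 148 true (.unit 165 77 false (.split 16 (.unit 15 93 true (.unit 29 123 false (.unit 116 98 false (.unit 123 66 true (.unit 17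 97 true (.unit 73 12 false (.unit 9 68 false (.unit 24 108 true (.unit 21 107 false (.unit 31 127 false (.unit 200 44 false (.unit 210 130 true (.unit 32 71 true (.unit 188 149 true (.split 27 (.unit 30 125 true (.unit 59 176 false (.unit 101 94 true (.unit 145 189 false (.unit 16 95 false (.unit 39 72 true (.unit 79 73 true (.unit 69 76 false (.confl 11))))))))) (.unit 42 147 false (.unit 81 202 false (.unit 250 193 true (.unit 130 212 false (.unit 92 62 false (.unit 7 61 true (.unit 38 143 false (.unit 199 29 false (.unit 72 192 false (.unit 2 30 true (.confl 93)))))))))))))))))))))))))) (.split 21 (.unit 87 208 true (.unit 119 190 true (.unit 70 178 true (.unit 60 44 false (.unit 210 130 true (.unit 32 71 true (.unit 188 149 true (.split 27 (.unit 30 125 true (.unit 59 176 false (.unit 101 94 true (.unit 145 189 false (.unit 16 95 false (.unit 39 72 true (.unit 79 73 true (.unit 69 76 false (.confl 11))))))))) (.unit 42 147 false (.unit 81 202 false (.unit 250 193 true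 (.unit 130 212 false (.unit 92 62 false (.unit 7 61 true (.unit 38 143 false (.unit 199 29 false (.unit 72 192 false (.unit 2 30 true (.confl 93))))))))))))))))))) (.unit 1 4 true (.unit 45 154 false (.unit 191 53 false (.unit 56 171 false (.unit 8 65 true (.confl 107)))))))))) (.unit 177 170 false (.unit 204 239 true (.unit 218 232 true (.unit 175 240 false (.confl 211))))))))) (.unit 159 97 true (.unit 166 236 false (.unit 197 109 true (.unit 198 245 true (.unit 243 117 true (.unit 161 232 true (.unit 173 238 true (.unit 223 77 true (.unit 226 243 false (.unit 178 237 true (.unit 195 170 false (.unit 194 76 false (.unit 54 164 false (.unit 106 86 true (.unit 170 152 false (.unit 204 239 true (.unit 221 6 true (.unit 248 163 true (.unit 168 103 true (.unit 216 249 false (.unit 174 136 true (.unit 19 105 true (.split 16 (.unit 15 93 true (.unit 29 123 false (.unit 116 98 false (.unit 123 66 true (.unit 203 35 false (.unit 73 12 false (.unit 76 175 false (.unit 9 68 false (.unit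 97 99 true (.unit 61 174 true (.unit 58 89 false (.unit 18 100 true (.unit 75 196 true (.unit 88 0 true (.unit 237 4 true (.unit 46 155 true (.unit 191 53 false (.unit 62 156 true (.unit 10 70 true (.unit 47 137 false (.unit 103 215 true (.unit 35 1 true (.unit 98 183 true (.unit 65 116 true (.unit 26 13 false (.unit 0 11 true (.confl 214))))))))))))))))))))))))))) (.unit 182 89 true (.split 53 (.unit 28 120 false (.unit 49 160 true (.unit 114 157 true (.unit 133 134 false (.unit 191 4 false (.unit 52 158 false (.unit 33 133 true (.unit 1 21 true (.unit 48 151 true (.unit 44 153 true (.unit 87 208 true (.unit 126 144 true (.unit 119 190 true (.unit 40 145 false (.unit 70 178 true (.unit 206 246 true (.unit 205 247 true (.unit 215 248 true (.unit 232 130 false (.unit 210 44 true (.unit 60 179 false (.unit 163 187 false (.unit 254 90 true (.unit 68 161 true (.unit 147 162 true (.unit 249 88 true (.unit 50 87 true (.confl 14)))))))))))))))))))))))))))) (.unit 8 65 true (.unit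 20 106 true (.unit 129 210 true (.unit 190 211 true (.unit 107 171 true (.unit 91 111 true (.unit 56 154 true (.unit 23 70 true (.unit 45 21 true (.unit 103 215 true (.unit 87 208 true (.unit 98 183 true (.unit 119 190 true (.unit 65 116 true (.unit 70 178 true (.unit 26 13 false (.unit 13 85 true (.unit 214 11 false (.unit 227 252 true (.unit 240 113 true (.split 44 (.unit 60 179 false (.unit 163 187 false (.unit 254 90 true (.unit 68 161 true (.unit 147 162 true (.unit 249 88 true (.unit 50 87 true (.confl 14)))))))) (.unit 4 47 true (.unit 196 242 true (.unit 207 51 false (.unit 210 130 true (.unit 25 112 false (.unit 186 227 true (.unit 63 180 false (.unit 140 54 false (.unit 134 165 false (.unit 6 55 true (.confl 51))))))))))))))))))))))))))))))))))))))))))))))))))))))))))))) (.unit 37 61 true (.unit 110 201 false (.unit 199 29 false (.unit 80 200 false (.unit 67 185 true (.confl 95))))))) (.unit 189 163 true (.unit 230 109 false (.unit 197 230 true (.unit 167 170 false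 (.unit 204 239 true (.unit 218 232 true (.unit 175 240 false (.confl 211)))))))))))))) (.unit 12 80 true (.unit 94 213 false (.unit 213 27 false (.unit 144 184 false (.unit 43 129 true (.confl 66)))))))))) (.unit 179 136 true (.unit 225 230 true (.unit 180 179 false (.confl 162))))) (.unit 169 170 true (.unit 231 179 false (.confl 187)))) (.unit 193 16 true (.unit 228 68 true (.unit 15 93 true (.unit 123 66 true (.confl 9)))))))))))) (.unit 5 4 true (.unit 111 198 false (.unit 191 53 false (.unit 78 182 false (.unit 22 101 true (.confl 64))))))))) (.unit 184 238 true (.unit 224 241 true (.unit 185 230 false (.unit 159 97 true (.unit 197 109 true (.unit 225 26 true (.unit 161 232 true (.unit 230 141 true (.unit 252 28 false (.unit 256 50 false (.unit 220 140 false (.unit 208 79 true (.split 27 (.unit 213 80 false (.unit 12 83 true (.unit 57 173 true (.unit 102 139 true (.unit 36 138 false (.unit 100 167 false (.unit 53 142 false (.unit 37 61 true (.unit 110 201 false (.unit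 199 29 false (.unit 80 200 false (.unit 67 185 true (.confl 95))))))))))))) (.unit 43 129 true (.unit 66 184 true (.unit 144 213 true (.unit 94 83 true (.unit 57 173 true (.unit 102 139 true (.unit 36 138 false (.unit 100 167 false (.unit 53 142 false (.unit 37 61 true (.unit 110 201 false (.unit 199 29 false (.unit 80 200 false (.unit 67 185 true (.confl 95)))))))))))))))))))))))))))))))))) (.unit 137 224 false (.unit 127 206 false (.unit 84 126 false (.split 32 (.unit 3 35 true (.unit 55 16 true (.confl 203))) (.unit 184 238 true (.unit 224 241 true (.unit 185 230 false (.unit 159 97 true (.unit 197 109 true (.unit 225 26 true (.unit 161 232 true (.unit 230 141 true (.unit 252 28 false (.unit 256 50 false (.unit 220 140 false (.unit 208 79 true (.split 27 (.unit 213 80 false (.unit 12 83 true (.unit 57 173 true (.unit 102 139 true (.unit 36 138 false (.unit 100 167 false (.unit 53 142 false (.unit 37 61 true (.unit 110 201 false (.unit 199 29 false (.unit 80 200 false (.unit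 67 185 true (.confl 95))))))))))))) (.unit 43 129 true (.unit 66 184 true (.unit 144 213 true (.unit 94 83 true (.unit 57 173 true (.unit 102 139 true (.unit 36 138 false (.unit 100 167 false (.unit 53 142 false (.unit 37 61 true (.unit 110 201 false (.unit 199 29 false (.unit 80 200 false (.unit 67 185 true (.confl 95))))))))))))))))))))))))))))))))))) (.unit 176 230 true (.unit 181 170 false (.unit 169 233 true (.unit 192 119 true (.unit 204 239 true (.unit 218 232 true (.unit 162 179 true (.unit 175 240 false (.unit 180 136 false (.unit 211 109 true (.unit 183 140 false (.unit 179 26 true (.unit 230 141 true (.unit 252 28 false (.unit 256 50 false (.unit 208 79 true (.split 27 (.unit 213 80 false (.unit 12 83 true (.unit 57 173 true (.unit 102 139 true (.unit 36 138 false (.unit 100 167 false (.unit 53 142 false (.unit 37 61 true (.unit 110 201 false (.unit 199 29 false (.unit 80 200 false (.unit 67 185 true (.confl 95))))))))))))) (.unit 43 129 true (.unit 66 184 true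 (.unit 144 213 true (.unit 94 83 true (.unit 57 173 true (.unit 102 139 true (.unit 36 138 false (.unit 100 167 false (.unit 53 142 false (.unit 37 61 true (.unit 110 201 false (.unit 199 29 false (.unit 80 200 false (.unit 67 185 true (.confl 95))))))))))))))))))))))))))))))))))))))))))))))))))))))))))))))))))))))))))))))))))))))))))))))))))))))))))))))))))))))

end Pool.Agent.Lib.MP_c27c22_co
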