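import Mathlib

/-!
# Edges, crossings and the letters of a block
-/

set_option autoImplicit false

namespace Pool.Agent.Lib.MP_c27c22_co

/-- `k`-relevant edges of the `n`-gon (as in the frozen statement). -/
def Rel (n k : ℕ) (e : Fin n × Fin n) : Prop :=
  e.1 < e.2 ∧ k + 1 ≤ (e.2 : ℕ) - (e.1 : ℕ) ∧ k + 1 ≤ n + (e.1 : ℕ) - (e.2 : ℕ)

/-- two edges cross -/
def Cross {n : ℕ} (e f : Fin n × Fin n) : Prop :=
  (e.1 < f.1 ∧ f.1 < e.2 ∧ e.2 < f.2) ∨ (f.1 < e.1 ∧ e.1 < f.2 ∧ f.2 < e.2)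

/-- `S` is `(k+1)`-crossing-free -/
def CF (n k : ℕ) (S : Finset (Fin n × Fin n)) : Prop :=
  ¬ ∃ T : Finset (Fin n × Fin n), T ⊆ S ∧ T.card = k + 1 ∧
    ∀ e ∈ T, ∀ f ∈ T, e ≠ f → Cross e f

/-- In the `(2k+4)`-gon the `(k+1)`-crossing that omits the vertices `u < v` contains the edge of
letter `i` in block `b`. -/
def hit (k i b u v : ℕ) : Prop :=
  (i = 0 ∧ (u ≤ b ∨ b + k + 2 < u) ∧ (v ≤ b ∨ b + k + 2 < v)) ∨
  (i = 1 ∧ ((u < b ∧ b < v ∧ v < b + k + 2) ∨ (b < u ∧ u < b + k + 2 ∧ b + k + 2 < v))) ∨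
  (i = 2 ∧ b + 1 ≤ u ∧ v ≤ b + k + 2)

/-- the first end of the edge of letter `i` in block `b` -/
def e1 (i b : ℕ) : ℕ := if i = 0 then b + 1 else b

/-- the second end of the edge of letter `i` in block `b` -/
def e2 (k i b : ℕ) : ℕ := if i = 2 then b + k + 3 else b + k + 2

end Pool.Agent.Lib.MP_c27c22_co
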