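import Pool.Agent.Lib.MP_c27c22_co.Iface

/-!
# The three-term Grassmann–Plücker relation for sorted brackets
-/

set_option autoImplicit false

namespace Pool.Agent.Lib.MP_c27c22_co

/-- determinant of five vectors -/
noncomputable def gpF (x0 x1 x2 x3 x4 : Fin 5 → ℝ) : ℝ :=
  Matrix.det (Matrix.of ![x0, x1, x2, x3, x4])

theorem gpF_swap (i j : Fin 5) (hij : i ≠ j) (w : Fin 5 → Fin 5 → ℝ) :
    Matrix.det (Matrix.of (w ∘ Equiv.swap i j)) = - Matrix.det (Matrix.of w) := by
  have h := Matrix.det_permute (Equiv.swap i j) (Matrix.of w)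
  rw [Equiv.Perm.sign_swap hij] at h
  have e : (Matrix.of w).submatrix (Equiv.swap i j) id = Matrix.of (w ∘ Equiv.swap i j) := rfl
  rw [e] at h
  rw [h]
  simp

theorem gpF_swap01 (x0 x1 x2 x3 x4 : Fin 5 → ℝ) :
    gpF x1 x0 x2 x3 x4 = - gpF x0 x1 x2 x3 x4 := by
  unfold gpF
  rw [← gpF_swap 0 1 (by decide)]
  congr 2
  funext i
  fin_cases i <;> rfl

theorem gpF_swap12 (x0 x1 x2 x3 x4 : Fin 5 → ℝ) :
    gpF x0 x2 x1 x3 x4 = - gpF x0 x1 x2 x3 x4 := by
  unfold gpF
  rw [← gpF_swap 1 2 (by decide)]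
  congr 2
  funext i
  fin_cases i <;> rfl

theorem gpF_swap23 (x0 x1 x2 x3 x4 : Fin 5 → ℝ) :
    gpF x0 x1 x3 x2 x4 = - gpF x0 x1 x2 x3 x4 := by
  unfold gpF
  rw [← gpF_swap 2 3 (by decide)]
  congr 2
  funext i
  fin_cases i <;> rfl

theorem gpF_swap34 (x0 x1 x2 x3 x4 : Fin 5 → ℝ) :
    gpF x0 x1 x2 x4 x3 = - gpF x0 x1 x2 x3 x4 := by
  unfold gpF
  rw [← gpF_swap 3 4 (by decide)]
  congr 2
  funext i
  fin_cases i <;> rfl

theorem bra_eq_gpF (v : ℕ → Fin 5 → ℝ) (a b c d e : ℕ) :
    bra v [a, b, c, d, e] = gpF (v a) (v b) (v c) (v d) (v e) := by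
  unfold bra gpF
  congr 2
  funext i
  fin_cases i <;> rfl

/-- the sign of moving `x` to its place among `a < b < c` -/
noncomputable def gpσ (a b c x : ℕ) : ℝ :=
  (if x < a then -1 else 1) * ((if x < b then -1 else 1) * (if x < c then -1 else 1))

theorem gpσ_sq (a b c x : ℕ) : gpσ a b c x * gpσ a b c x = 1 := by
  unfold gpσ
  split_ifs <;> norm_num

theorem bra_ins (v : ℕ → Fin 5 → ℝ) (a b c p q : ℕ) (hab : a < b) (hbc : b < c) (hpq : p < q) :
    bra v (ins p (ins q [a, b, c])) =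
      gpσ a b c p * gpσ a b c q * gpF (v a) (v b) (v c) (v p) (v q) := by
  unfold gpσ
  by_cases hqa : q < a
  · have h1 : ins p (ins q [a, b, c]) = [p, q, a, b, c] := by
      simp [ins, hqa, hpq]
    rw [h1, bra_eq_gpF, if_pos (by omega : p < a), if_pos (by omega : p < b),
      if_pos (by omega : p < c), if_pos hqa, if_pos (by omega : q < b), if_pos (by omega : q < c)]
    rw [gpF_swap12, gpF_swap23, gpF_swap34, gpF_swap01, gpF_swap12, gpF_swap23]
    ring
  by_cases hqb : q < b
  · by_cases hpa : p < a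
    · have h1 : ins p (ins q [a, b, c]) = [p, a, q, b, c] := by
        simp [ins, hqa, hqb, hpa]
      rw [h1, bra_eq_gpF, if_pos hpa, if_pos (by omega : p < b),
        if_pos (by omega : p < c), if_neg hqa, if_pos hqb, if_pos (by omega : q < c)]
      rw [gpF_swap23, gpF_swap34, gpF_swap01, gpF_swap12, gpF_swap23]
      ring
    · have h1 : ins p (ins q [a, b, c]) = [a, p, q, b, c] := by
        simp [ins, hqa, hqb, hpa, hpq]
      rw [h1, bra_eq_gpF, if_neg hpa, if_pos (by omega : p < b),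
        if_pos (by omega : p < c), if_neg hqa, if_pos hqb, if_pos (by omega : q < c)]
      rw [gpF_swap23, gpF_swap34, gpF_swap12, gpF_swap23]
      ring
  by_cases hqc : q < c
  · by_cases hpa : p < a
    · have h1 : ins p (ins q [a, b, c]) = [p, a, b, q, c] := by
        simp [ins, hqa, hqb, hqc, hpa]
      rw [h1, bra_eq_gpF, if_pos hpa, if_pos (by omega : p < b),
        if_pos (by omega : p < c), if_neg hqa, if_neg hqb, if_pos hqc]
      rw [gpF_swap34, gpF_swap01, gpF_swap12, gpF_swap23]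
      ring
    by_cases hpb : p < b
    · have h1 : ins p (ins q [a, b, c]) = [a, p, b, q, c] := by
        simp [ins, hqa, hqb, hqc, hpa, hpb]
      rw [h1, bra_eq_gpF, if_neg hpa, if_pos hpb,
        if_pos (by omega : p < c), if_neg hqa, if_neg hqb, if_pos hqc]
      rw [gpF_swap34, gpF_swap12, gpF_swap23]
      ring
    · have h1 : ins p (ins q [a, b, c]) = [a, b, p, q, c] := by
        simp [ins, hqa, hqb, hqc, hpa, hpb, hpq]
      rw [h1, bra_eq_gpF, if_neg hpa, if_neg hpb,
        if_pos (by omega : p < c), if_neg hqa, if_neg hqb, if_pos hqc]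
      rw [gpF_swap34, gpF_swap23]
      ring
  by_cases hpa : p < a
  · have h1 : ins p (ins q [a, b, c]) = [p, a, b, c, q] := by
      simp [ins, hqa, hqb, hqc, hpa]
    rw [h1, bra_eq_gpF, if_pos hpa, if_pos (by omega : p < b),
      if_pos (by omega : p < c), if_neg hqa, if_neg hqb, if_neg hqc]
    rw [gpF_swap01, gpF_swap12, gpF_swap23]
    ring
  by_cases hpb : p < b
  · have h1 : ins p (ins q [a, b, c]) = [a, p, b, c, q] := by
      simp [ins, hqa, hqb, hqc, hpa, hpb]
    rw [h1, bra_eq_gpF, if_neg hpa, if_pos hpb,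
      if_pos (by omega : p < c), if_neg hqa, if_neg hqb, if_neg hqc]
    rw [gpF_swap12, gpF_swap23]
    ring
  by_cases hpc : p < c
  · have h1 : ins p (ins q [a, b, c]) = [a, b, p, c, q] := by
      simp [ins, hqa, hqb, hqc, hpa, hpb, hpc]
    rw [h1, bra_eq_gpF, if_neg hpa, if_neg hpb,
      if_pos hpc, if_neg hqa, if_neg hqb, if_neg hqc]
    rw [gpF_swap23]
    ring
  · have h1 : ins p (ins q [a, b, c]) = [a, b, c, p, q] := by
      simp [ins, hqa, hqb, hqc, hpa, hpb, hpc, hpq]
    rw [h1, bra_eq_gpF, if_neg hpa, if_neg hpb,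
      if_neg hpc, if_neg hqa, if_neg hqb, if_neg hqc]
    ring

/-- Cramer's relation between six vectors of `ℝ^5`, under a linear functional. -/
theorem gp_cramer (w : Fin 6 → Fin 5 → ℝ) (φ : (Fin 5 → ℝ) →ₗ[ℝ] ℝ) :
    ∑ i : Fin 6, (-1 : ℝ) ^ (i : ℕ) * φ (w i) *
      Matrix.det (Matrix.of fun r : Fin 5 => w (i.succAbove r)) = 0 := by
  let A : Matrix (Fin 6) (Fin 6) ℝ := Matrix.of fun i => Fin.cons (φ (w i)) (w i)
  have h1 := Matrix.det_succ_column_zero A
  have h2 : A.det = 0 := by
    rw [← Matrix.exists_mulVec_eq_zero_iff]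
    refine ⟨Fin.cons (-1) (fun j => φ (Pi.single j 1)), ?_, ?_⟩
    · intro h
      have := congrFun h 0
      simp at this
    · funext i
      simp only [Matrix.mulVec, dotProduct, A, Matrix.of_apply]
      rw [Fin.sum_univ_succ]
      simp only [Fin.cons_zero, Fin.cons_succ, Pi.zero_apply]
      have h3 : φ (w i) = ∑ j, w i j * φ (Pi.single j 1) := by
        conv_lhs => rw [show w i = ∑ j, w i j • (Pi.single j (1 : ℝ) : Fin 5 → ℝ) from by
          funext t
          simp [Finset.sum_apply, Pi.single_apply]]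
        rw [map_sum]
        simp
      rw [h3]
      ring
  rw [h2] at h1
  rw [h1]
  rfl

theorem gpF_rel (a b c p q r s : Fin 5 → ℝ) :
    gpF a b c p q * gpF a b c r s - gpF a b c p r * gpF a b c q s +
      gpF a b c p s * gpF a b c q r = 0 := by
  let φ : (Fin 5 → ℝ) →ₗ[ℝ] ℝ :=
    { toFun := fun x => Matrix.det ((Matrix.of ![a, b, c, p, 0]).updateRow 4 x)
      map_add' := fun x y => Matrix.det_updateRow_add _ _ _ _
      map_smul' := fun t x => Matrix.det_updateRow_smul _ _ _ _ }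
  have hφ : ∀ x, φ x = gpF a b c p x := by
    intro x
    show Matrix.det ((Matrix.of ![a, b, c, p, 0]).updateRow 4 x) = _
    unfold gpF
    congr 1
    ext i j
    fin_cases i <;> rfl
  have hz : ∀ (w : Fin 5 → Fin 5 → ℝ) (i j : Fin 5), w i = w j → i ≠ j →
      Matrix.det (Matrix.of w) = 0 := fun w i j h hij =>
    Matrix.det_zero_of_row_eq hij h
  have ha : φ a = 0 := by
    rw [hφ]; exact hz _ 0 4 rfl (by decide)
  have hb : φ b = 0 := by
    rw [hφ]; exact hz _ 1 4 rfl (by decide)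
  have hc : φ c = 0 := by
    rw [hφ]; exact hz _ 2 4 rfl (by decide)
  have h := gp_cramer ![a, b, c, q, r, s] φ
  rw [Fin.sum_univ_six] at h
  have e0 : φ ((![a, b, c, q, r, s] : Fin 6 → Fin 5 → ℝ) 0) = 0 := ha
  have e1 : φ ((![a, b, c, q, r, s] : Fin 6 → Fin 5 → ℝ) 1) = 0 := hb
  have e2 : φ ((![a, b, c, q, r, s] : Fin 6 → Fin 5 → ℝ) 2) = 0 := hc
  have e3 : φ ((![a, b, c, q, r, s] : Fin 6 → Fin 5 → ℝ) 3) = gpF a b c p q := hφ q
  have e4 : φ ((![a, b, c, q, r, s] : Fin 6 → Fin 5 → ℝ) 4) = gpF a b c p r := hφ r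
  have e5 : φ ((![a, b, c, q, r, s] : Fin 6 → Fin 5 → ℝ) 5) = gpF a b c p s := hφ s
  have f3 : (Matrix.of fun t : Fin 5 => (![a, b, c, q, r, s] : Fin 6 → Fin 5 → ℝ)
      ((3 : Fin 6).succAbove t)) = Matrix.of ![a, b, c, r, s] := by
    congr 1
    funext i
    fin_cases i <;> rfl
  have f4 : (Matrix.of fun t : Fin 5 => (![a, b, c, q, r, s] : Fin 6 → Fin 5 → ℝ)
      ((4 : Fin 6).succAbove t)) = Matrix.of ![a, b, c, q, s] := by
    congr 1
    funext i
    fin_cases i <;> rfl
  have f5 : (Matrix.of fun t : Fin 5 => (![a, b, c, q, r, s] : Fin 6 → Fin 5 → ℝ)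
      ((5 : Fin 6).succAbove t)) = Matrix.of ![a, b, c, q, r] := by
    congr 1
    funext i
    fin_cases i <;> rfl
  rw [e0, e1, e2, e3, e4, e5, f3, f4, f5] at h
  have g3 : gpF a b c r s = Matrix.det (Matrix.of ![a, b, c, r, s]) := rfl
  have g4 : gpF a b c q s = Matrix.det (Matrix.of ![a, b, c, q, s]) := rfl
  have g5 : gpF a b c q r = Matrix.det (Matrix.of ![a, b, c, q, r]) := rfl
  rw [← g3, ← g4, ← g5] at h
  have n3 : ((3 : Fin 6) : ℕ) = 3 := rfl
  have n4 : ((4 : Fin 6) : ℕ) = 4 := rfl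
  have n5 : ((5 : Fin 6) : ℕ) = 5 := rfl
  rw [n3, n4, n5] at h
  linarith

/-- Three-term Grassmann–Plücker relation, all brackets sorted. -/
theorem gp (v : ℕ → Fin 5 → ℝ) (a b c p q r s : ℕ) (hab : a < b) (hbc : b < c)
    (hpq : p < q) (hqr : q < r) (hrs : r < s) :
    bra v (ins p (ins q [a, b, c])) * bra v (ins r (ins s [a, b, c])) -
      bra v (ins p (ins r [a, b, c])) * bra v (ins q (ins s [a, b, c])) +
      bra v (ins p (ins s [a, b, c])) * bra v (ins q (ins r [a, b, c])) = 0 := by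
  rw [bra_ins v a b c p q hab hbc hpq, bra_ins v a b c r s hab hbc hrs,
    bra_ins v a b c p r hab hbc (hpq.trans hqr), bra_ins v a b c q s hab hbc (hqr.trans hrs),
    bra_ins v a b c p s hab hbc (hpq.trans (hqr.trans hrs)), bra_ins v a b c q r hab hbc hqr]
  have h := gpF_rel (v a) (v b) (v c) (v p) (v q) (v r) (v s)
  calc _ = gpσ a b c p * gpσ a b c q * gpσ a b c r * gpσ a b c s *
      (gpF (v a) (v b) (v c) (v p) (v q) * gpF (v a) (v b) (v c) (v r) (v s) -
        gpF (v a) (v b) (v c) (v p) (v r) * gpF (v a) (v b) (v c) (v q) (v s) +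
        gpF (v a) (v b) (v c) (v p) (v s) * gpF (v a) (v b) (v c) (v q) (v r)) := by ring
    _ = 0 := by rw [h, mul_zero]

/-- the relation for the monomials `trm` -/
theorem gp_trm (v : ℕ → Fin 5 → ℝ) (α : List ℕ) (hα : α ∈ alphas) :
    trm v α 0 - trm v α 1 + trm v α 2 = 0 := by
  simp only [alphas, List.mem_cons, List.not_mem_nil, or_false] at hα
  rcases hα with rfl | rfl | rfl | rfl | rfl | rfl | rfl | rfl | rfl | rfl | rfl | rfl | rfl | rfl | rfl |
    rfl | rfl | rfl | rfl | rfl | rfl | rfl | rfl | rfl | rfl | rfl | rfl | rfl | rfl | rfl |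
    rfl | rfl | rfl | rfl | rfl
  · exact gp v 0 1 2 3 4 5 6 (by norm_num) (by norm_num) (by norm_num) (by norm_num)
      (by norm_num)
  · exact gp v 0 1 3 2 4 5 6 (by norm_num) (by norm_num) (by norm_num) (by norm_num)
      (by norm_num)
  · exact gp v 0 1 4 2 3 5 6 (by norm_num) (by norm_num) (by norm_num) (by norm_num)
      (by norm_num)
  · exact gp v 0 1 5 2 3 4 6 (by norm_num) (by norm_num) (by norm_num) (by norm_num)
      (by norm_num)
  · exact gp v 0 1 6 2 3 4 5 (by norm_num) (by norm_num) (by norm_num) (by norm_num)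
      (by norm_num)
  · exact gp v 0 2 3 1 4 5 6 (by norm_num) (by norm_num) (by norm_num) (by norm_num)
      (by norm_num)
  · exact gp v 0 2 4 1 3 5 6 (by norm_num) (by norm_num) (by norm_num) (by norm_num)
      (by norm_num)
  · exact gp v 0 2 5 1 3 4 6 (by norm_num) (by norm_num) (by norm_num) (by norm_num)
      (by norm_num)
  · exact gp v 0 2 6 1 3 4 5 (by norm_num) (by norm_num) (by norm_num) (by norm_num)
      (by norm_num)
  · exact gp v 0 3 4 1 2 5 6 (by norm_num) (by norm_num) (by norm_num) (by norm_num)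
      (by norm_num)
  · exact gp v 0 3 5 1 2 4 6 (by norm_num) (by norm_num) (by norm_num) (by norm_num)
      (by norm_num)
  · exact gp v 0 3 6 1 2 4 5 (by norm_num) (by norm_num) (by norm_num) (by norm_num)
      (by norm_num)
  · exact gp v 0 4 5 1 2 3 6 (by norm_num) (by norm_num) (by norm_num) (by norm_num)
      (by norm_num)
  · exact gp v 0 4 6 1 2 3 5 (by norm_num) (by norm_num) (by norm_num) (by norm_num)
      (by norm_num)
  · exact gp v 0 5 6 1 2 3 4 (by norm_num) (by norm_num) (by norm_num) (by norm_num)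
      (by norm_num)
  · exact gp v 1 2 3 0 4 5 6 (by norm_num) (by norm_num) (by norm_num) (by norm_num)
      (by norm_num)
  · exact gp v 1 2 4 0 3 5 6 (by norm_num) (by norm_num) (by norm_num) (by norm_num)
      (by norm_num)
  · exact gp v 1 2 5 0 3 4 6 (by norm_num) (by norm_num) (by norm_num) (by norm_num)
      (by norm_num)
  · exact gp v 1 2 6 0 3 4 5 (by norm_num) (by norm_num) (by norm_num) (by norm_num)
      (by norm_num)
  · exact gp v 1 3 4 0 2 5 6 (by norm_num) (by norm_num) (by norm_num) (by norm_num)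
      (by norm_num)
  · exact gp v 1 3 5 0 2 4 6 (by norm_num) (by norm_num) (by norm_num) (by norm_num)
      (by norm_num)
  · exact gp v 1 3 6 0 2 4 5 (by norm_num) (by norm_num) (by norm_num) (by norm_num)
      (by norm_num)
  · exact gp v 1 4 5 0 2 3 6 (by norm_num) (by norm_num) (by norm_num) (by norm_num)
      (by norm_num)
  · exact gp v 1 4 6 0 2 3 5 (by norm_num) (by norm_num) (by norm_num) (by norm_num)
      (by norm_num)
  · exact gp v 1 5 6 0 2 3 4 (by norm_num) (by norm_num) (by norm_num) (by norm_num)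
      (by norm_num)
  · exact gp v 2 3 4 0 1 5 6 (by norm_num) (by norm_num) (by norm_num) (by norm_num)
      (by norm_num)
  · exact gp v 2 3 5 0 1 4 6 (by norm_num) (by norm_num) (by norm_num) (by norm_num)
      (by norm_num)
  · exact gp v 2 3 6 0 1 4 5 (by norm_num) (by norm_num) (by norm_num) (by norm_num)
      (by norm_num)
  · exact gp v 2 4 5 0 1 3 6 (by norm_num) (by norm_num) (by norm_num) (by norm_num)
      (by norm_num)
  · exact gp v 2 4 6 0 1 3 5 (by norm_num) (by norm_num) (by norm_num) (by norm_num)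
      (by norm_num)
  · exact gp v 2 5 6 0 1 3 4 (by norm_num) (by norm_num) (by norm_num) (by norm_num)
      (by norm_num)
  · exact gp v 3 4 5 0 1 2 6 (by norm_num) (by norm_num) (by norm_num) (by norm_num)
      (by norm_num)
  · exact gp v 3 4 6 0 1 2 5 (by norm_num) (by norm_num) (by norm_num) (by norm_num)
      (by norm_num)
  · exact gp v 3 5 6 0 1 2 4 (by norm_num) (by norm_num) (by norm_num) (by norm_num)
      (by norm_num)
  · exact gp v 4 5 6 0 1 2 3 (by norm_num) (by norm_num) (by norm_num) (by norm_num)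
      (by norm_num)

end Pool.Agent.Lib.MP_c27c22_co
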