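import Pool.Agent.Lib.MP_c27c22_co.Defs

/-!
# The Gale dual of a realization of the multiassociahedron `Δ_{2k+4,k}`
-/

set_option autoImplicit false

namespace Pool.Agent.Lib.MP_c27c22_co

/-- the property of the placement `p` in the frozen statement, for `n = 2k+4` -/
def Placed (k : ℕ) (p : Fin (2 * k + 4) × Fin (2 * k + 4) →
    (Fin (k * (2 * k + 4 - 2 * k - 1)) → ℝ)) : Prop :=
  ∀ S : Finset (Fin (2 * k + 4) × Fin (2 * k + 4)),
    (∀ e ∈ S, Rel (2 * k + 4) k e) →
    (CF (2 * k + 4) k S ↔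
      ∃ w : Fin (k * (2 * k + 4 - 2 * k - 1)) → ℝ, w ≠ 0 ∧ ∃ c : ℝ,
        ∀ e : Fin (2 * k + 4) × Fin (2 * k + 4), Rel (2 * k + 4) k e →
          ((∑ i, w i * p e i) ≤ c ∧ ((∑ i, w i * p e i) = c ↔ e ∈ S)))

/-- evaluation of affine functionals at the placed relevant edges -/
private noncomputable def galePhi {k : ℕ} (p : Fin (2 * k + 4) × Fin (2 * k + 4) →
    (Fin (k * (2 * k + 4 - 2 * k - 1)) → ℝ)) :
    ((Fin (k * (2 * k + 4 - 2 * k - 1)) → ℝ) × ℝ) →ₗ[ℝ]
      ({e : Fin (2 * k + 4) × Fin (2 * k + 4) // Rel (2 * k + 4) k e} → ℝ) where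
  toFun q e := q.2 - ∑ i, q.1 i * p e.1 i
  map_add' q r := by
    funext e
    simp only [Prod.fst_add, Prod.snd_add, Pi.add_apply, add_mul, Finset.sum_add_distrib]
    ring
  map_smul' a q := by
    funext e
    simp only [Prod.smul_fst, Prod.smul_snd, Pi.smul_apply, smul_eq_mul, RingHom.id_apply,
      mul_sub, Finset.mul_sum, mul_assoc]

private theorem galePhi_apply {k : ℕ} (p : Fin (2 * k + 4) × Fin (2 * k + 4) →
    (Fin (k * (2 * k + 4 - 2 * k - 1)) → ℝ)) (q : (Fin (k * (2 * k + 4 - 2 * k - 1)) → ℝ) × ℝ)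
    (e : {e : Fin (2 * k + 4) × Fin (2 * k + 4) // Rel (2 * k + 4) k e}) :
    galePhi p q e = q.2 - ∑ i, q.1 i * p e.1 i := rfl

/-- the set of all relevant edges is not crossing-free -/
private theorem gale_not_CF (k : ℕ) (S : Finset (Fin (2 * k + 4) × Fin (2 * k + 4)))
    (hS : ∀ e, Rel (2 * k + 4) k e → e ∈ S) : ¬ CF (2 * k + 4) k S := by
  classical
  intro h
  apply h
  let f : Fin (k + 1) → Fin (2 * k + 4) × Fin (2 * k + 4) := fun i ↦
    (⟨i.1, by omega⟩, ⟨i.1 + k + 2, by omega⟩)
  have hf : Function.Injective f := by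
    intro i j hij
    have := congrArg (fun e ↦ (e.1 : ℕ)) hij
    exact Fin.ext this
  refine ⟨Finset.univ.image f, ?_, ?_, ?_⟩
  · intro e he
    obtain ⟨i, -, rfl⟩ := Finset.mem_image.1 he
    apply hS
    have := i.2
    refine ⟨?_, ?_, ?_⟩
    · simp only [f, Fin.lt_def]; omega
    · simp only [f]; omega
    · simp only [f]; omega
  · rw [Finset.card_image_of_injective _ hf, Finset.card_univ, Fintype.card_fin]
  · intro e he g hg hne
    obtain ⟨i, -, rfl⟩ := Finset.mem_image.1 he
    obtain ⟨j, -, rfl⟩ := Finset.mem_image.1 hg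
    have hij : i.1 ≠ j.1 := fun h ↦ hne (congrArg f (Fin.ext h))
    have h1 := i.2
    have h2 := j.2
    simp only [Cross, f, Fin.lt_def]
    omega

private theorem gale_card (k : ℕ) [Fintype {e : Fin (2 * k + 4) × Fin (2 * k + 4) //
    Rel (2 * k + 4) k e}] :
    Fintype.card {e : Fin (2 * k + 4) × Fin (2 * k + 4) // Rel (2 * k + 4) k e} ≤ 3 * k + 6 := by
  classical
  let f : {e : Fin (2 * k + 4) × Fin (2 * k + 4) // Rel (2 * k + 4) k e} → ℕ := fun e ↦
    if (e.1.1 : ℕ) = k + 2 then 3 * k + 5 else 3 * e.1.1 + ((e.1.2 : ℕ) - e.1.1 - (k + 1))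
  have hlt : ∀ e, f e < 3 * k + 6 := by
    intro e
    obtain ⟨⟨a, b⟩, h1, h2, h3⟩ := e
    have := b.2
    simp only [Fin.lt_def] at h1 h2 h3
    simp only [f]
    split_ifs <;> omega
  have hinj : Function.Injective f := by
    intro e g heg
    obtain ⟨⟨a, b⟩, h1, h2, h3⟩ := e
    obtain ⟨⟨c, d⟩, h4, h5, h6⟩ := g
    have hb := b.2
    have hd := d.2
    simp only [Fin.lt_def] at h1 h2 h3 h4 h5 h6
    simp only [f] at heg
    apply Subtype.ext
    apply Prod.ext <;> apply Fin.ext <;> simp only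
    · split_ifs at heg <;> omega
    · split_ifs at heg <;> omega
  calc Fintype.card {e : Fin (2 * k + 4) × Fin (2 * k + 4) // Rel (2 * k + 4) k e}
      ≤ Fintype.card (Fin (3 * k + 6)) :=
        Fintype.card_le_of_injective (fun e ↦ (⟨f e, hlt e⟩ : Fin (3 * k + 6)))
          (fun e g h ↦ hinj (congrArg Fin.val h))
    _ = 3 * k + 6 := Fintype.card_fin _

private theorem galePhi_inj {k : ℕ} (p : Fin (2 * k + 4) × Fin (2 * k + 4) →
    (Fin (k * (2 * k + 4 - 2 * k - 1)) → ℝ)) (hp : Placed k p) :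
    Function.Injective (galePhi p) := by
  classical
  rw [← LinearMap.ker_eq_bot, LinearMap.ker_eq_bot']
  rintro ⟨w, c⟩ h
  have h' : ∀ e, Rel (2 * k + 4) k e → (∑ i, w i * p e i) = c := by
    intro e he
    have := congrFun h ⟨e, he⟩
    rw [galePhi_apply] at this
    simp only [Pi.zero_apply] at this
    linarith
  by_cases hw : w = 0
  · subst hw
    have hR : Rel (2 * k + 4) k ((⟨0, by omega⟩, ⟨k + 1, by omega⟩) :
        Fin (2 * k + 4) × Fin (2 * k + 4)) := by
      refine ⟨?_, ?_, ?_⟩
      · simp only [Fin.lt_def]; omega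
      · simp only; omega
      · simp only; omega
    have := h' _ hR
    simp only [Pi.zero_apply, zero_mul, Finset.sum_const_zero] at this
    rw [← this]
    rfl
  · exfalso
    refine gale_not_CF k (Finset.univ.filter fun e ↦ Rel (2 * k + 4) k e) (by simp) ?_
    refine (hp _ (by simp)).2 ⟨w, hw, c, fun e he ↦ ⟨(h' e he).le, ?_⟩⟩
    simp only [Finset.mem_filter, Finset.mem_univ, true_and]
    exact ⟨fun _ ↦ he, fun _ ↦ h' e he⟩

private theorem gale_exists_map {V : Type} [AddCommGroup V] [Module ℝ V] [FiniteDimensional ℝ V]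
    (W : Submodule ℝ V) (h : Module.finrank ℝ V ≤ Module.finrank ℝ W + 5) :
    ∃ Ψ : V →ₗ[ℝ] (Fin 5 → ℝ), ∀ v, Ψ v = 0 ↔ v ∈ W := by
  have h1 : Module.finrank ℝ (V ⧸ W) ≤ Module.finrank ℝ (Fin 5 → ℝ) := by
    have := Submodule.finrank_quotient_add_finrank W
    rw [Module.finrank_fin_fun]
    omega
  obtain ⟨f, hf⟩ := finrank_le_iff_exists_linearMap.1 h1
  refine ⟨f.comp W.mkQ, fun v ↦ ?_⟩
  rw [LinearMap.comp_apply, map_eq_zero_iff _ hf, Submodule.mkQ_apply,
    Submodule.Quotient.mk_eq_zero]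

/-- Cramer's rule: the alternating minors of six vectors of `ℝ^5` form a dependency. -/
private theorem gale_cramer (v : Fin 6 → Fin 5 → ℝ) :
    ∑ j : Fin 6, ((-1 : ℝ) ^ (j : ℕ) *
      Matrix.det (Matrix.of fun r : Fin 5 ↦ v (j.succAbove r))) • v j = 0 := by
  funext c
  let A : Matrix (Fin 6) (Fin 6) ℝ := Matrix.of fun i j ↦ Fin.cases (v i c) (fun l ↦ v i l) j
  have hA : A.det = 0 := by
    apply Matrix.det_zero_of_column_eq (i := 0) (j := c.succ) (Fin.succ_ne_zero c).symm
    intro i
    simp [A]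
  rw [Matrix.det_succ_column_zero] at hA
  rw [Pi.zero_apply, ← hA, Finset.sum_apply]
  refine Finset.sum_congr rfl fun j _ ↦ ?_
  have : A.submatrix j.succAbove Fin.succ =
      Matrix.of fun r : Fin 5 ↦ v (j.succAbove r) := by
    ext a b
    simp [A]
  rw [this]
  simp only [Pi.smul_apply, smul_eq_mul]
  have h0 : A j 0 = v j c := by simp [A]
  rw [h0]
  ring

/-- Gale dual: vectors `x e` in `ℝ^5` such that for any six distinct relevant edges whose
complement `S` is `(k+1)`-crossing-free and becomes not crossing-free after adding any one of the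
six edges, the five-by-five minors of the six vectors are nonzero with alternating signs. -/
theorem gale (k : ℕ) (hk : 1 ≤ k) (p : Fin (2 * k + 4) × Fin (2 * k + 4) →
    (Fin (k * (2 * k + 4 - 2 * k - 1)) → ℝ)) (hp : Placed k p) :
    ∃ x : Fin (2 * k + 4) × Fin (2 * k + 4) → (Fin 5 → ℝ),
      ∀ e : Fin 6 → Fin (2 * k + 4) × Fin (2 * k + 4), Function.Injective e →
        (∀ j, Rel (2 * k + 4) k (e j)) →
        (∀ S : Finset (Fin (2 * k + 4) × Fin (2 * k + 4)), (∀ f ∈ S, Rel (2 * k + 4) k f) →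
          (∀ j, e j ∉ S) → CF (2 * k + 4) k S) →
        (∀ m : Fin 6, ∀ S : Finset (Fin (2 * k + 4) × Fin (2 * k + 4)),
          (∀ f, Rel (2 * k + 4) k f → (∀ j, j ≠ m → f ≠ e j) → f ∈ S) →
          ¬ CF (2 * k + 4) k S) →
        (∀ j : Fin 6, 0 < (-1 : ℝ) ^ (j : ℕ) *
          Matrix.det (Matrix.of fun r : Fin 5 ↦ x (e (j.succAbove r)))) ∨
        (∀ j : Fin 6, (-1 : ℝ) ^ (j : ℕ) *
          Matrix.det (Matrix.of fun r : Fin 5 ↦ x (e (j.succAbove r))) < 0) := by
  classical
  have _ := hk
  have hfin : Module.finrank ℝ ({e : Fin (2 * k + 4) × Fin (2 * k + 4) //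
      Rel (2 * k + 4) k e} → ℝ) ≤ Module.finrank ℝ (LinearMap.range (galePhi p)) + 5 := by
    rw [LinearMap.finrank_range_of_inj (galePhi_inj p hp), Module.finrank_prod,
      Module.finrank_fintype_fun_eq_card, Module.finrank_fintype_fun_eq_card, Fintype.card_fin,
      Module.finrank_self]
    have h1 := gale_card k
    have h2 : 2 * k + 4 - 2 * k - 1 = 3 := by omega
    rw [h2]
    omega
  obtain ⟨Ψ, hΨ⟩ := gale_exists_map (LinearMap.range (galePhi p)) hfin
  refine ⟨fun e ↦ if h : Rel (2 * k + 4) k e then Ψ (Pi.single ⟨e, h⟩ 1) else 0, ?_⟩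
  intro e he hrel hcf hncf
  -- the six vectors
  have hx : ∀ j, (if h : Rel (2 * k + 4) k (e j) then
      Ψ (Pi.single (⟨e j, h⟩ : {e : Fin (2 * k + 4) × Fin (2 * k + 4) //
        Rel (2 * k + 4) k e}) 1) else 0) = Ψ (Pi.single ⟨e j, hrel j⟩ 1) := by
    intro j
    rw [dif_pos (hrel j)]
  simp only [hx]
  set v : Fin 6 → Fin 5 → ℝ := fun j ↦ Ψ (Pi.single ⟨e j, hrel j⟩ 1) with hv
  -- the supporting functional
  obtain ⟨w, hw, c, hwc⟩ := (hp (Finset.univ.filter fun f ↦ Rel (2 * k + 4) k f ∧ ∀ j, f ≠ e j)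
    (by simp only [Finset.mem_filter, Finset.mem_univ, true_and]; exact fun f hf ↦ hf.1)).1
    (hcf _ (by simp only [Finset.mem_filter, Finset.mem_univ, true_and]; exact fun f hf ↦ hf.1)
      (by
        intro j
        simp only [Finset.mem_filter, Finset.mem_univ, true_and, not_and, not_forall, not_not]
        exact fun _ ↦ ⟨j, rfl⟩))
  let g : Fin 6 → ℝ := fun j ↦ c - ∑ i, w i * p (e j) i
  have hg : ∀ j, 0 < g j := by
    intro j
    obtain ⟨h1, h2⟩ := hwc (e j) (hrel j)
    have h3 : (∑ i, w i * p (e j) i) ≠ c := by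
      rw [Ne, h2]
      simp only [Finset.mem_filter, Finset.mem_univ, true_and, not_and, not_forall, not_not]
      exact fun _ ↦ ⟨j, rfl⟩
    have := lt_of_le_of_ne h1 h3
    simp only [g]
    linarith
  have hzero : ∀ f (hf : Rel (2 * k + 4) k f), (∀ j, f ≠ e j) →
      (∑ i, w i * p f i) = c := by
    intro f hf hfe
    rw [(hwc f hf).2]
    simp only [Finset.mem_filter, Finset.mem_univ, true_and]
    exact ⟨hf, hfe⟩
  -- all dependencies are multiples of `g`
  have key : ∀ l : Fin 6 → ℝ, ∑ j, l j • v j = 0 → ∃ M : ℝ, ∀ j, l j = M * g j := by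
    intro l hl
    have hmem : (∑ j, l j • (Pi.single ⟨e j, hrel j⟩ 1 :
        {e : Fin (2 * k + 4) × Fin (2 * k + 4) // Rel (2 * k + 4) k e} → ℝ)) ∈
        LinearMap.range (galePhi p) := by
      rw [← hΨ, map_sum]
      simp only [map_smul]
      exact hl
    obtain ⟨⟨w', c'⟩, hw'⟩ := hmem
    have hval : ∀ f (hf : Rel (2 * k + 4) k f), c' - ∑ i, w' i * p f i =
        ∑ j, l j * (if f = e j then 1 else 0) := by
      intro f hf
      have := congrFun hw' ⟨f, hf⟩
      rw [galePhi_apply] at this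
      simp only at this
      rw [this, Finset.sum_apply]
      refine Finset.sum_congr rfl fun j _ ↦ ?_
      rw [Pi.smul_apply, smul_eq_mul, Pi.single_apply]
      simp only [Subtype.mk.injEq]
    have hvalj : ∀ j, c' - ∑ i, w' i * p (e j) i = l j := by
      intro j
      rw [hval _ (hrel j)]
      simp only [he.eq_iff]
      simp
    have hval0 : ∀ f (hf : Rel (2 * k + 4) k f), (∀ j, f ≠ e j) →
        (∑ i, w' i * p f i) = c' := by
      intro f hf hfe
      have := hval f hf
      simp only [hfe, if_false, mul_zero, Finset.sum_const_zero] at this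
      linarith
    obtain ⟨m, hm⟩ := Finite.exists_max (fun j ↦ l j / g j)
    set M : ℝ := l m / g m with hM
    refine ⟨M, ?_⟩
    have hMg : ∀ j, l j ≤ M * g j := by
      intro j
      have := hm j
      rwa [div_le_iff₀ (hg j)] at this
    have hMm : l m = M * g m := by
      rw [hM, div_mul_cancel₀ _ (hg m).ne']
    -- the functional `M (w,c) - (w',c')`
    have hsum : ∀ f, (∑ i, (M • w - w') i * p f i) =
        M * (∑ i, w i * p f i) - ∑ i, w' i * p f i := by
      intro f
      simp only [Pi.sub_apply, Pi.smul_apply, smul_eq_mul, sub_mul, Finset.sum_sub_distrib,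
        Finset.mul_sum, mul_assoc]
    have hw0 : M • w - w' = 0 := by
      by_contra hne
      refine hncf m (Finset.univ.filter fun f ↦ Rel (2 * k + 4) k f ∧
        (∑ i, (M • w - w') i * p f i) = M * c - c') ?_ ?_
      · intro f hf hfe
        simp only [Finset.mem_filter, Finset.mem_univ, true_and]
        refine ⟨hf, ?_⟩
        rw [hsum]
        by_cases hfm : f = e m
        · subst hfm
          have h1 := hvalj m
          have h2 : g m = c - ∑ i, w i * p (e m) i := rfl
          rw [h2] at hMm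
          linarith
        · have hfe' : ∀ j, f ≠ e j := by
            intro j
            by_cases hj : j = m
            · rw [hj]; exact hfm
            · exact hfe j hj
          rw [hzero f hf hfe', hval0 f hf hfe']
      · refine (hp _ (by
          simp only [Finset.mem_filter, Finset.mem_univ, true_and]
          exact fun f hf ↦ hf.1)).2 ⟨M • w - w', hne, M * c - c', fun f hf ↦ ⟨?_, ?_⟩⟩
        · rw [hsum]
          by_cases hfe : ∀ j, f ≠ e j
          · rw [hzero f hf hfe, hval0 f hf hfe]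
          · push Not at hfe
            obtain ⟨j, rfl⟩ := hfe
            have h1 := hvalj j
            have h2 : g j = c - ∑ i, w i * p (e j) i := rfl
            have h3 := hMg j
            rw [h2] at h3
            linarith
        · simp only [Finset.mem_filter, Finset.mem_univ, true_and]
          exact ⟨fun h ↦ ⟨hf, h⟩, fun h ↦ h.2⟩
    have hc0 : M * c - c' = 0 := by
      have h1 := hvalj m
      have h2 : g m = c - ∑ i, w i * p (e m) i := rfl
      have h3 := hsum (e m)
      rw [hw0] at h3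
      simp only [Pi.zero_apply, zero_mul, Finset.sum_const_zero] at h3
      rw [h2] at hMm
      linarith
    intro j
    have h1 := hvalj j
    have h2 : g j = c - ∑ i, w i * p (e j) i := rfl
    have h3 := hsum (e j)
    rw [hw0] at h3
    simp only [Pi.zero_apply, zero_mul, Finset.sum_const_zero] at h3
    rw [h2]
    linarith
  obtain ⟨M, hM⟩ := key _ (gale_cramer v)
  have hM0 : M ≠ 0 := by
    intro h0
    have h1 := hM 0
    rw [h0, zero_mul] at h1
    simp only [Fin.val_zero, pow_zero, one_mul] at h1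
    obtain ⟨u, hu, hu0⟩ := Matrix.exists_vecMul_eq_zero_iff.2 h1
    obtain ⟨N, hN⟩ := key (Fin.cons 0 u) (by
      rw [Fin.sum_univ_succ]
      simp only [Fin.cons_zero, zero_smul, Fin.cons_succ, zero_add]
      funext c
      have := congrFun hu0 c
      simp only [Matrix.vecMul, dotProduct, Matrix.of_apply, Pi.zero_apply] at this
      rw [Finset.sum_apply]
      simpa [Fin.succAbove_zero] using this)
    have h2 := hN 0
    rw [Fin.cons_zero] at h2
    have hN0 : N = 0 := by
      rcases mul_eq_zero.1 h2.symm with h | h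
      · exact h
      · exact absurd h (hg 0).ne'
    apply hu
    funext r
    have h3 := hN r.succ
    rw [Fin.cons_succ, hN0, zero_mul] at h3
    exact h3
  rcases lt_or_gt_of_ne hM0 with h | h
  · right
    intro j
    have := hM j
    rw [this]
    exact mul_neg_of_neg_of_pos h (hg j)
  · left
    intro j
    have := hM j
    rw [this]
    exact mul_pos h (hg j)

end Pool.Agent.Lib.MP_c27c22_co
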