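import Pool.Agent.Lib.MP_c27c22_co.Iface
import Pool.Agent.Lib.MP_c27c22_co.Ramsey

/-!
# Configurations on many blocks contain homogeneous ones
-/

set_option autoImplicit false

namespace Pool.Agent.Lib.MP_c27c22_co

namespace Homogenise

/-- words as lists -/
def wd {n : ℕ} (f : Fin n → Fin 3) : List ℕ := List.ofFn fun i ↦ ((f i : Fin 3) : ℕ)

theorem exists_wd {n : ℕ} (q : List ℕ) (hq : q.length = n) (hq' : ∀ i ∈ q, i < 3) :
    ∃ f : Fin n → Fin 3, wd f = q := by
  subst hq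
  refine ⟨fun i ↦ ⟨q.get i, hq' _ (List.get_mem q i)⟩, ?_⟩
  unfold wd
  exact List.ofFn_get q

theorem wd_injective {n : ℕ} {f g : Fin n → Fin 3} (h : wd f = wd g) : f = g := by
  funext i
  have := List.ofFn_injective h
  exact Fin.ext (congrFun this i)

/-- the colour type of the 5-element sets -/
abbrev C5 : Type := (Fin 5 → Fin 3) → Prop

/-- the colour type of the 7-element sets -/
abbrev C7 : Type := (Fin 7 → Fin 3) → {α : List ℕ // α ∈ alphas} → Fin 3 → Fin 3 → Prop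

theorem getD_eraseIdx (l : List ℕ) (o d : ℕ) :
    (l.eraseIdx o).getD d 0 = l.getD (skip o d) 0 := by
  unfold skip
  rw [List.getD_eq_getElem?_getD, List.getD_eq_getElem?_getD, List.getElem?_eraseIdx]
  split_ifs <;> rfl

theorem getD_map (l : List ℕ) (g : ℕ → ℕ) (d : ℕ) (hd : d < l.length) :
    (l.map g).getD d 0 = g (l.getD d 0) := by
  rw [List.getD_eq_getElem _ _ (by simpa using hd), List.getD_eq_getElem _ _ hd]
  simp

theorem bra_eq_bra2 (z : ℕ → ℕ → Fin 5 → ℝ) (c W B : List ℕ) (hB : B.length = 5) :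
    bra (fun d ↦ z (c.getD d 0) (W.getD d 0)) B =
      bra2 z (B.map fun d ↦ c.getD d 0) (B.map fun d ↦ W.getD d 0) := by
  unfold bra bra2
  congr 2
  funext r
  rw [getD_map _ _ _ (by omega), getD_map _ _ _ (by omega)]

theorem map_pairwise (c B : List ℕ) (hc : c.Pairwise (· < ·))
    (hB : B.Pairwise (· < ·)) (hd : ∀ d ∈ B, d < c.length) :
    (B.map fun d ↦ c.getD d 0).Pairwise (· < ·) := by
  rw [List.pairwise_map]
  refine List.Pairwise.imp_of_mem ?_ hB
  intro a b ha hb hab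
  rw [List.getD_eq_getElem _ _ (hd a ha), List.getD_eq_getElem _ _ (hd b hb)]
  exact List.pairwise_iff_getElem.1 hc a b (hd a ha) (hd b hb) hab

theorem sort_toFinset (D : List ℕ) (hD : D.Pairwise (· < ·)) :
    D.toFinset.sort (· ≤ ·) = D := by
  have h1 : D.Nodup := hD.imp (fun h ↦ ne_of_lt h)
  have h2 : D.Pairwise (· ≤ ·) := hD.imp (fun h ↦ le_of_lt h)
  exact (List.toFinset_sort (· ≤ ·) h1).2 h2

/-- the reflection in the coordinate `0` -/
def refl0 (v : Fin 5 → ℝ) : Fin 5 → ℝ := Function.update v 0 (-v 0)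

theorem bra_refl (v : ℕ → Fin 5 → ℝ) (B : List ℕ) :
    bra (fun d ↦ refl0 (v d)) B = - bra v B := by
  unfold bra
  have : (Matrix.of fun r : Fin 5 ↦ refl0 (v (B.getD r 0))) =
      (Matrix.of fun r : Fin 5 ↦ v (B.getD r 0)).updateCol 0
        ((-1 : ℝ) • fun r ↦ (Matrix.of fun r : Fin 5 ↦ v (B.getD r 0)) r 0) := by
    ext r s
    simp only [refl0, Matrix.of_apply, Matrix.updateCol_apply, Function.update_apply]
    split_ifs <;> simp
  rw [this, Matrix.det_updateCol_smul]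
  have h2 : (Matrix.of fun r : Fin 5 ↦ v (B.getD r 0)).updateCol 0
        (fun r ↦ (Matrix.of fun r : Fin 5 ↦ v (B.getD r 0)) r 0) =
        (Matrix.of fun r : Fin 5 ↦ v (B.getD r 0)) := by
    exact Matrix.updateCol_eq_self _ _
  rw [h2]
  simp

theorem trm_refl (v : ℕ → Fin 5 → ℝ) (α : List ℕ) (i : ℕ) :
    trm (fun d ↦ refl0 (v d)) α i = trm v α i := by
  unfold trm
  rw [bra_refl, bra_refl]
  ring

theorem homog_refl (y : ℕ → ℕ → Fin 5 → ℝ) (χ : List ℕ → Prop)
    (κ : List ℕ → List ℕ → ℕ → ℕ → Prop) (h : Homog y χ κ) :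
    Homog (fun d i ↦ refl0 (y d i)) (fun q ↦ ¬ χ q) κ where
  nz := by
    intro W B hW hW' hB hB' hd
    have := h.nz W B hW hW' hB hB' hd
    rw [show (fun d ↦ (fun d i ↦ refl0 (y d i)) d (W.getD d 0)) =
      (fun d ↦ refl0 ((fun d ↦ y d (W.getD d 0)) d)) from rfl, bra_refl]
    exact neg_ne_zero.2 this
  sg := by
    intro W B hW hW' hB hB' hd
    have h1 := h.nz W B hW hW' hB hB' hd
    have h2 := h.sg W B hW hW' hB hB' hd
    rw [show (fun d ↦ (fun d i ↦ refl0 (y d i)) d (W.getD d 0)) =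
      (fun d ↦ refl0 ((fun d ↦ y d (W.getD d 0)) d)) from rfl, bra_refl, ← h2]
    constructor
    · intro h3; linarith
    · intro h3
      rcases lt_or_gt_of_ne h1 with h4 | h4
      · linarith
      · exact absurd h4 h3
  cmp := by
    intro W o α i j hW hW' ho hα hi hj
    have h2 := h.cmp W o α i j hW hW' ho hα hi hj
    rw [show (fun d ↦ (fun d i ↦ refl0 (y d i)) (skip o d) (W.getD (skip o d) 0)) =
      (fun d ↦ refl0 ((fun d ↦ y (skip o d) (W.getD (skip o d) 0)) d)) from rfl, trm_refl,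
      trm_refl]
    exact h2
  red := by
    intro q hq j hj
    have := h.red q hq j hj
    tauto

theorem redWords_spec : ∀ q ∈ redWords, q.length = 6 ∧ ∀ i ∈ q, i < 3 := by
  decide

end Homogenise

open Homogenise

/-- Ramsey: configurations with arbitrarily many blocks give a homogeneous configuration, in which
we may suppose that the pattern `0,1,2,0,1` is positive. -/
theorem homogenise (h : ∀ k : ℕ, 1 ≤ k → ∃ z : ℕ → ℕ → Fin 5 → ℝ, Config k z) :
    ∃ (y : ℕ → ℕ → Fin 5 → ℝ) (χ : List ℕ → Prop) (κ : List ℕ → List ℕ → ℕ → ℕ → Prop),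
      Homog y χ κ ∧ χ [0, 1, 2, 0, 1] := by
  suffices hs : ∃ (y : ℕ → ℕ → Fin 5 → ℝ) (χ : List ℕ → Prop)
      (κ : List ℕ → List ℕ → ℕ → ℕ → Prop), Homog y χ κ by
    obtain ⟨y, χ, κ, hH⟩ := hs
    by_cases h0 : χ [0, 1, 2, 0, 1]
    · exact ⟨y, χ, κ, hH, h0⟩
    · exact ⟨_, _, κ, homog_refl y χ κ hH, h0⟩
  obtain ⟨M7, hM7⟩ := ramsey_finset 7 8 (κ := C7)
  obtain ⟨M5, hM5⟩ := ramsey_finset 5 M7 (κ := C5)
  obtain ⟨z, hz⟩ := h (M5 + 1) (by omega)
  obtain ⟨Y5, hY5, hY5c, c5, hc5⟩ := hM5 (Finset.range (M5 + 1)) (by simp)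
    (fun Z f ↦ 0 < bra2 z (Z.sort (· ≤ ·)) (wd f))
  obtain ⟨Y7, hY7, hY7c, c7, hc7⟩ := hM7 Y5 (by omega)
    (fun Z f α i j ↦ |trm (fun d ↦ z ((Z.sort (· ≤ ·)).getD d 0) ((wd f).getD d 0)) α i| ≤
      |trm (fun d ↦ z ((Z.sort (· ≤ ·)).getD d 0) ((wd f).getD d 0)) α j|)
  set c : List ℕ := Y7.sort (· ≤ ·) with hcdef
  have hclen : c.length = 8 := by rw [hcdef, Finset.length_sort, hY7c]
  have hcpw : c.Pairwise (· < ·) := by
    rw [hcdef]; exact (Finset.sortedLT_sort Y7).pairwise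
  have hcmem : ∀ x ∈ c, x ∈ Y7 := by
    intro x hx; rw [hcdef] at hx; exact (Finset.mem_sort _).1 hx
  have hY7k : ∀ x ∈ Y7, x ≤ M5 + 1 := by
    intro x hx
    have := Finset.mem_range.1 (hY5 (hY7 hx)); omega
  -- the signs
  have key : ∀ D q : List ℕ, D.length = 5 → D.Pairwise (· < ·) → (∀ d ∈ D, d ∈ Y7) →
      q.length = 5 → (∀ i ∈ q, i < 3) →
      (0 < bra2 z D q ↔ ∃ f, wd f = q ∧ c5 f) := by
    intro D q hD hDp hDm hq hq'
    obtain ⟨f, hf⟩ := exists_wd q hq hq'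
    have h1 := hc5 D.toFinset (by
      intro x hx
      exact hY7 (hDm x (List.mem_toFinset.1 hx))) (by
      rw [List.toFinset_card_of_nodup (hDp.imp (fun h ↦ ne_of_lt h)), hD])
    have h2 := congrFun h1 f
    simp only [sort_toFinset D hDp, hf] at h2
    constructor
    · intro h3
      exact ⟨f, hf, h2 ▸ h3⟩
    · rintro ⟨g, hg, hg'⟩
      have : g = f := wd_injective (hg.trans hf.symm)
      subst this
      rw [h2]; exact hg'
  have hmem : ∀ B : List ℕ, (∀ d ∈ B, d < 8) → ∀ d ∈ (B.map fun d ↦ c.getD d 0), d ∈ Y7 := by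
    intro B hB d hd
    rw [List.mem_map] at hd
    obtain ⟨e, he, rfl⟩ := hd
    have : e < c.length := by rw [hclen]; exact hB e he
    rw [List.getD_eq_getElem _ _ this]
    exact hcmem _ (List.getElem_mem this)
  have hw3 : ∀ W B : List ℕ, W.length = 8 → (∀ i ∈ W, i < 3) → (∀ d ∈ B, d < 8) →
      ∀ i ∈ (B.map fun d ↦ W.getD d 0), i < 3 := by
    intro W B hW hW' hB i hi
    rw [List.mem_map] at hi
    obtain ⟨e, he, rfl⟩ := hi
    have : e < W.length := by rw [hW]; exact hB e he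
    rw [List.getD_eq_getElem _ _ this]
    exact hW' _ (List.getElem_mem this)
  refine ⟨fun d i ↦ z (c.getD d 0) i, fun q ↦ ∃ f, wd f = q ∧ c5 f,
    fun q α i j ↦ ∃ f, wd f = q ∧ ∃ (hα : α ∈ alphas) (hi : i < 3) (hj : j < 3),
      c7 f ⟨α, hα⟩ ⟨i, hi⟩ ⟨j, hj⟩, ?_, ?_, ?_, ?_⟩
  · intro W B hW hW' hB hB' hd
    rw [bra_eq_bra2 z c W B hB]
    refine hz.nz _ _ (by simpa using hB) (map_pairwise c B hcpw hB' (by simpa [hclen] using hd))
      ?_ (by simpa using hB) (hw3 W B hW hW' hd)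
    intro d hd'
    exact hY7k d (hmem B hd d hd')
  · intro W B hW hW' hB hB' hd
    rw [bra_eq_bra2 z c W B hB]
    exact key _ _ (by simpa using hB) (map_pairwise c B hcpw hB' (by simpa [hclen] using hd))
      (hmem B hd) (by simpa using hB) (hw3 W B hW hW' hd)
  · intro W o α i j hW hW' ho hα hi hj
    have ho' : o < c.length := by omega
    have hWo : (W.eraseIdx o).length = 7 := by
      rw [List.length_eraseIdx_of_lt (by omega)]; omega
    have hWo' : ∀ i ∈ W.eraseIdx o, i < 3 := fun i hi ↦ hW' i (List.mem_of_mem_eraseIdx hi)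
    have hco : (c.eraseIdx o).length = 7 := by
      rw [List.length_eraseIdx_of_lt ho']; omega
    have hcop : (c.eraseIdx o).Pairwise (· < ·) := hcpw.sublist (List.eraseIdx_sublist c o)
    obtain ⟨f, hf⟩ := exists_wd (W.eraseIdx o) hWo hWo'
    have h1 := hc7 (c.eraseIdx o).toFinset (by
      intro x hx
      exact hcmem x (List.mem_of_mem_eraseIdx (List.mem_toFinset.1 hx))) (by
      rw [List.toFinset_card_of_nodup (hcop.imp (fun h ↦ ne_of_lt h)), hco])
    have h2 := congrFun (congrFun (congrFun (congrFun h1 f) ⟨α, hα⟩) ⟨i, hi⟩) ⟨j, hj⟩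
    simp only [sort_toFinset _ hcop, hf] at h2
    have h3 : (fun d ↦ z ((c.eraseIdx o).getD d 0) ((W.eraseIdx o).getD d 0)) =
        (fun d ↦ z (c.getD (skip o d) 0) (W.getD (skip o d) 0)) := by
      funext d
      rw [getD_eraseIdx, getD_eraseIdx]
    rw [h3] at h2
    constructor
    · intro h4
      exact ⟨f, hf, hα, hi, hj, h2 ▸ h4⟩
    · rintro ⟨g, hg, _, _, _, hg'⟩
      have : g = f := wd_injective (hg.trans hf.symm)
      subst this
      exact h2.symm ▸ hg'
  · intro q hq j hj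
    obtain ⟨hq6, hq3⟩ := redWords_spec q hq
    have hD6 : (c.take 6).length = 6 := by rw [List.length_take]; omega
    have hDp : (c.take 6).Pairwise (· < ·) := hcpw.sublist (List.take_sublist 6 c)
    have hDm : ∀ d ∈ c.take 6, d ∈ Y7 := fun d hd ↦ hcmem d (List.mem_of_mem_take hd)
    have hr := hz.red (c.take 6) hD6 hDp (fun d hd ↦ hY7k d (hDm d hd)) q hq j hj
    have hk : ∀ j, j < 6 → (0 < bra2 z ((c.take 6).eraseIdx j) (q.eraseIdx j) ↔
        ∃ f, wd f = q.eraseIdx j ∧ c5 f) := by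
      intro j hj
      refine key _ _ ?_ (hDp.sublist (List.eraseIdx_sublist _ _))
        (fun d hd ↦ hDm d (List.mem_of_mem_eraseIdx hd)) ?_
        (fun i hi ↦ hq3 i (List.mem_of_mem_eraseIdx hi))
      · rw [List.length_eraseIdx_of_lt (by omega)]; omega
      · rw [List.length_eraseIdx_of_lt (by omega)]; omega
    rw [← hk j (by omega), ← hk (j + 1) (by omega)]
    exact hr

end Pool.Agent.Lib.MP_c27c22_co
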