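import Pool.Agent.Lib.MP_c27c22_co.Defs

/-!
# Brackets, Grassmann–Plücker terms, configurations and homogeneous configurations

A *configuration* `z` gives a vector `z b i` of `ℝ^5` for every block `b` and letter `i ∈ {0,1,2}`.
Lists of naturals stand for (sorted) lists of blocks or positions and for words in the letters.
-/

set_option autoImplicit false

namespace Pool.Agent.Lib.MP_c27c22_co

/-- the 16 reduced words of the longest element of `S_4`, letters `0,1,2` -/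
def redWords : List (List ℕ) :=
  [[0,1,0,2,1,0], [0,1,2,0,1,0], [0,1,2,1,0,1], [0,2,1,0,2,1],
   [0,2,1,2,0,1], [1,0,1,2,1,0], [1,0,2,1,0,2], [1,0,2,1,2,0],
   [1,2,0,1,0,2], [1,2,0,1,2,0], [1,2,1,0,1,2], [2,0,1,0,2,1],
   [2,0,1,2,0,1], [2,1,0,1,2,1], [2,1,0,2,1,2], [2,1,2,0,1,2]]

/-- bracket: determinant of the five vectors `v` at the positions listed in `L` -/
noncomputable def bra (v : ℕ → Fin 5 → ℝ) (L : List ℕ) : ℝ :=
  Matrix.det (Matrix.of fun r : Fin 5 ↦ v (L.getD r 0))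

/-- bracket of a configuration: determinant of `z (D_r) (q_r)`, `r = 0..4` -/
noncomputable def bra2 (z : ℕ → ℕ → Fin 5 → ℝ) (D q : List ℕ) : ℝ :=
  Matrix.det (Matrix.of fun r : Fin 5 ↦ z (D.getD r 0) (q.getD r 0))

/-- insertion into a sorted list -/
def ins (a : ℕ) : List ℕ → List ℕ
  | [] => [a]
  | b :: l => if a < b then a :: b :: l else b :: ins a l

/-- complement in `{0,…,6}` -/
def co (α : List ℕ) : List ℕ := (List.range 7).filter fun x ↦ !(α.contains x)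

/-- the left bracket of the `i`-th Grassmann–Plücker monomial of `α` (`α` has 3 elements,
`co α = [p,q,r,s]`) -/
def tl (α : List ℕ) (i : ℕ) : List ℕ :=
  match i with
  | 0 => ins ((co α).getD 0 0) (ins ((co α).getD 1 0) α)
  | 1 => ins ((co α).getD 0 0) (ins ((co α).getD 2 0) α)
  | _ => ins ((co α).getD 0 0) (ins ((co α).getD 3 0) α)

/-- the right bracket of the `i`-th Grassmann–Plücker monomial of `α` -/
def tr (α : List ℕ) (i : ℕ) : List ℕ :=
  match i with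
  | 0 => ins ((co α).getD 2 0) (ins ((co α).getD 3 0) α)
  | 1 => ins ((co α).getD 1 0) (ins ((co α).getD 3 0) α)
  | _ => ins ((co α).getD 1 0) (ins ((co α).getD 2 0) α)

/-- the `i`-th Grassmann–Plücker monomial: `[αpq][αrs]`, `[αpr][αqs]`, `[αps][αqr]` -/
noncomputable def trm (v : ℕ → Fin 5 → ℝ) (α : List ℕ) (i : ℕ) : ℝ :=
  bra v (tl α i) * bra v (tr α i)

/-- the 3-element sorted sublists of `{0,…,6}` -/
def alphas : List (List ℕ) :=
  [[0,1,2],[0,1,3],[0,1,4],[0,1,5],[0,1,6],[0,2,3],[0,2,4],[0,2,5],[0,2,6],[0,3,4],[0,3,5],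
   [0,3,6],[0,4,5],[0,4,6],[0,5,6],[1,2,3],[1,2,4],[1,2,5],[1,2,6],[1,3,4],[1,3,5],[1,3,6],
   [1,4,5],[1,4,6],[1,5,6],[2,3,4],[2,3,5],[2,3,6],[2,4,5],[2,4,6],[2,5,6],[3,4,5],[3,4,6],
   [3,5,6],[4,5,6]]

/-- the order embedding of `{0,…,6}` into `{0,…,7}` that omits `o` -/
def skip (o d : ℕ) : ℕ := if d < o then d else d + 1

/-- a configuration on the blocks `0,…,k` -/
structure Config (k : ℕ) (z : ℕ → ℕ → Fin 5 → ℝ) : Prop where
  /-- all brackets with increasing blocks are nonzero -/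
  nz : ∀ D q : List ℕ, D.length = 5 → D.Pairwise (· < ·) → (∀ d ∈ D, d ≤ k) →
    q.length = 5 → (∀ i ∈ q, i < 3) → bra2 z D q ≠ 0
  /-- the six brackets obtained from a reduced word alternate in sign -/
  red : ∀ D : List ℕ, D.length = 6 → D.Pairwise (· < ·) → (∀ d ∈ D, d ≤ k) →
    ∀ q ∈ redWords, ∀ j, j < 5 → (0 < bra2 z (D.eraseIdx j) (q.eraseIdx j) ↔
      ¬ 0 < bra2 z (D.eraseIdx (j + 1)) (q.eraseIdx (j + 1)))

/-- a homogeneous configuration on the blocks `0,…,7` with sign pattern `χ` and comparison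
pattern `κ` -/
structure Homog (y : ℕ → ℕ → Fin 5 → ℝ) (χ : List ℕ → Prop)
    (κ : List ℕ → List ℕ → ℕ → ℕ → Prop) : Prop where
  nz : ∀ W B : List ℕ, W.length = 8 → (∀ i ∈ W, i < 3) → B.length = 5 → B.Pairwise (· < ·) →
    (∀ d ∈ B, d < 8) → bra (fun d ↦ y d (W.getD d 0)) B ≠ 0
  sg : ∀ W B : List ℕ, W.length = 8 → (∀ i ∈ W, i < 3) → B.length = 5 → B.Pairwise (· < ·) →
    (∀ d ∈ B, d < 8) →
    (0 < bra (fun d ↦ y d (W.getD d 0)) B ↔ χ (B.map fun d ↦ W.getD d 0))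
  cmp : ∀ (W : List ℕ) (o : ℕ) (α : List ℕ) (i j : ℕ), W.length = 8 → (∀ i ∈ W, i < 3) →
    o < 8 → α ∈ alphas → i < 3 → j < 3 →
    (|trm (fun d ↦ y (skip o d) (W.getD (skip o d) 0)) α i| ≤
      |trm (fun d ↦ y (skip o d) (W.getD (skip o d) 0)) α j| ↔ κ (W.eraseIdx o) α i j)
  red : ∀ q ∈ redWords, ∀ j, j < 5 → (χ (q.eraseIdx j) ↔ ¬ χ (q.eraseIdx (j + 1)))

end Pool.Agent.Lib.MP_c27c22_co
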